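import Pool.Agent.K3h56.BN.Van

/-! The sequences `E(j) = 1 - ∑ c_k {j/k}` and a bound for the coefficients. -/

set_option autoImplicit false

open MeasureTheory Filter Topology Set

namespace Pool.Agent.K3h56.BN

noncomputable section

/-- `E(j) = 1 - ∑_{2 ≤ k ≤ n} c_k {j/k}` -/
def Er (n : ℕ) (c : ℕ → ℝ) (j : ℕ) : ℝ := 1 - ∑ k ∈ Finset.Icc 2 n, c k * Int.fract ((j:ℝ) / k)

/-- `∑_{j ≥ 1} |E(j)|^p / (j (j+1))` -/
def Dp (p : ℝ) (n : ℕ) (c : ℕ → ℝ) : ℝ :=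
  ∑' j : ℕ, |Er n c (j + 1)| ^ p / (((j:ℝ) + 1) * ((j:ℝ) + 2))

lemma fr_nat {k : ℕ} (hk : 0 < k) (j : ℕ) : Int.fract ((j:ℝ) / k) = (j:ℝ) / k - ((j / k : ℕ) : ℝ) := by
  have hk' : (k:ℝ) ≠ 0 := by positivity
  have h := fract_block (M := j / k) hk (Nat.mod_lt j hk)
  rw [Nat.div_add_mod j k] at h
  rw [h]
  have h2 : (j:ℝ) = k * ((j / k : ℕ):ℝ) + ((j % k : ℕ) : ℝ) := by
    exact_mod_cast (Nat.div_add_mod j k).symm
  rw [eq_sub_iff_add_eq]
  conv_rhs => rw [h2]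
  field_simp
  ring

lemma fr_succ {k : ℕ} (hk : 0 < k) (j : ℕ) :
    Int.fract (((j + 1 : ℕ):ℝ) / k) - Int.fract ((j:ℝ) / k) = 1 / k - (if k ∣ j + 1 then 1 else 0) := by
  rw [fr_nat hk, fr_nat hk, Nat.succ_div]
  push_cast
  ring

lemma Er_abs_le (n : ℕ) (c : ℕ → ℝ) (j : ℕ) : |Er n c j| ≤ 1 + ∑ k ∈ Finset.Icc 2 n, |c k| := by
  unfold Er
  refine (abs_sub _ _).trans ?_
  rw [abs_one]
  gcongr
  refine (Finset.abs_sum_le_sum_abs _ _).trans ?_
  refine Finset.sum_le_sum fun k _ => ?_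
  rw [abs_mul, abs_of_nonneg (Int.fract_nonneg ((j:ℝ) / k))]
  have := (Int.fract_lt_one ((j:ℝ) / k)).le
  nlinarith [abs_nonneg (c k)]

lemma summable_inv_sq : Summable (fun j : ℕ => (1:ℝ) / (((j:ℝ) + 1) * ((j:ℝ) + 2))) := by
  have h : Summable (fun j : ℕ => (1:ℝ) / ((j + 1 : ℕ):ℝ) ^ 2) :=
    (summable_nat_add_iff 1).mpr (Real.summable_one_div_nat_pow.mpr (by norm_num))
  refine Summable.of_nonneg_of_le (fun j => by positivity) (fun j => ?_) h
  rw [div_le_div_iff₀ (by positivity) (by positivity)]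
  push_cast
  nlinarith [Nat.cast_nonneg (α := ℝ) j]

lemma Dp_summable {p : ℝ} (hp : 0 ≤ p) (n : ℕ) (c : ℕ → ℝ) :
    Summable (fun j : ℕ => |Er n c (j + 1)| ^ p / (((j:ℝ) + 1) * ((j:ℝ) + 2))) := by
  set B := 1 + ∑ k ∈ Finset.Icc 2 n, |c k| with hB
  refine Summable.of_nonneg_of_le (fun j => by positivity) (fun j => ?_) (summable_inv_sq.mul_left (B ^ p))
  rw [mul_one_div]
  gcongr
  exact Er_abs_le n c (j + 1)

lemma Dp_nonneg (p : ℝ) (n : ℕ) (c : ℕ → ℝ) : 0 ≤ Dp p n c :=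
  tsum_nonneg fun j => by positivity

lemma Er_pow_le {p : ℝ} (hp : 0 ≤ p) (n : ℕ) (c : ℕ → ℝ) (j : ℕ) :
    |Er n c (j + 1)| ^ p ≤ (((j:ℝ) + 1) * ((j:ℝ) + 2)) * Dp p n c := by
  have h := (Dp_summable hp n c).le_tsum j (fun i _ => by positivity)
  rw [div_le_iff₀ (by positivity)] at h
  rw [mul_comm]
  exact h

lemma Er_le_of_Dp {p : ℝ} (hp : 1 ≤ p) {n : ℕ} {c : ℕ → ℝ} (hD : Dp p n c ≤ 1) {j : ℕ} (hj : j + 1 ≤ n) :
    |Er n c (j + 1)| ≤ 2 * (n:ℝ) ^ 2 := by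
  have hn : (1:ℝ) ≤ n := by exact_mod_cast (by omega : 1 ≤ n)
  have hjn : (j:ℝ) + 1 ≤ n := by exact_mod_cast hj
  have h0 : (0:ℝ) ≤ j := by positivity
  rcases le_or_gt |Er n c (j + 1)| 1 with h | h
  · nlinarith
  · have h1 := Er_pow_le (by linarith : 0 ≤ p) n c j
    have h2 : |Er n c (j + 1)| ≤ |Er n c (j + 1)| ^ p := by
      conv_lhs => rw [← Real.rpow_one |Er n c (j + 1)|]
      exact Real.rpow_le_rpow_of_exponent_le h.le hp
    have h3 := Dp_nonneg p n c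
    have h4 : ((j:ℝ) + 1) * ((j:ℝ) + 2) ≤ 2 * (n:ℝ) ^ 2 := by nlinarith
    have h5 : 0 ≤ ((j:ℝ) + 1) * ((j:ℝ) + 2) := by positivity
    nlinarith

lemma Er_zero (n : ℕ) (c : ℕ → ℝ) : Er n c 0 = 1 := by
  unfold Er; simp

lemma Er_le_of_Dp' {p : ℝ} (hp : 1 ≤ p) {n : ℕ} {c : ℕ → ℝ} (hD : Dp p n c ≤ 1) (hn : 1 ≤ n) {j : ℕ} (hj : j ≤ n) :
    |Er n c j| ≤ 2 * (n:ℝ) ^ 2 := by
  rcases j with _ | j
  · rw [Er_zero, abs_one]
    have hn : (1:ℝ) ≤ n := by exact_mod_cast hn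
    nlinarith
  · exact Er_le_of_Dp hp hD hj

/-- the divisor sums of the coefficients -/
lemma div_sum (n : ℕ) (c : ℕ → ℝ) (j : ℕ) :
    ∑ k ∈ (Finset.Icc 2 n).filter (fun k => k ∣ j + 1), c k =
      (1 - Er n c 1) + Er n c (j + 1) - Er n c j := by
  have h1 : 1 - Er n c 1 = ∑ k ∈ Finset.Icc 2 n, c k * (1 / k) := by
    unfold Er
    rw [sub_sub_cancel]
    refine Finset.sum_congr rfl fun k hk => ?_
    rw [Finset.mem_Icc] at hk
    congr 1
    rw [Nat.cast_one, Int.fract_eq_self]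
    constructor
    · positivity
    · rw [div_lt_one (by exact_mod_cast (by omega : 0 < k))]
      exact_mod_cast (by omega : 1 < k)
  have h2 : Er n c (j + 1) - Er n c j =
      -∑ k ∈ Finset.Icc 2 n, c k * (1 / k - (if k ∣ j + 1 then 1 else 0)) := by
    unfold Er
    rw [← Finset.sum_neg_distrib, sub_sub_sub_cancel_left, ← Finset.sum_sub_distrib]
    refine Finset.sum_congr rfl fun k hk => ?_
    rw [Finset.mem_Icc] at hk
    have := fr_succ (k := k) (by omega) j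
    rw [← this]
    ring
  rw [Finset.sum_filter]
  have h3 : (1 - Er n c 1) + Er n c (j + 1) - Er n c j =
      (1 - Er n c 1) + (Er n c (j + 1) - Er n c j) := by ring
  rw [h3, h1, h2, ← Finset.sum_neg_distrib, ← Finset.sum_add_distrib]
  refine Finset.sum_congr rfl fun k _ => ?_
  split_ifs <;> ring

/-- **coefficient bound** -/
theorem coef_bound {p : ℝ} (hp : 1 ≤ p) {n : ℕ} {c : ℕ → ℝ} (hD : Dp p n c ≤ 1) {k : ℕ}
    (hk : k ∈ Finset.Icc 2 n) : |c k| ≤ 9 * (n:ℝ) ^ 3 := by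
  rw [Finset.mem_Icc] at hk
  have hn : 1 ≤ n := by omega
  have hnr : (1:ℝ) ≤ n := by exact_mod_cast hn
  set f : ℕ → ℝ := fun k => if 2 ≤ k ∧ k ≤ n then c k else 0 with hf
  set g : ℕ → ℝ := fun j => ∑ k ∈ (Finset.Icc 2 n).filter (fun k => k ∣ j), c k with hg
  have h1 : ∀ j > 0, ∑ i ∈ j.divisors, f i = g j := by
    intro j hj
    simp only [hf, hg]
    rw [← Finset.sum_filter]
    refine Finset.sum_congr ?_ fun _ _ => rfl
    ext i
    simp only [Finset.mem_filter, Nat.mem_divisors, Finset.mem_Icc]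
    constructor
    · rintro ⟨⟨a, b⟩, e⟩
      exact ⟨e, a⟩
    · rintro ⟨a, b⟩
      exact ⟨⟨b, by omega⟩, a⟩
  have h2 := (ArithmeticFunction.sum_eq_iff_sum_mul_moebius_eq.mp h1) k (by omega)
  have h3 : f k = c k := by simp only [hf]; rw [if_pos hk]
  rw [← h3, ← h2]
  have hgb : ∀ j, 0 < j → j ≤ n → |g j| ≤ 9 * (n:ℝ) ^ 2 := by
    intro j hj hjn
    obtain ⟨i, rfl⟩ : ∃ i, j = i + 1 := ⟨j - 1, by omega⟩
    simp only [hg]
    rw [div_sum]
    have a1 := Er_le_of_Dp' hp hD hn (j := 1) (by omega)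
    have a2 := Er_le_of_Dp' hp hD hn (j := i + 1) hjn
    have a3 := Er_le_of_Dp' hp hD hn (j := i) (by omega)
    rw [abs_le] at a1 a2 a3 ⊢
    constructor <;> nlinarith
  calc |∑ x ∈ k.divisorsAntidiagonal, ((ArithmeticFunction.moebius x.1 : ℤ) : ℝ) * g x.2|
      ≤ ∑ x ∈ k.divisorsAntidiagonal, |((ArithmeticFunction.moebius x.1 : ℤ) : ℝ) * g x.2| :=
        Finset.abs_sum_le_sum_abs _ _
    _ ≤ ∑ x ∈ k.divisorsAntidiagonal, 9 * (n:ℝ) ^ 2 := by
        refine Finset.sum_le_sum fun x hx => ?_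
        rw [Nat.mem_divisorsAntidiagonal] at hx
        have hx2 : x.2 ∣ k := ⟨x.1, by rw [mul_comm]; exact hx.1.symm⟩
        have hx2le := Nat.le_of_dvd (by omega) hx2
        have hx2pos := Nat.pos_of_dvd_of_pos hx2 (by omega)
        have a1 := hgb x.2 hx2pos (by omega)
        have a2 : |((ArithmeticFunction.moebius x.1 : ℤ) : ℝ)| ≤ 1 := by
          have := ArithmeticFunction.abs_moebius_le_one (n := x.1)
          exact_mod_cast this
        rw [abs_mul]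
        nlinarith [abs_nonneg (g x.2), abs_nonneg ((ArithmeticFunction.moebius x.1 : ℤ) : ℝ)]
    _ = (k.divisorsAntidiagonal.card : ℝ) * (9 * (n:ℝ) ^ 2) := by
        rw [Finset.sum_const, nsmul_eq_mul]
    _ ≤ (n:ℝ) * (9 * (n:ℝ) ^ 2) := by
        have : k.divisorsAntidiagonal.card ≤ n := by
          have h5 : k.divisorsAntidiagonal.card = k.divisors.card := by
            rw [← Nat.map_div_right_divisors, Finset.card_map]
          rw [h5]
          exact (Nat.card_divisors_le_self k).trans hk.2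
        have h6 : ((k.divisorsAntidiagonal.card : ℕ) : ℝ) ≤ n := by exact_mod_cast this
        gcongr
    _ = 9 * (n:ℝ) ^ 3 := by ring

end

end Pool.Agent.K3h56.BN
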