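import Mathlib

/-! The smooth cutoff, the functions `u ^ (-ρ) χ(u / Λ)`, and their differences. -/

set_option autoImplicit false

open MeasureTheory Filter Topology Set
open scoped ContDiff

namespace Pool.Agent.K3h56.BN

noncomputable section

/-- smooth cutoff: `1` on `(-∞, 1]`, `0` on `[2, ∞)` -/
def chi (v : ℝ) : ℝ := Real.smoothTransition (2 - v)

lemma chi_one {v : ℝ} (h : v ≤ 1) : chi v = 1 := Real.smoothTransition.one_of_one_le (by linarith)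
lemma chi_zero {v : ℝ} (h : 2 ≤ v) : chi v = 0 := Real.smoothTransition.zero_of_nonpos (by linarith)
lemma chi_nonneg (v : ℝ) : 0 ≤ chi v := Real.smoothTransition.nonneg _
lemma chi_le_one (v : ℝ) : chi v ≤ 1 := Real.smoothTransition.le_one _
lemma chi_contDiff : ContDiff ℝ ∞ chi :=
  (Real.smoothTransition.contDiff (n := ⊤)).comp (contDiff_const.sub contDiff_id)

lemma chi_lip : ∃ K : ℝ, 0 ≤ K ∧ ∀ a b : ℝ, |chi a - chi b| ≤ K * |a - b| := by
  have hd : Continuous (deriv chi) := (chi_contDiff.continuous_deriv (by simp))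
  have hcs : HasCompactSupport (deriv chi) := by
    refine HasCompactSupport.intro (isCompact_Icc (a := (1:ℝ)) (b := 2)) ?_
    intro x hx
    rw [mem_Icc, not_and_or, not_le, not_le] at hx
    rcases hx with hx | hx
    · have : chi =ᶠ[𝓝 x] fun _ => (1:ℝ) := by
        filter_upwards [Iio_mem_nhds hx] with y hy
        exact chi_one (le_of_lt hy)
      rw [this.deriv_eq, deriv_const]
    · have : chi =ᶠ[𝓝 x] fun _ => (0:ℝ) := by
        filter_upwards [Ioi_mem_nhds hx] with y hy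
        exact chi_zero (le_of_lt hy)
      rw [this.deriv_eq, deriv_const]
  obtain ⟨K, hK⟩ := hcs.exists_bound_of_continuous hd
  have hK0 : 0 ≤ K := (norm_nonneg _).trans (hK 0)
  refine ⟨K, hK0, fun a b => ?_⟩
  have h := Convex.norm_image_sub_le_of_norm_deriv_le (f := chi) (s := univ) (x := b) (y := a) (C := K)
    (fun x _ => (chi_contDiff.differentiable (by simp)).differentiableAt) (fun x _ => hK x) convex_univ
    (mem_univ _) (mem_univ _)
  simpa [Real.norm_eq_abs] using h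

/-- `u ^ (-ρ) χ(u / Λ)` -/
def Af (ρ : ℂ) (Λ u : ℝ) : ℂ := (u : ℂ) ^ (-ρ) * (chi (u / Λ) : ℂ)

/-- `v ^ (-ρ) (χ(v) - χ(v / 2))` -/
def gf (ρ : ℂ) (v : ℝ) : ℂ := (v : ℂ) ^ (-ρ) * ((chi v - chi (v / 2) : ℝ) : ℂ)

lemma gf_zero_low {ρ : ℂ} {v : ℝ} (h : v ≤ 1) : gf ρ v = 0 := by
  unfold gf
  rcases le_or_gt v 0 with hv | hv
  · rw [chi_one h, chi_one (by linarith)]; simp
  · rw [chi_one h, chi_one (by linarith)]; simp

lemma gf_zero_high {ρ : ℂ} {v : ℝ} (h : 4 ≤ v) : gf ρ v = 0 := by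
  unfold gf
  rw [chi_zero (by linarith), chi_zero (by linarith)]; simp

lemma gf_compact (ρ : ℂ) : HasCompactSupport (gf ρ) := by
  refine HasCompactSupport.intro (isCompact_Icc (a := (1:ℝ)) (b := 4)) ?_
  intro x hx
  rw [mem_Icc, not_and_or, not_le, not_le] at hx
  rcases hx with hx | hx
  · exact gf_zero_low hx.le
  · exact gf_zero_high hx.le

lemma gf_contDiff (ρ : ℂ) : ContDiff ℝ ∞ (gf ρ) := by
  rw [contDiff_iff_contDiffAt]
  intro v
  rcases lt_or_ge v 1 with hv | hv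
  · have : gf ρ =ᶠ[𝓝 v] fun _ => (0:ℂ) := by
      filter_upwards [Iio_mem_nhds hv] with y hy
      exact gf_zero_low (le_of_lt hy)
    exact contDiffAt_const.congr_of_eventuallyEq this
  · have hv0 : 0 < v := by linarith
    have h1 : ContDiffAt ℝ ∞ (fun v : ℝ => Complex.exp (-ρ * ((Real.log v : ℝ) : ℂ))) v := by
      have hlog : ContDiffAt ℝ ∞ Real.log v := Real.contDiffAt_log.mpr hv0.ne'
      have h2 : ContDiffAt ℝ ∞ (fun v : ℝ => ((Real.log v : ℝ) : ℂ)) v :=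
        Complex.ofRealCLM.contDiff.contDiffAt.comp v hlog
      exact (contDiffAt_const.mul h2).cexp
    have h3 : ContDiffAt ℝ ∞ (fun v : ℝ => ((chi v - chi (v / 2) : ℝ) : ℂ)) v := by
      have h4 : ContDiff ℝ ∞ (fun v : ℝ => chi v - chi (v / 2)) :=
        chi_contDiff.sub (chi_contDiff.comp (contDiff_id.div_const 2))
      exact Complex.ofRealCLM.contDiff.contDiffAt.comp v h4.contDiffAt
    refine (h1.mul h3).congr_of_eventuallyEq ?_
    filter_upwards [Ioi_mem_nhds hv0] with y hy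
    unfold gf
    have hy0 : (y:ℂ) ≠ 0 := by exact_mod_cast (ne_of_gt hy : y ≠ 0)
    rw [Complex.cpow_def_of_ne_zero hy0, Complex.ofReal_log (le_of_lt hy), mul_comm (Complex.log _)]

/-- the difference of two consecutive truncations is a dilate of `gf` -/
lemma Af_sub (ρ : ℂ) {Λ u : ℝ} (hΛ : 0 < Λ) (hu : 0 ≤ u) :
    Af ρ Λ u - Af ρ (2 * Λ) u = (Λ : ℂ) ^ (-ρ) * gf ρ (u / Λ) := by
  unfold Af gf
  have h1 : u / (2 * Λ) = u / Λ / 2 := by rw [div_div, mul_comm]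
  have h2 : (u : ℂ) ^ (-ρ) = (Λ : ℂ) ^ (-ρ) * ((u / Λ : ℝ) : ℂ) ^ (-ρ) := by
    rw [← Complex.mul_cpow_ofReal_nonneg hΛ.le (by positivity)]
    congr 1
    rw [← Complex.ofReal_mul]
    congr 1
    field_simp
  rw [h1, h2]
  push_cast
  ring

lemma norm_cpow_neg {ρ : ℂ} {u : ℝ} (hu : 0 < u) : ‖(u : ℂ) ^ (-ρ)‖ = u ^ (-ρ.re) := by
  rw [Complex.norm_cpow_eq_rpow_re_of_pos hu, Complex.neg_re]

/-- mean value bound for `u ^ (-ρ)` -/
lemma cpow_sub_bound {ρ : ℂ} (hρ : 0 ≤ ρ.re) {a : ℝ} (ha : 0 < a) :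
    ‖((a + 1 : ℝ) : ℂ) ^ (-ρ) - (a : ℂ) ^ (-ρ)‖ ≤ ‖ρ‖ * a ^ (-ρ.re - 1) := by
  have hd : ∀ x ∈ Icc a (a + 1), HasDerivWithinAt (fun u : ℝ => (u : ℂ) ^ (-ρ))
      (-ρ * (x : ℂ) ^ (-ρ - 1)) (Icc a (a + 1)) x := by
    intro x hx
    have hx0 : 0 < x := lt_of_lt_of_le ha hx.1
    by_cases h0 : ρ = 0
    · subst h0
      simp only [neg_zero, Complex.cpow_zero, zero_mul]
      exact hasDerivWithinAt_const _ _ _
    · exact (hasDerivAt_ofReal_cpow_const hx0.ne' (neg_ne_zero.mpr h0)).hasDerivWithinAt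
  have hb : ∀ x ∈ Icc a (a + 1), ‖-ρ * (x : ℂ) ^ (-ρ - 1)‖ ≤ ‖ρ‖ * a ^ (-ρ.re - 1) := by
    intro x hx
    have hx0 : 0 < x := lt_of_lt_of_le ha hx.1
    rw [norm_mul, norm_neg, Complex.norm_cpow_eq_rpow_re_of_pos hx0]
    have : (-ρ - 1).re = -ρ.re - 1 := by simp
    rw [this]
    exact mul_le_mul_of_nonneg_left (Real.rpow_le_rpow_of_nonpos ha hx.1 (by linarith)) (norm_nonneg _)
  have := (convex_Icc a (a + 1)).norm_image_sub_le_of_norm_hasDerivWithin_le hd hb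
    (left_mem_Icc.mpr (by linarith)) (right_mem_Icc.mpr (by linarith))
  simpa using this

/-- uniform bound for the differences -/
lemma Af_diff (ρ : ℂ) (hρ : 0 ≤ ρ.re) : ∃ C : ℝ, 0 ≤ C ∧ ∀ Λ : ℝ, 0 < Λ → ∀ a : ℝ, 0 < a →
    ‖Af ρ Λ a - Af ρ Λ (a + 1)‖ ≤ C * a ^ (-ρ.re - 1) := by
  obtain ⟨K, hK0, hK⟩ := chi_lip
  refine ⟨‖ρ‖ + 2 * K, by positivity, fun Λ hΛ a ha => ?_⟩
  have e : Af ρ Λ a - Af ρ Λ (a + 1) =
      -(((a + 1 : ℝ) : ℂ) ^ (-ρ) - (a : ℂ) ^ (-ρ)) * (chi (a / Λ) : ℂ) +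
      ((a + 1 : ℝ) : ℂ) ^ (-ρ) * ((chi (a / Λ) - chi ((a + 1) / Λ) : ℝ) : ℂ) := by
    unfold Af
    push_cast
    ring
  have h1 : ‖-(((a + 1 : ℝ) : ℂ) ^ (-ρ) - (a : ℂ) ^ (-ρ)) * (chi (a / Λ) : ℂ)‖ ≤ ‖ρ‖ * a ^ (-ρ.re - 1) := by
    rw [norm_mul, norm_neg, Complex.norm_real, Real.norm_of_nonneg (chi_nonneg _)]
    calc _ ≤ (‖ρ‖ * a ^ (-ρ.re - 1)) * 1 :=
          mul_le_mul (cpow_sub_bound hρ ha) (chi_le_one _) (chi_nonneg _) (by positivity)
      _ = _ := mul_one _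
  have h2 : ‖((a + 1 : ℝ) : ℂ) ^ (-ρ) * ((chi (a / Λ) - chi ((a + 1) / Λ) : ℝ) : ℂ)‖ ≤
      2 * K * a ^ (-ρ.re - 1) := by
    rw [norm_mul, norm_cpow_neg (by linarith), Complex.norm_real, Real.norm_eq_abs]
    rcases le_or_gt (2 * Λ) a with h | h
    · rw [chi_zero (by rw [le_div_iff₀ hΛ]; exact h), chi_zero (by rw [le_div_iff₀ hΛ]; linarith)]
      simp only [sub_zero, abs_zero, mul_zero]
      positivity
    · have h3 := hK (a / Λ) ((a + 1) / Λ)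
      have h4 : |a / Λ - (a + 1) / Λ| = 1 / Λ := by
        rw [← sub_div, abs_div, abs_of_pos hΛ]
        congr 1
        rw [show a - (a + 1) = -1 by ring]; simp
      rw [h4] at h3
      have h5 : 1 / Λ ≤ 2 / a := by
        rw [div_le_div_iff₀ hΛ ha]; linarith
      have h6 : (a + 1) ^ (-ρ.re) ≤ a ^ (-ρ.re) :=
        Real.rpow_le_rpow_of_nonpos ha (by linarith) (by linarith)
      calc (a + 1) ^ (-ρ.re) * |chi (a / Λ) - chi ((a + 1) / Λ)| ≤ a ^ (-ρ.re) * (K * (2 / a)) := by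
            gcongr
            exact h3.trans (by gcongr)
        _ = 2 * K * a ^ (-ρ.re - 1) := by
            rw [Real.rpow_sub_one ha.ne']
            ring
  rw [e]
  calc _ ≤ _ := norm_add_le _ _
    _ ≤ ‖ρ‖ * a ^ (-ρ.re - 1) + 2 * K * a ^ (-ρ.re - 1) := add_le_add h1 h2
    _ = _ := by ring

end

end Pool.Agent.K3h56.BN
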