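import Pool.Agent.K3h56.BN.Mu

/-! The upper bound for the discrete norm in a zero-free half-plane. -/

set_option autoImplicit false

open MeasureTheory Filter Topology Set
open Pool.Agent.H295R2 (mu abs_mu_le Zs)

namespace Pool.Agent.K3h56.BN

noncomputable section

lemma exp_small {v : ℝ} (h0 : 0 ≤ v) (h1 : v ≤ 1 / 2) : Real.exp v ≤ 1 + 2 * v := by
  have h2 := Real.add_one_le_exp (-v)
  have h3 : Real.exp (-v) * Real.exp v = 1 := by rw [← Real.exp_add]; simp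
  have h4 := Real.exp_pos v
  nlinarith

lemma floor_y {j m : ℕ} (hm : 1 ≤ m) {y : ℝ} (h1 : (j:ℝ) ≤ y) (h2 : y < (j:ℝ) + 1) :
    Int.fract (y / m) = y / m - ((j / m : ℕ) : ℝ) := by
  have hm0 : (0:ℝ) < m := by exact_mod_cast hm
  have e := Nat.div_add_mod j m
  have e2 := Nat.mod_lt j hm
  have a3 : m * (j / m) ≤ j := by omega
  have a4 : j + 1 ≤ m * (j / m) + m := by omega
  generalize j / m = q at a3 a4 ⊢
  have h3 : (m:ℝ) * (q : ℝ) ≤ j := by exact_mod_cast a3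
  have h4 : (j:ℝ) + 1 ≤ (m:ℝ) * (q : ℝ) + m := by exact_mod_cast a4
  have hfl : ⌊y / m⌋ = (q : ℤ) := by
    rw [Int.floor_eq_iff]
    constructor
    · rw [le_div_iff₀ hm0]
      push_cast
      nlinarith
    · rw [div_lt_iff₀ hm0]
      push_cast
      nlinarith
  unfold Int.fract
  rw [hfl]
  simp

/-- the averaged kernel at `x - log m` -/
lemma avg2_kf {n j m : ℕ} (hn : 1 ≤ n) (hj : n ≤ j) (hm : 1 ≤ m) {η : ℝ} (hη : η = 1 / (16 * ((j:ℝ) + 1))) :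
    H295R2.avg η (H295R2.avg η (kf (Real.log (((j:ℝ) + 3 / 4) / ((n:ℝ) + 1 / 2)))))
      (Real.log ((j:ℝ) + 3 / 4) - Real.log m) =
    (((if m ≤ n then ((j:ℝ) + 3 / 4) / m * ((Real.exp η - 1) / η) ^ 2 - ((j / m : ℕ) : ℝ) else 0 : ℝ)) : ℂ) := by
  have hj1 : (1:ℝ) ≤ j := by exact_mod_cast (hn.trans hj)
  have hn1 : (1:ℝ) ≤ n := by exact_mod_cast hn
  have hnj : (n:ℝ) ≤ j := by exact_mod_cast hj
  have hm0 : (0:ℝ) < m := by exact_mod_cast hm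
  have hη0 : 0 < η := by rw [hη]; positivity
  have hηJ : η * (16 * ((j:ℝ) + 1)) = 1 := by rw [hη]; field_simp
  have hη1 : η ≤ 1 / 32 := by
    rw [hη, div_le_div_iff₀ (by positivity) (by norm_num)]; linarith
  have hlogT : Real.log (((j:ℝ) + 3 / 4) / ((n:ℝ) + 1 / 2)) =
      Real.log ((j:ℝ) + 3 / 4) - Real.log ((n:ℝ) + 1 / 2) :=
    Real.log_div (by positivity) (by positivity)
  have hexpu : Real.exp (Real.log ((j:ℝ) + 3 / 4) - Real.log m) = ((j:ℝ) + 3 / 4) / m := by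
    rw [Real.exp_sub, Real.exp_log (by positivity), Real.exp_log hm0]
  have hv : ∀ v : ℝ, 0 ≤ v → v ≤ 2 * η → 1 ≤ Real.exp v ∧ Real.exp v ≤ 1 + 4 * η := by
    intro v h0 h1
    exact ⟨Real.one_le_exp h0, (exp_small h0 (by linarith)).trans (by linarith)⟩
  by_cases hmn : m ≤ n
  · rw [if_pos hmn]
    have hmn' : (m:ℝ) ≤ n := by exact_mod_cast hmn
    rw [avg2_exp hη0 (D := ((j / m : ℕ) : ℝ)), hexpu]
    intro v h0 h1
    obtain ⟨v1, v2⟩ := hv v h0 h1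
    unfold kf
    have hcond : Real.log (((j:ℝ) + 3 / 4) / ((n:ℝ) + 1 / 2)) ≤
        Real.log ((j:ℝ) + 3 / 4) - Real.log m + v := by
      rw [hlogT]
      have := Real.log_le_log hm0 (by linarith : (m:ℝ) ≤ (n:ℝ) + 1 / 2)
      linarith
    rw [if_pos hcond]
    congr 1
    have e1 : Real.exp (Real.log ((j:ℝ) + 3 / 4) - Real.log m + v) =
        (((j:ℝ) + 3 / 4) * Real.exp v) / m := by
      rw [Real.exp_add, hexpu]; ring
    rw [e1]
    apply floor_y hm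
    · nlinarith
    · nlinarith
  · rw [if_neg hmn]
    push Not at hmn
    have hmn' : (n:ℝ) + 1 ≤ m := by exact_mod_cast hmn
    rw [avg2_zero hη0]
    · simp
    · intro v h0 h1
      obtain ⟨v1, v2⟩ := hv v h0 h1
      unfold kf
      rw [if_neg]
      rw [not_le, hlogT]
      have h3 : v + Real.log ((n:ℝ) + 1 / 2) < Real.log m := by
        have h4 : v + Real.log ((n:ℝ) + 1 / 2) = Real.log (Real.exp v * ((n:ℝ) + 1 / 2)) := by
          rw [Real.log_mul (Real.exp_pos v).ne' (by positivity), Real.log_exp]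
        rw [h4]
        apply Real.log_lt_log (by positivity)
        have h5 : η * ((n:ℝ) + 1 / 2) ≤ 1 / 16 := by
          nlinarith
        nlinarith
      linarith

lemma phi_bounds {η : ℝ} (h0 : 0 < η) (h1 : η ≤ 1 / 32) :
    1 ≤ ((Real.exp η - 1) / η) ^ 2 ∧ ((Real.exp η - 1) / η) ^ 2 ≤ 1 + 3 * η := by
  have a1 : 1 ≤ (Real.exp η - 1) / η := by
    rw [le_div_iff₀ h0]
    linarith [Real.add_one_le_exp η]
  have a2 : (Real.exp η - 1) / η ≤ 1 + 32 / 31 * η := by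
    rw [div_le_iff₀ h0]
    have h2 := Real.add_one_le_exp (-η)
    have h3 : Real.exp (-η) * Real.exp η = 1 := by rw [← Real.exp_add]; simp
    have h4 := Real.exp_pos η
    have h5 : (1 - η) * Real.exp η ≤ 1 := by nlinarith
    have h6 : 0 < 1 - η := by linarith
    have h7 : Real.exp η ≤ 1 / (1 - η) := by rw [le_div_iff₀ h6]; linarith
    have h8 : 1 / (1 - η) ≤ 1 + (1 + 32 / 31 * η) * η := by
      rw [div_le_iff₀ h6]
      nlinarith [sq_nonneg η, mul_pos h0 h0, mul_nonneg (mul_pos h0 h0).le (by linarith : 0 ≤ 1 / 32 - η)]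
    linarith
  constructor
  · nlinarith
  · nlinarith

/-- the exact relation between `E(j)` and the averaged sum -/
lemma Er_tsum {n j : ℕ} (hn : 1 ≤ n) (hj : n ≤ j) {η : ℝ} (hη : η = 1 / (16 * ((j:ℝ) + 1))) :
    |Er n cmu j| ≤ 3 + ‖∑' m : ℕ, (ArithmeticFunction.moebius m : ℂ) *
      H295R2.avg η (H295R2.avg η (kf (Real.log (((j:ℝ) + 3 / 4) / ((n:ℝ) + 1 / 2)))))
      (Real.log ((j:ℝ) + 3 / 4) - Real.log m)‖ := by
  have hj1 : (1:ℝ) ≤ j := by exact_mod_cast (hn.trans hj)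
  have hη0 : 0 < η := by rw [hη]; positivity
  have hηJ : η * (16 * ((j:ℝ) + 1)) = 1 := by rw [hη]; field_simp
  have hη1 : η ≤ 1 / 32 := by
    rw [hη, div_le_div_iff₀ (by positivity) (by norm_num)]; linarith
  obtain ⟨p1, p2⟩ := phi_bounds hη0 hη1
  set φ2 := ((Real.exp η - 1) / η) ^ 2 with hφ2
  have hts : ∑' m : ℕ, (ArithmeticFunction.moebius m : ℂ) *
      H295R2.avg η (H295R2.avg η (kf (Real.log (((j:ℝ) + 3 / 4) / ((n:ℝ) + 1 / 2)))))
      (Real.log ((j:ℝ) + 3 / 4) - Real.log m) =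
      ((((j:ℝ) + 3 / 4) * φ2 * mn n - ∑ k ∈ Finset.Icc 1 n, mu k * ((j / k : ℕ) : ℝ) : ℝ) : ℂ) := by
    rw [tsum_eq_sum (s := Finset.Icc 1 n)]
    · unfold mn
      rw [Finset.mul_sum, ← Finset.sum_sub_distrib, Complex.ofReal_sum]
      refine Finset.sum_congr rfl fun m hm => ?_
      rw [Finset.mem_Icc] at hm
      rw [avg2_kf hn hj hm.1 hη, if_pos hm.2]
      unfold mu
      push_cast
      rw [hφ2]
      push_cast
      ring
    · intro m hm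
      rcases Nat.eq_zero_or_pos m with rfl | hm0
      · simp
      · have hmn : ¬ m ≤ n := fun h => hm (Finset.mem_Icc.mpr ⟨hm0, h⟩)
        rw [avg2_kf hn hj hm0 hη, if_neg hmn]
        simp
  rw [hts, Complex.norm_real, Real.norm_eq_abs, Er_cmu hn]
  set F := ∑ k ∈ Finset.Icc 1 n, mu k * ((j / k : ℕ) : ℝ) with hF
  have hm := mn_abs_le hn
  have e : 1 + j * mn n - F = 1 + (((j:ℝ) + 3 / 4) * φ2 * mn n - F) + ((j:ℝ) - ((j:ℝ) + 3 / 4) * φ2) * mn n := by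
    ring
  rw [e]
  have hd : |((j:ℝ) - ((j:ℝ) + 3 / 4) * φ2) * mn n| ≤ 2 := by
    rw [abs_mul]
    have h1 : |(j:ℝ) - ((j:ℝ) + 3 / 4) * φ2| ≤ 2 := by
      rw [abs_le]
      constructor <;> nlinarith
    nlinarith [abs_nonneg (mn n), abs_nonneg ((j:ℝ) - ((j:ℝ) + 3 / 4) * φ2)]
  calc |1 + (((j:ℝ) + 3 / 4) * φ2 * mn n - F) + ((j:ℝ) - ((j:ℝ) + 3 / 4) * φ2) * mn n|
      ≤ |1 + (((j:ℝ) + 3 / 4) * φ2 * mn n - F)| + |((j:ℝ) - ((j:ℝ) + 3 / 4) * φ2) * mn n| := abs_add_le _ _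
    _ ≤ (|(1:ℝ)| + |((j:ℝ) + 3 / 4) * φ2 * mn n - F|) + 2 := add_le_add (abs_add_le _ _) hd
    _ = 3 + |((j:ℝ) + 3 / 4) * φ2 * mn n - F| := by rw [abs_one]; ring

/-- **pointwise bound** for `j ≥ n` -/
theorem Er_bound {θ σ ε : ℝ} (hθ : 1 / 2 ≤ θ) (hz : ∀ s : ℂ, θ < s.re → Zs s ≠ 0) (hσ : θ < σ)
    (hσ1 : σ ≤ 1) (hε : 0 < ε) (hε1 : ε ≤ 1 / 4) :
    ∃ C : ℝ, 0 < C ∧ ∀ n j : ℕ, 1 ≤ n → n ≤ j →
      |Er n cmu j| ≤ C * ((j:ℝ) + 1) ^ (1 / 2 + 3 * ε) * (n:ℝ) ^ (σ - 1 / 2) := by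
  have hs : 0 < 2 * σ - 1 := by linarith
  have hB : 0 < 32 / (2 * σ - 1) := by positivity
  have hB1 : 1 ≤ 32 / (2 * σ - 1) := by rw [le_div_iff₀ hs]; linarith
  obtain ⟨C, hC0, hC⟩ := H295R2.T5 (B := 32 / (2 * σ - 1)) (by linarith : (1:ℝ) / 4 ≤ θ) hz hσ (by linarith)
    hε hε1 hB
  refine ⟨16 * C + 3, by positivity, fun n j hn hj => ?_⟩
  have hj1 : (1:ℝ) ≤ j := by exact_mod_cast (hn.trans hj)
  have hn1 : (1:ℝ) ≤ n := by exact_mod_cast hn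
  have hn0 : (0:ℝ) < n := by linarith
  have hnj : (n:ℝ) ≤ j := by exact_mod_cast hj
  set T : ℝ := ((j:ℝ) + 3 / 4) / ((n:ℝ) + 1 / 2) with hT
  set η : ℝ := 1 / (16 * ((j:ℝ) + 1)) with hη
  have hη0 : 0 < η := by rw [hη]; positivity
  have hT1 : 1 ≤ T := by
    rw [hT, le_div_iff₀ (by positivity)]; linarith
  have hT0 : 0 < T := by linarith
  have hTj : T ≤ (j:ℝ) + 1 := by
    rw [hT, div_le_iff₀ (by positivity)]; nlinarith
  have hηT : η * T ≤ 1 := by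
    rw [hη, div_mul_eq_mul_div, one_mul, div_le_one (by positivity)]; linarith
  have key := hC (kf (Real.log T)) T hT1 (kf_nice hB1) (fun h h0 h1 => by
    have := kf_modulus (a := Real.log T) (by linarith : 1 / 2 < σ) hσ1 h0 h1
    rw [Real.rpow_def_of_pos hT0, mul_comm (Real.log T)]
    exact this) η (Real.log ((j:ℝ) + 3 / 4)) hη0 hηT
  have h1 := Er_tsum hn hj hη
  set J : ℝ := (j:ℝ) + 1 with hJ
  have hJ1 : 1 ≤ J := by rw [hJ]; linarith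
  have hJ0 : 0 < J := by linarith
  have b1 : Real.exp (σ * Real.log ((j:ℝ) + 3 / 4)) ≤ J ^ σ := by
    rw [mul_comm, ← Real.rpow_def_of_pos (by positivity)]
    exact Real.rpow_le_rpow (by positivity) (by rw [hJ]; linarith) (by linarith)
  have b2 : η ^ (-(3 * ε)) ≤ 8 * J ^ (3 * ε) := by
    rw [Real.rpow_neg hη0.le, ← Real.inv_rpow hη0.le, hη, one_div, inv_inv,
      Real.mul_rpow (by norm_num) hJ0.le]
    gcongr
    calc (16:ℝ) ^ (3 * ε) ≤ 16 ^ ((3:ℝ) / 4) := Real.rpow_le_rpow_of_exponent_le (by norm_num) (by linarith)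
      _ = 8 := by
        rw [show (16:ℝ) = 2 ^ (4:ℝ) by norm_num, ← Real.rpow_mul (by norm_num)]
        norm_num
  have b3 : T ^ (1 / 2 - σ) ≤ 2 * ((n:ℝ) ^ (σ - 1 / 2) * J ^ (1 / 2 - σ)) := by
    have h3 : J / (2 * n) ≤ T := by
      rw [hT, div_le_div_iff₀ (by positivity) (by positivity), hJ]
      nlinarith
    calc T ^ (1 / 2 - σ) ≤ (J / (2 * n)) ^ (1 / 2 - σ) :=
          Real.rpow_le_rpow_of_nonpos (by positivity) h3 (by linarith)
      _ = (2:ℝ) ^ (σ - 1 / 2) * ((n:ℝ) ^ (σ - 1 / 2) * J ^ (1 / 2 - σ)) := by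
          rw [Real.div_rpow hJ0.le (by positivity), Real.mul_rpow (by norm_num) hn0.le,
            show 1 / 2 - σ = -(σ - 1 / 2) by ring, Real.rpow_neg (by norm_num : (0:ℝ) ≤ 2),
            Real.rpow_neg hn0.le]
          field_simp
      _ ≤ 2 * ((n:ℝ) ^ (σ - 1 / 2) * J ^ (1 / 2 - σ)) := by
          gcongr
          calc (2:ℝ) ^ (σ - 1 / 2) ≤ 2 ^ (1:ℝ) := Real.rpow_le_rpow_of_exponent_le (by norm_num) (by linarith)
            _ = 2 := by norm_num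
  have b4 : J ^ σ * J ^ (3 * ε) * J ^ (1 / 2 - σ) = J ^ (1 / 2 + 3 * ε) := by
    rw [← Real.rpow_add hJ0, ← Real.rpow_add hJ0]; congr 1; ring
  have b5 : 1 ≤ J ^ (1 / 2 + 3 * ε) * (n:ℝ) ^ (σ - 1 / 2) :=
    one_le_mul_of_one_le_of_one_le (Real.one_le_rpow hJ1 (by positivity)) (Real.one_le_rpow hn1 (by linarith))
  calc |Er n cmu j| ≤ 3 + C * Real.exp (σ * Real.log ((j:ℝ) + 3 / 4)) * η ^ (-(3 * ε)) * T ^ (1 / 2 - σ) :=
        h1.trans (by linarith [key])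
    _ ≤ 3 + C * J ^ σ * (8 * J ^ (3 * ε)) * (2 * ((n:ℝ) ^ (σ - 1 / 2) * J ^ (1 / 2 - σ))) := by gcongr
    _ = 3 + 16 * C * ((J ^ σ * J ^ (3 * ε) * J ^ (1 / 2 - σ)) * (n:ℝ) ^ (σ - 1 / 2)) := by ring
    _ = 3 + 16 * C * (J ^ (1 / 2 + 3 * ε) * (n:ℝ) ^ (σ - 1 / 2)) := by rw [b4]
    _ ≤ (16 * C + 3) * J ^ (1 / 2 + 3 * ε) * (n:ℝ) ^ (σ - 1 / 2) := by linarith

end

end Pool.Agent.K3h56.BN
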