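import Pool.Agent.K3h56.BN.Coef
import Pool.Agent.K3h56.BN.Up

/-! The integral over `(0,1)` equals the discrete sum. -/

set_option autoImplicit false

open MeasureTheory Filter Topology Set

namespace Pool.Agent.K3h56.BN

noncomputable section

/-- the generator `{1/(kx)} - {1/x}/k` -/
def gen (k : ℕ) (x : ℝ) : ℝ := Int.fract (1 / (k * x)) - Int.fract (1 / x) / k

lemma gen_eq {k : ℕ} (hk : 0 < k) {x : ℝ} {j : ℕ} (h1 : (j:ℝ) ≤ 1 / x) (h2 : 1 / x < (j:ℝ) + 1) :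
    gen k x = Int.fract ((j:ℝ) / k) := by
  unfold gen
  have e1 : 1 / ((k:ℝ) * x) = (1 / x) / k := by rw [div_div, mul_comm]
  have e2 := floor_y (m := 1) le_rfl h1 h2
  rw [Nat.cast_one, div_one, Nat.div_one] at e2
  rw [e1, floor_y hk h1 h2, e2, fr_nat hk]
  ring

lemma integrand_eq {n : ℕ} {c : ℕ → ℝ} {x : ℝ} {j : ℕ} (h1 : (j:ℝ) ≤ 1 / x) (h2 : 1 / x < (j:ℝ) + 1) :
    1 - ∑ k ∈ Finset.Icc 2 n, c k * gen k x = Er n c j := by
  unfold Er
  congr 1
  refine Finset.sum_congr rfl fun k hk => ?_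
  rw [Finset.mem_Icc] at hk
  rw [gen_eq (by omega) h1 h2]

/-- the pieces -/
def piece (j : ℕ) : Set ℝ := Ioc (1 / ((j:ℝ) + 2)) (1 / ((j:ℝ) + 1))

lemma mem_piece {j : ℕ} {x : ℝ} : x ∈ piece j ↔ 0 < x ∧ ((j:ℝ) + 1 ≤ 1 / x ∧ 1 / x < (j:ℝ) + 2) := by
  unfold piece
  rw [mem_Ioc]
  constructor
  · rintro ⟨h1, h2⟩
    have hx : 0 < x := lt_trans (by positivity) h1
    refine ⟨hx, ?_, ?_⟩
    · rw [le_div_iff₀ hx]
      rw [le_div_iff₀ (by positivity)] at h2
      linarith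
    · rw [div_lt_iff₀ hx]
      rw [div_lt_iff₀ (by positivity)] at h1
      linarith
  · rintro ⟨hx, h1, h2⟩
    rw [le_div_iff₀ hx] at h1
    rw [div_lt_iff₀ hx] at h2
    constructor
    · rw [div_lt_iff₀ (by positivity)]; linarith
    · rw [le_div_iff₀ (by positivity)]; linarith

lemma piece_union : (⋃ j, piece j) = Ioc (0:ℝ) 1 := by
  ext x
  rw [mem_iUnion, mem_Ioc]
  constructor
  · rintro ⟨j, hj⟩
    rw [mem_piece] at hj
    obtain ⟨hx, h1, _⟩ := hj
    refine ⟨hx, ?_⟩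
    rw [le_div_iff₀ hx] at h1
    nlinarith [Nat.cast_nonneg (α := ℝ) j]
  · rintro ⟨hx, hx1⟩
    have h1 : 1 ≤ 1 / x := by rw [le_div_iff₀ hx]; linarith
    have h2 : 1 ≤ ⌊1 / x⌋₊ := Nat.one_le_floor_iff _ |>.mpr h1
    refine ⟨⌊1 / x⌋₊ - 1, ?_⟩
    rw [mem_piece]
    have e : ((⌊1 / x⌋₊ - 1 : ℕ) : ℝ) = (⌊1 / x⌋₊ : ℝ) - 1 := by
      rw [Nat.cast_sub h2]; simp
    rw [e]
    have h3 := Nat.floor_le (by positivity : 0 ≤ 1 / x)
    have h4 := Nat.lt_floor_add_one (1 / x)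
    exact ⟨hx, by linarith, by linarith⟩

lemma piece_disj : Pairwise (Function.onFun Disjoint piece) := by
  intro i j hij
  rw [Function.onFun, Set.disjoint_left]
  intro x hi hj
  rw [mem_piece] at hi hj
  apply hij
  obtain ⟨_, a1, a2⟩ := hi
  obtain ⟨_, b1, b2⟩ := hj
  have h1 : (i:ℝ) < j + 1 := by linarith
  have h2 : (j:ℝ) < i + 1 := by linarith
  have h1' : i < j + 1 := by exact_mod_cast h1
  have h2' : j < i + 1 := by exact_mod_cast h2
  omega

/-- **The integral over `(0,1)` is the discrete sum.** -/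
theorem integral_eq {p : ℝ} (hp : 0 ≤ p) (n : ℕ) (c : ℕ → ℝ) :
    ∫ x in (0:ℝ)..1, |1 - ∑ k ∈ Finset.Icc 2 n, c k * gen k x| ^ p = Dp p n c := by
  set H : ℝ → ℝ := fun x => |Er n c ⌊1 / x⌋₊| ^ p with hH
  set B : ℝ := 1 + ∑ k ∈ Finset.Icc 2 n, |c k| with hB
  have hHm : Measurable H := by
    have h1 : Measurable (fun j : ℕ => |Er n c j| ^ p) := measurable_from_top
    have h2 : Measurable (fun x : ℝ => ⌊1 / x⌋₊) := Nat.measurable_floor.comp (measurable_const.div measurable_id)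
    exact h1.comp h2
  have hHb : ∀ x, ‖H x‖ ≤ B ^ p := by
    intro x
    rw [Real.norm_of_nonneg (by simp only [hH]; positivity)]
    exact Real.rpow_le_rpow (abs_nonneg _) (Er_abs_le n c _) hp
  have hHint : IntegrableOn H (Ioc 0 1) :=
    Measure.integrableOn_of_bounded (by simp) hHm.aestronglyMeasurable (Eventually.of_forall hHb)
  have e1 : ∫ x in (0:ℝ)..1, |1 - ∑ k ∈ Finset.Icc 2 n, c k * gen k x| ^ p = ∫ x in Ioc (0:ℝ) 1, H x := by
    rw [intervalIntegral.integral_of_le zero_le_one]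
    refine setIntegral_congr_fun measurableSet_Ioc fun x hx => ?_
    simp only [hH]
    have hx0 : 0 < x := hx.1
    rw [integrand_eq (j := ⌊1 / x⌋₊) (Nat.floor_le (by positivity)) (Nat.lt_floor_add_one _)]
  rw [e1, ← piece_union]
  rw [← piece_union] at hHint
  have hpm : ∀ j, MeasurableSet (piece j) := fun j => measurableSet_Ioc
  have hs := hasSum_integral_iUnion hpm piece_disj hHint
  rw [← hs.tsum_eq]
  unfold Dp
  refine tsum_congr fun j => ?_
  have h1 : ∫ x in piece j, H x = ∫ x in piece j, |Er n c (j + 1)| ^ p := by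
    refine setIntegral_congr_fun measurableSet_Ioc fun x hx => ?_
    simp only [hH]
    have hx' := mem_piece.mp hx
    have : ⌊1 / x⌋₊ = j + 1 := by
      rw [Nat.floor_eq_iff (by have := hx'.1; positivity)]
      push_cast
      exact ⟨hx'.2.1, by linarith [hx'.2.2]⟩
    rw [this]
  rw [h1, setIntegral_const, smul_eq_mul]
  have h2 : volume.real (piece j) = 1 / ((j:ℝ) + 1) - 1 / ((j:ℝ) + 2) := by
    unfold piece
    rw [Real.volume_real_Ioc_of_le]
    apply one_div_le_one_div_of_le (by positivity) (by linarith)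
  rw [h2]
  have h3 : 1 / ((j:ℝ) + 1) - 1 / ((j:ℝ) + 2) = 1 / (((j:ℝ) + 1) * ((j:ℝ) + 2)) := by
    field_simp
    ring
  rw [h3]
  ring

lemma Dp_zero {p : ℝ} (hp : 0 ≤ p) (n : ℕ) : Dp p n (fun _ => 0) = 1 := by
  rw [← integral_eq hp]
  simp

end

end Pool.Agent.K3h56.BN
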