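import Pool.Agent.K3h56.BN.Up

/-! The upper bound for the discrete norm in a zero-free half-plane: summation. -/

set_option autoImplicit false

open MeasureTheory Filter Topology Set
open Pool.Agent.H295R2 (mu abs_mu_le Zs)

namespace Pool.Agent.K3h56.BN

noncomputable section

/-- **The upper bound for the discrete norm.** -/
theorem disc_upper {θ p δ : ℝ} (hθ : 1 / 2 ≤ θ) (hz : ∀ s : ℂ, θ < s.re → Zs s ≠ 0) (hp : 1 ≤ p)
    (hpθ : p * θ < 1) (hδ : 0 < δ) :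
    ∃ K : ℝ, 0 < K ∧ ∀ n : ℕ, 1 ≤ n → Dp p n cmu ≤ K * (n:ℝ) ^ (p * θ - 1 + δ) := by
  have hp0 : 0 < p := by linarith
  have hp2 : p < 2 := by nlinarith
  have hθ1 : θ < 1 := by nlinarith
  set d0 : ℝ := 1 - p / 2 with hd0
  have hd0' : 0 < d0 := by rw [hd0]; linarith
  set δ1 : ℝ := min (δ / 6) (1 - θ) with hδ1
  have hδ10 : 0 < δ1 := lt_min (by linarith) (by linarith)
  have hδ1a : δ1 ≤ δ / 6 := min_le_left _ _
  have hδ1b : δ1 ≤ 1 - θ := min_le_right _ _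
  set ε : ℝ := min (δ / 18) (min (1 / 4) (d0 / 12)) with hε
  have hε0 : 0 < ε := lt_min (by linarith) (lt_min (by norm_num) (by linarith))
  have hεa : ε ≤ δ / 18 := min_le_left _ _
  have hεb : ε ≤ 1 / 4 := (min_le_right _ _).trans (min_le_left _ _)
  have hεc : ε ≤ d0 / 12 := (min_le_right _ _).trans (min_le_right _ _)
  set ε' : ℝ := min (δ / 3) (d0 / 2) with hε'
  have hε'0 : 0 < ε' := lt_min (by linarith) (by linarith)
  have hε'a : ε' ≤ δ / 3 := min_le_left _ _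
  have hε'b : ε' ≤ d0 / 2 := min_le_right _ _
  set σ : ℝ := θ + δ1 with hσ
  obtain ⟨C, hC0, hC⟩ := Er_bound hθ hz (by rw [hσ]; linarith : θ < σ) (by rw [hσ]; linarith) hε0 hεb
  set e : ℝ := p * σ - 1 + 3 * p * ε + ε' with he
  have hee : e ≤ p * θ - 1 + δ := by
    rw [he, hσ]
    have h1 : p * δ1 ≤ 2 * (δ / 6) := mul_le_mul hp2.le hδ1a hδ10.le (by norm_num)
    have h2 : p * ε ≤ 2 * (δ / 18) := mul_le_mul hp2.le hεa hε0.le (by norm_num)
    nlinarith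
  have hp3 : 3 * p * ε ≤ d0 / 2 := by
    have h2 : p * ε ≤ 2 * (d0 / 12) := mul_le_mul hp2.le hεc hε0.le (by norm_num)
    linarith
  have hsum : Summable (fun j : ℕ => ((j:ℝ) + 1) ^ (-1 - ε')) := by
    have h1 : Summable (fun j : ℕ => (j:ℝ) ^ (-1 - ε')) := Real.summable_nat_rpow.mpr (by linarith)
    have h2 := (summable_nat_add_iff 1).mpr h1
    refine h2.congr fun j => ?_
    push_cast; rfl
  set S := ∑' j : ℕ, ((j:ℝ) + 1) ^ (-1 - ε') with hS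
  have hS0 : 0 ≤ S := tsum_nonneg fun j => by positivity
  refine ⟨(4 * C) ^ p * S + 1, by positivity, fun n hn => ?_⟩
  have hn1 : (1:ℝ) ≤ n := by exact_mod_cast hn
  have hn0 : (0:ℝ) < n := by linarith
  -- simplified pointwise bound
  have hpt : ∀ j : ℕ, n ≤ j → |Er n cmu j| ≤ 4 * C * (j:ℝ) ^ (1 / 2 + 3 * ε) * (n:ℝ) ^ (σ - 1 / 2) := by
    intro j hj
    have hj1 : (1:ℝ) ≤ j := by exact_mod_cast (hn.trans hj)
    have hj0 : (0:ℝ) < j := by linarith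
    refine (hC n j hn hj).trans ?_
    have h1 : ((j:ℝ) + 1) ^ (1 / 2 + 3 * ε) ≤ 4 * (j:ℝ) ^ (1 / 2 + 3 * ε) := by
      calc ((j:ℝ) + 1) ^ (1 / 2 + 3 * ε) ≤ (2 * (j:ℝ)) ^ (1 / 2 + 3 * ε) :=
            Real.rpow_le_rpow (by positivity) (by linarith) (by positivity)
        _ = 2 ^ (1 / 2 + 3 * ε) * (j:ℝ) ^ (1 / 2 + 3 * ε) := Real.mul_rpow (by norm_num) hj0.le
        _ ≤ 4 * (j:ℝ) ^ (1 / 2 + 3 * ε) := by
            gcongr
            calc (2:ℝ) ^ (1 / 2 + 3 * ε) ≤ 2 ^ (2:ℝ) := Real.rpow_le_rpow_of_exponent_le (by norm_num) (by linarith)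
              _ = 4 := by norm_num
    calc C * ((j:ℝ) + 1) ^ (1 / 2 + 3 * ε) * (n:ℝ) ^ (σ - 1 / 2)
        ≤ C * (4 * (j:ℝ) ^ (1 / 2 + 3 * ε)) * (n:ℝ) ^ (σ - 1 / 2) := by gcongr
      _ = _ := by ring
  have hmn : |mn n| ≤ 4 * C * (n:ℝ) ^ (σ - 1 + 3 * ε) := by
    have h1 := hpt n le_rfl
    rw [Er_cmu_small hn le_rfl, abs_mul, Nat.abs_cast] at h1
    have h2 : 4 * C * (n:ℝ) ^ (1 / 2 + 3 * ε) * (n:ℝ) ^ (σ - 1 / 2) =
        n * (4 * C * (n:ℝ) ^ (σ - 1 + 3 * ε)) := by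
      have h3 : (n:ℝ) ^ (1 / 2 + 3 * ε) * (n:ℝ) ^ (σ - 1 / 2) = n * (n:ℝ) ^ (σ - 1 + 3 * ε) := by
        rw [← Real.rpow_add hn0]
        conv_rhs => enter [1]; rw [← Real.rpow_one (n:ℝ)]
        rw [← Real.rpow_add hn0]
        congr 1; ring
      rw [mul_assoc, h3]; ring
    rw [h2] at h1
    exact le_of_mul_le_mul_left h1 hn0
  have hterm : ∀ j : ℕ, |Er n cmu (j + 1)| ^ p / (((j:ℝ) + 1) * ((j:ℝ) + 2)) ≤
      (4 * C) ^ p * (n:ℝ) ^ e * ((j:ℝ) + 1) ^ (-1 - ε') := by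
    intro j
    set a : ℝ := (j:ℝ) + 1 with ha
    have ha1 : 1 ≤ a := by rw [ha]; linarith [Nat.cast_nonneg (α := ℝ) j]
    have ha0 : 0 < a := by linarith
    have hcast : (((j + 1 : ℕ)) : ℝ) = a := by push_cast; rfl
    have hden : |Er n cmu (j + 1)| ^ p / (a * ((j:ℝ) + 2)) ≤ |Er n cmu (j + 1)| ^ p * a ^ (-(2:ℝ)) := by
      rw [div_le_iff₀ (by positivity), Real.rpow_neg ha0.le, show (2:ℝ) = ((2:ℕ):ℝ) by norm_num,
        Real.rpow_natCast]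
      have h1 : 1 ≤ (a ^ 2)⁻¹ * (a * ((j:ℝ) + ((2:ℕ):ℝ))) := by
        rw [← div_eq_inv_mul, one_le_div (by positivity)]
        push_cast
        nlinarith
      have h2 : 0 ≤ |Er n cmu (j + 1)| ^ p := by positivity
      calc |Er n cmu (j + 1)| ^ p = |Er n cmu (j + 1)| ^ p * 1 := by ring
        _ ≤ |Er n cmu (j + 1)| ^ p * ((a ^ 2)⁻¹ * (a * ((j:ℝ) + ((2:ℕ):ℝ)))) := by gcongr
        _ = _ := by ring
    refine hden.trans ?_
    rcases le_or_gt n (j + 1) with hj | hj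
    · have h1 := hpt (j + 1) hj
      rw [hcast] at h1
      have hna : (n:ℝ) ≤ a := by rw [← hcast]; exact_mod_cast hj
      have h2 : |Er n cmu (j + 1)| ^ p ≤ (4 * C) ^ p * a ^ (p / 2 + 3 * p * ε) * (n:ℝ) ^ (p * σ - p / 2) := by
        calc |Er n cmu (j + 1)| ^ p ≤ (4 * C * a ^ (1 / 2 + 3 * ε) * (n:ℝ) ^ (σ - 1 / 2)) ^ p :=
              Real.rpow_le_rpow (abs_nonneg _) h1 hp0.le
          _ = (4 * C) ^ p * (a ^ (1 / 2 + 3 * ε)) ^ p * ((n:ℝ) ^ (σ - 1 / 2)) ^ p := by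
              rw [Real.mul_rpow (by positivity) (by positivity), Real.mul_rpow (by positivity) (by positivity)]
          _ = _ := by
              rw [← Real.rpow_mul ha0.le, ← Real.rpow_mul hn0.le]
              congr 3
              · ring
              · ring
      have h3 : a ^ (-(d0 - 3 * p * ε - ε')) ≤ (n:ℝ) ^ (-(d0 - 3 * p * ε - ε')) :=
        Real.rpow_le_rpow_of_nonpos hn0 hna (by linarith)
      calc |Er n cmu (j + 1)| ^ p * a ^ (-(2:ℝ))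
          ≤ ((4 * C) ^ p * a ^ (p / 2 + 3 * p * ε) * (n:ℝ) ^ (p * σ - p / 2)) * a ^ (-(2:ℝ)) := by gcongr
        _ = (4 * C) ^ p * (n:ℝ) ^ (p * σ - p / 2) * (a ^ (p / 2 + 3 * p * ε) * a ^ (-(2:ℝ))) := by ring
        _ = (4 * C) ^ p * (n:ℝ) ^ (p * σ - p / 2) * (a ^ (-1 - ε') * a ^ (-(d0 - 3 * p * ε - ε'))) := by
            rw [← Real.rpow_add ha0, ← Real.rpow_add ha0]
            congr 2
            rw [hd0]; ring
        _ ≤ (4 * C) ^ p * (n:ℝ) ^ (p * σ - p / 2) * (a ^ (-1 - ε') * (n:ℝ) ^ (-(d0 - 3 * p * ε - ε'))) := by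
            gcongr
        _ = (4 * C) ^ p * ((n:ℝ) ^ (p * σ - p / 2) * (n:ℝ) ^ (-(d0 - 3 * p * ε - ε'))) * a ^ (-1 - ε') := by ring
        _ = _ := by
            rw [← Real.rpow_add hn0]
            congr 3
            rw [he, hd0]; ring
    · have hna : a ≤ n := by rw [← hcast]; exact_mod_cast hj.le
      have h1 : |Er n cmu (j + 1)| ≤ 4 * C * a * (n:ℝ) ^ (σ - 1 + 3 * ε) := by
        rw [Er_cmu_small (by omega) hj.le, abs_mul, Nat.abs_cast, hcast]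
        calc a * |mn n| ≤ a * (4 * C * (n:ℝ) ^ (σ - 1 + 3 * ε)) := by gcongr
          _ = _ := by ring
      have h2 : |Er n cmu (j + 1)| ^ p ≤ (4 * C) ^ p * a ^ p * (n:ℝ) ^ (p * σ - p + 3 * p * ε) := by
        calc |Er n cmu (j + 1)| ^ p ≤ (4 * C * a * (n:ℝ) ^ (σ - 1 + 3 * ε)) ^ p :=
              Real.rpow_le_rpow (abs_nonneg _) h1 hp0.le
          _ = (4 * C) ^ p * a ^ p * ((n:ℝ) ^ (σ - 1 + 3 * ε)) ^ p := by
              rw [Real.mul_rpow (by positivity) (by positivity), Real.mul_rpow (by positivity) ha0.le]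
          _ = _ := by
              rw [← Real.rpow_mul hn0.le]
              congr 2
              ring
      have h3 : a ^ (p - 1 + ε') ≤ (n:ℝ) ^ (p - 1 + ε') := Real.rpow_le_rpow ha0.le hna (by linarith)
      calc |Er n cmu (j + 1)| ^ p * a ^ (-(2:ℝ))
          ≤ ((4 * C) ^ p * a ^ p * (n:ℝ) ^ (p * σ - p + 3 * p * ε)) * a ^ (-(2:ℝ)) := by gcongr
        _ = (4 * C) ^ p * (n:ℝ) ^ (p * σ - p + 3 * p * ε) * (a ^ p * a ^ (-(2:ℝ))) := by ring
        _ = (4 * C) ^ p * (n:ℝ) ^ (p * σ - p + 3 * p * ε) * (a ^ (-1 - ε') * a ^ (p - 1 + ε')) := by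
            rw [← Real.rpow_add ha0, ← Real.rpow_add ha0]
            congr 2
            ring
        _ ≤ (4 * C) ^ p * (n:ℝ) ^ (p * σ - p + 3 * p * ε) * (a ^ (-1 - ε') * (n:ℝ) ^ (p - 1 + ε')) := by
            gcongr
        _ = (4 * C) ^ p * ((n:ℝ) ^ (p * σ - p + 3 * p * ε) * (n:ℝ) ^ (p - 1 + ε')) * a ^ (-1 - ε') := by ring
        _ = _ := by
            rw [← Real.rpow_add hn0]
            congr 3
            rw [he]; ring
  have hD : Dp p n cmu ≤ (4 * C) ^ p * (n:ℝ) ^ e * S := by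
    unfold Dp
    rw [hS, ← tsum_mul_left]
    exact (Dp_summable hp0.le n cmu).tsum_le_tsum hterm (hsum.mul_left _)
  have hnee : (n:ℝ) ^ e ≤ (n:ℝ) ^ (p * θ - 1 + δ) := Real.rpow_le_rpow_of_exponent_le hn1 hee
  calc Dp p n cmu ≤ (4 * C) ^ p * (n:ℝ) ^ e * S := hD
    _ ≤ (4 * C) ^ p * (n:ℝ) ^ (p * θ - 1 + δ) * S := by gcongr
    _ ≤ ((4 * C) ^ p * S + 1) * (n:ℝ) ^ (p * θ - 1 + δ) := by
        have : 0 ≤ (n:ℝ) ^ (p * θ - 1 + δ) := by positivity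
        nlinarith

end

end Pool.Agent.K3h56.BN
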