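import Pool.Agent.K3h56.BN.Low
import Pool.Agent.K3h56.BN.Up2
import Pool.Agent.K3h56.BN.Int
import Pool.Agent.H332R2.FL.ZeroExists

/-! The exact exponent of the distance. -/

set_option autoImplicit false

open MeasureTheory Filter Topology Set
open Pool.Agent.H295R2 (Zs)

namespace Pool.Agent.K3h56.BN

noncomputable section

/-- supremum of the real parts of the zeros of zeta -/
def Th : ℝ := sSup {σ : ℝ | ∃ s : ℂ, riemannZeta s = 0 ∧ s.re = σ}

lemma Th_bdd : BddAbove {σ : ℝ | ∃ s : ℂ, riemannZeta s = 0 ∧ s.re = σ} := by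
  refine ⟨1, ?_⟩
  rintro σ ⟨s, hs, rfl⟩
  by_contra h
  exact riemannZeta_ne_zero_of_one_le_re (not_le.1 h).le hs

lemma re_le_Th {s : ℂ} (h : riemannZeta s = 0) : s.re ≤ Th := le_csSup Th_bdd ⟨s, h, rfl⟩

lemma Th_free {s : ℂ} (h : Th < s.re) : Zs s ≠ 0 := by
  rcases le_or_gt 1 s.re with h1 | h1
  · exact H295R2.Zs_ne_zero_of_one_le h1
  · have hs : s ≠ 1 := by rintro rfl; simp at h1
    rw [← H295R2.Zs_eq hs]
    refine mul_ne_zero (sub_ne_zero.mpr hs) fun h0 => ?_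
    exact absurd (re_le_Th h0) (not_le.mpr h)

lemma Th_ge : 1 / 2 ≤ Th := by
  obtain ⟨ρ, r0, r1, -⟩ := H332.FL.exists_zero_re_ge_half 0
  exact r1.trans (re_le_Th r0)

lemma Th_le : Th ≤ 1 := by
  obtain ⟨ρ, r0, r1, -⟩ := H332.FL.exists_zero_re_ge_half 0
  refine csSup_le ⟨_, ρ, r0, rfl⟩ ?_
  rintro σ ⟨s, hs, rfl⟩
  by_contra h
  exact riemannZeta_ne_zero_of_one_le_re (not_le.1 h).le hs

/-- zeros with real part close to the supremum -/
lemma Th_zero {κ : ℝ} (hκ : 0 < κ) : ∃ ρ : ℂ, riemannZeta ρ = 0 ∧ 0 < ρ.re ∧ ρ.re < 1 ∧ Th - κ < ρ.re := by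
  have hne : {σ : ℝ | ∃ s : ℂ, riemannZeta s = 0 ∧ s.re = σ}.Nonempty := by
    obtain ⟨ρ, r0, r1, -⟩ := H332.FL.exists_zero_re_ge_half 0
    exact ⟨_, ρ, r0, rfl⟩
  have h1 := Th_ge
  obtain ⟨σ, ⟨s, h0, rfl⟩, h2⟩ := exists_lt_of_lt_csSup hne (show max (Th - κ) (Th - 1 / 4) < Th by
    apply max_lt <;> linarith)
  have h3 := (le_max_left (Th - κ) (Th - 1 / 4)).trans_lt h2
  have h4 := (le_max_right (Th - κ) (Th - 1 / 4)).trans_lt h2
  refine ⟨s, h0, by linarith, ?_, h3⟩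
  by_contra h
  exact riemannZeta_ne_zero_of_one_le_re (not_lt.1 h) h0

/-- the distance -/
def dst (p : ℝ) (n : ℕ) : ℝ :=
  ⨅ c : ℕ → ℝ, (∫ x in (0:ℝ)..1, |1 - ∑ k ∈ Finset.Icc 2 n, c k * gen k x| ^ p) ^ (1 / p)

lemma dst_eq {p : ℝ} (hp : 0 ≤ p) (n : ℕ) : dst p n = ⨅ c : ℕ → ℝ, (Dp p n c) ^ (1 / p) := by
  unfold dst
  simp_rw [integral_eq hp]

lemma dst_le {p : ℝ} (hp : 0 ≤ p) (n : ℕ) (c : ℕ → ℝ) : dst p n ≤ (Dp p n c) ^ (1 / p) := by
  rw [dst_eq hp]
  refine ciInf_le ⟨0, ?_⟩ c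
  rintro _ ⟨c, rfl⟩
  exact Real.rpow_nonneg (Dp_nonneg _ _ _) _

lemma le_dst {p : ℝ} (hp : 0 < p) (n : ℕ) {L : ℝ} (hL : 0 ≤ L) (h : ∀ c, L ^ p ≤ Dp p n c) : L ≤ dst p n := by
  rw [dst_eq hp.le]
  refine le_ciInf fun c => ?_
  calc L = (L ^ p) ^ (1 / p) := by
        rw [← Real.rpow_mul hL, mul_one_div_cancel hp.ne', Real.rpow_one]
    _ ≤ (Dp p n c) ^ (1 / p) := Real.rpow_le_rpow (by positivity) (h c) (by positivity)

lemma dst_le_one {p : ℝ} (hp : 0 ≤ p) (n : ℕ) : dst p n ≤ 1 := by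
  have := dst_le hp n (fun _ => 0)
  rw [Dp_zero hp, Real.one_rpow] at this
  exact this

lemma tendsto_rpow_nat {δ : ℝ} (hδ : 0 < δ) : Tendsto (fun n : ℕ => (n:ℝ) ^ δ) atTop atTop :=
  (tendsto_rpow_atTop hδ).comp tendsto_natCast_atTop_atTop

/-- lower bound with the exponent -/
theorem dst_lower {p : ℝ} (hp : 1 ≤ p) {δ : ℝ} (hδ : 0 < δ) :
    ∀ᶠ n : ℕ in atTop, (n:ℝ) ^ (-(max 0 (1 / p - Th)) - δ) ≤ dst p n := by
  have hp0 : 0 < p := by linarith
  obtain ⟨ρ, hz, hρ, hρ1, hρ2⟩ := Th_zero (κ := δ / 4) (by linarith)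
  set ε : ℝ := min 1 (δ / 12) with hε
  have hε0 : 0 < ε := lt_min one_pos (by linarith)
  have hεa : ε ≤ 1 := min_le_left _ _
  have hεb : ε ≤ δ / 12 := min_le_right _ _
  obtain ⟨K, hK, N0, hN⟩ := disc_lower hρ hρ1 hz hp hε0 hεa
  filter_upwards [eventually_ge_atTop N0, eventually_ge_atTop 1,
    (tendsto_rpow_nat (δ := p * (δ / 2)) (by positivity)).eventually_ge_atTop K] with n h1 h2 h3
  have hn1 : (1:ℝ) ≤ n := by exact_mod_cast h2
  have hn0 : (0:ℝ) < n := by linarith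
  refine le_dst hp0 n (by positivity) fun c => ?_
  have h4 := hN n h1 c
  have h5 : Dp p n c * K ≤ Dp p n c * (n:ℝ) ^ (p * (δ / 2)) :=
    mul_le_mul_of_nonneg_left h3 (Dp_nonneg _ _ _)
  have h6 : (n:ℝ) ^ (-(max 0 (1 - p * ρ.re) + 3 * ε)) ≤ Dp p n c * (n:ℝ) ^ (p * (δ / 2)) := by linarith
  have h7 : (n:ℝ) ^ (-(max 0 (1 - p * ρ.re) + 3 * ε)) * (n:ℝ) ^ (-(p * (δ / 2))) ≤ Dp p n c := by
    calc _ ≤ (Dp p n c * (n:ℝ) ^ (p * (δ / 2))) * (n:ℝ) ^ (-(p * (δ / 2))) := by gcongr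
      _ = Dp p n c * ((n:ℝ) ^ (p * (δ / 2)) * (n:ℝ) ^ (-(p * (δ / 2)))) := by ring
      _ = Dp p n c := by rw [← Real.rpow_add hn0]; simp
  refine le_trans ?_ h7
  rw [← Real.rpow_mul hn0.le, ← Real.rpow_add hn0]
  apply Real.rpow_le_rpow_of_exponent_le hn1
  have h8 : max 0 (1 - p * ρ.re) ≤ p * max 0 (1 / p - Th) + p * (δ / 4) := by
    apply max_le
    · have := le_max_left 0 (1 / p - Th)
      positivity
    · have h9 := le_max_right 0 (1 / p - Th)
      have h10 : p * (1 / p - Th) ≤ p * max 0 (1 / p - Th) := mul_le_mul_of_nonneg_left h9 hp0.le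
      have h11 : p * (1 / p - Th) = 1 - p * Th := by field_simp
      nlinarith
  have h12 : 3 * ε ≤ p * (δ / 4) := by nlinarith
  nlinarith

/-- upper bound with the exponent -/
theorem dst_upper {p : ℝ} (hp : 1 ≤ p) {δ : ℝ} (hδ : 0 < δ) :
    ∀ᶠ n : ℕ in atTop, dst p n ≤ (n:ℝ) ^ (-(max 0 (1 / p - Th)) + δ) := by
  have hp0 : 0 < p := by linarith
  rcases le_or_gt 1 (p * Th) with h | h
  · have hm : max 0 (1 / p - Th) = 0 := by
      apply max_eq_left
      have : 1 / p ≤ Th := by rw [div_le_iff₀ hp0]; linarith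
      linarith
    rw [hm]
    filter_upwards [eventually_ge_atTop 1] with n hn
    have hn1 : (1:ℝ) ≤ n := by exact_mod_cast hn
    exact (dst_le_one hp0.le n).trans (Real.one_le_rpow hn1 (by linarith))
  · have hm : max 0 (1 / p - Th) = 1 / p - Th := by
      apply max_eq_right
      have : Th ≤ 1 / p := by rw [le_div_iff₀ hp0]; linarith
      linarith
    rw [hm]
    obtain ⟨K, hK, hN⟩ := disc_upper (δ := p * (δ / 2)) Th_ge (fun s hs => Th_free hs) hp h (by positivity)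
    filter_upwards [eventually_ge_atTop 1,
      (tendsto_rpow_nat (δ := p * (δ / 2)) (by positivity)).eventually_ge_atTop K] with n h1 h2
    have hn1 : (1:ℝ) ≤ n := by exact_mod_cast h1
    have hn0 : (0:ℝ) < n := by linarith
    have h3 : Dp p n cmu ≤ (n:ℝ) ^ (p * (-(1 / p - Th) + δ)) := by
      calc Dp p n cmu ≤ K * (n:ℝ) ^ (p * Th - 1 + p * (δ / 2)) := hN n h1
        _ ≤ (n:ℝ) ^ (p * (δ / 2)) * (n:ℝ) ^ (p * Th - 1 + p * (δ / 2)) := by gcongr
        _ = (n:ℝ) ^ (p * (-(1 / p - Th) + δ)) := by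
            rw [← Real.rpow_add hn0]
            congr 1
            field_simp
            ring
    calc dst p n ≤ (Dp p n cmu) ^ (1 / p) := dst_le hp0.le n cmu
      _ ≤ ((n:ℝ) ^ (p * (-(1 / p - Th) + δ))) ^ (1 / p) :=
          Real.rpow_le_rpow (Dp_nonneg _ _ _) h3 (by positivity)
      _ = (n:ℝ) ^ (-(1 / p - Th) + δ) := by
          rw [← Real.rpow_mul hn0.le]
          congr 1
          field_simp

/-- **The exact exponent.** -/
theorem dst_limit {p : ℝ} (hp : 1 ≤ p) :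
    Tendsto (fun n : ℕ => Real.log (dst p n) / Real.log n) atTop (𝓝 (-(max 0 (1 / p - Th)))) := by
  rw [Metric.tendsto_atTop]
  intro δ hδ
  have h := (dst_lower hp (δ := δ / 2) (by linarith)).and ((dst_upper hp (δ := δ / 2) (by linarith)).and
    (eventually_ge_atTop 2))
  obtain ⟨N, hN⟩ := eventually_atTop.mp h
  refine ⟨N, fun n hn => ?_⟩
  obtain ⟨h1, h2, h3⟩ := hN n hn
  have hn1 : (1:ℝ) < n := by exact_mod_cast (by omega : 1 < n)
  have hn0 : (0:ℝ) < n := by linarith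
  have hl : 0 < Real.log n := Real.log_pos hn1
  have hd : 0 < dst p n := lt_of_lt_of_le (by positivity) h1
  have l1 := Real.log_le_log (by positivity) h1
  have l2 := Real.log_le_log hd h2
  rw [Real.log_rpow hn0] at l1 l2
  rw [Real.dist_eq, abs_lt]
  constructor
  · have : -(max 0 (1 / p - Th)) - δ / 2 ≤ Real.log (dst p n) / Real.log n := by
      rw [le_div_iff₀ hl]; exact l1
    linarith
  · have : Real.log (dst p n) / Real.log n ≤ -(max 0 (1 / p - Th)) + δ / 2 := by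
      rw [div_le_iff₀ hl]; exact l2
    linarith

/-- polynomial decay along a subsequence is equivalent to a zero-free half-plane -/
theorem dst_iff {p : ℝ} (hp : 1 ≤ p) :
    (∃ δ : ℝ, 0 < δ ∧ ∃ᶠ n : ℕ in atTop, dst p n ≤ (n:ℝ) ^ (-δ)) ↔
      ∃ σ₀ : ℝ, 1 / 2 < σ₀ ∧ σ₀ < 1 / p ∧ ∀ s : ℂ, σ₀ ≤ s.re → riemannZeta s ≠ 0 := by
  have hp0 : 0 < p := by linarith
  constructor
  · rintro ⟨δ, hδ, hfr⟩
    have hlt : Th < 1 / p := by
      by_contra hcon
      have hm : max 0 (1 / p - Th) = 0 := max_eq_left (by linarith)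
      have h1 := dst_lower hp (δ := δ / 2) (by linarith)
      rw [hm] at h1
      obtain ⟨n, h2, h3, h4⟩ := (hfr.and_eventually (h1.and (eventually_ge_atTop 2))).exists
      have hn1 : (1:ℝ) < n := by exact_mod_cast (by omega : 1 < n)
      have h5 := h3.trans h2
      rw [Real.rpow_le_rpow_left_iff hn1] at h5
      linarith
    refine ⟨(Th + 1 / p) / 2 , ?_, by linarith, fun s hs h0 => ?_⟩
    · have := Th_ge
      linarith
    · have := re_le_Th h0
      linarith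
  · rintro ⟨σ₀, h1, h2, h3⟩
    have hle : Th ≤ σ₀ := by
      obtain ⟨ρ, r0, r1, -⟩ := H332.FL.exists_zero_re_ge_half 0
      refine csSup_le ⟨_, ρ, r0, rfl⟩ ?_
      rintro σ ⟨s, hs, rfl⟩
      by_contra h
      exact h3 s (not_le.1 h).le hs
    have hm : 1 / p - σ₀ ≤ max 0 (1 / p - Th) := le_trans (by linarith) (le_max_right _ _)
    refine ⟨(1 / p - σ₀) / 2, by linarith, ?_⟩
    have h4 := dst_upper hp (δ := (1 / p - σ₀) / 2) (by linarith)
    refine (h4.and (eventually_ge_atTop 1)).frequently.mono ?_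
    rintro n ⟨h5, h6⟩
    have hn1 : (1:ℝ) ≤ n := by exact_mod_cast h6
    refine h5.trans (Real.rpow_le_rpow_of_exponent_le hn1 (by linarith))

lemma Th_le_of_free {θ : ℝ} (h : ∀ s : ℂ, θ < s.re → riemannZeta s ≠ 0) : Th ≤ θ := by
  obtain ⟨ρ, r0, r1, -⟩ := H332.FL.exists_zero_re_ge_half 0
  refine csSup_le ⟨_, ρ, r0, rfl⟩ ?_
  rintro σ ⟨s, hs, rfl⟩
  by_contra hc
  exact h s (not_le.1 hc) hs

/-- the half-plane `Re s > θ` -/
theorem dst_iff_theta {p θ : ℝ} (hp : 1 ≤ p) (hθ : θ < 1 / p) :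
    (∀ s : ℂ, θ < s.re → riemannZeta s ≠ 0) ↔
      ∀ ε : ℝ, 0 < ε → ∃ᶠ n : ℕ in atTop, dst p n ≤ (n:ℝ) ^ (θ - 1 / p + ε) := by
  constructor
  · intro h ε hε
    have h1 := Th_le_of_free h
    refine ((dst_upper hp hε).and (eventually_ge_atTop 1)).frequently.mono ?_
    rintro n ⟨h5, h6⟩
    have hn1 : (1:ℝ) ≤ n := by exact_mod_cast h6
    refine h5.trans (Real.rpow_le_rpow_of_exponent_le hn1 ?_)
    have := le_max_right 0 (1 / p - Th)
    linarith
  · intro h s hs h0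
    have h1 := re_le_Th h0
    have hlt : θ < Th := lt_of_lt_of_le hs h1
    set δ : ℝ := min (Th - θ) (1 / p - θ) / 4 with hδ
    have hδ0 : 0 < δ := by
      rw [hδ]
      have : 0 < min (Th - θ) (1 / p - θ) := lt_min (by linarith) (by linarith)
      linarith
    have a1 : 4 * δ ≤ Th - θ := by rw [hδ]; linarith [min_le_left (Th - θ) (1 / p - θ)]
    have a2 : 4 * δ ≤ 1 / p - θ := by rw [hδ]; linarith [min_le_right (Th - θ) (1 / p - θ)]
    have h2 := dst_lower hp hδ0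
    obtain ⟨n, h3, h4, h5⟩ := ((h δ hδ0).and_eventually (h2.and (eventually_ge_atTop 2))).exists
    have hn1 : (1:ℝ) < n := by exact_mod_cast (by omega : 1 < n)
    have h6 := h4.trans h3
    rw [Real.rpow_le_rpow_left_iff hn1] at h6
    have h7 : max 0 (1 / p - Th) ≤ 1 / p - θ - 4 * δ := max_le (by linarith) (by linarith)
    linarith

/-- the Möbius coefficients are optimal up to `n ^ o(1)` -/
theorem mu_limit {p : ℝ} (hp : 1 ≤ p) (h : p * Th < 1) :
    Tendsto (fun n : ℕ => Real.log ((Dp p n cmu) ^ (1 / p)) / Real.log n) atTop (𝓝 (Th - 1 / p)) := by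
  have hp0 : 0 < p := by linarith
  have hm : max 0 (1 / p - Th) = 1 / p - Th := by
    apply max_eq_right
    have : Th ≤ 1 / p := by rw [le_div_iff₀ hp0]; linarith
    linarith
  have hup : ∀ δ : ℝ, 0 < δ → ∀ᶠ n : ℕ in atTop, (Dp p n cmu) ^ (1 / p) ≤ (n:ℝ) ^ (-(1 / p - Th) + δ) := by
    intro δ hδ
    obtain ⟨K, hK, hN⟩ := disc_upper (δ := p * (δ / 2)) Th_ge (fun s hs => Th_free hs) hp h (by positivity)
    filter_upwards [eventually_ge_atTop 1,
      (tendsto_rpow_nat (δ := p * (δ / 2)) (by positivity)).eventually_ge_atTop K] with n h1 h2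
    have hn1 : (1:ℝ) ≤ n := by exact_mod_cast h1
    have hn0 : (0:ℝ) < n := by linarith
    have h3 : Dp p n cmu ≤ (n:ℝ) ^ (p * (-(1 / p - Th) + δ)) := by
      calc Dp p n cmu ≤ K * (n:ℝ) ^ (p * Th - 1 + p * (δ / 2)) := hN n h1
        _ ≤ (n:ℝ) ^ (p * (δ / 2)) * (n:ℝ) ^ (p * Th - 1 + p * (δ / 2)) := by gcongr
        _ = (n:ℝ) ^ (p * (-(1 / p - Th) + δ)) := by
            rw [← Real.rpow_add hn0]
            congr 1
            field_simp
            ring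
    calc (Dp p n cmu) ^ (1 / p)
        ≤ ((n:ℝ) ^ (p * (-(1 / p - Th) + δ))) ^ (1 / p) :=
          Real.rpow_le_rpow (Dp_nonneg _ _ _) h3 (by positivity)
      _ = (n:ℝ) ^ (-(1 / p - Th) + δ) := by
          rw [← Real.rpow_mul hn0.le]
          congr 1
          field_simp
  rw [Metric.tendsto_atTop]
  intro δ hδ
  have h := (dst_lower hp (δ := δ / 2) (by linarith)).and ((hup (δ / 2) (by linarith)).and
    (eventually_ge_atTop 2))
  obtain ⟨N, hN⟩ := eventually_atTop.mp h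
  refine ⟨N, fun n hn => ?_⟩
  obtain ⟨h1, h2, h3⟩ := hN n hn
  rw [hm] at h1
  have h1' := h1.trans (dst_le hp0.le n cmu)
  have hn1 : (1:ℝ) < n := by exact_mod_cast (by omega : 1 < n)
  have hn0 : (0:ℝ) < n := by linarith
  have hl : 0 < Real.log n := Real.log_pos hn1
  have hd : 0 < (Dp p n cmu) ^ (1 / p) := lt_of_lt_of_le (by positivity) h1'
  have l1 := Real.log_le_log (by positivity) h1'
  have l2 := Real.log_le_log hd h2
  rw [Real.log_rpow hn0] at l1 l2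
  rw [Real.dist_eq, abs_lt]
  constructor
  · have : -(1 / p - Th) - δ / 2 ≤ Real.log ((Dp p n cmu) ^ (1 / p)) / Real.log n := by
      rw [le_div_iff₀ hl]; exact l1
    linarith
  · have : Real.log ((Dp p n cmu) ^ (1 / p)) / Real.log n ≤ -(1 / p - Th) + δ / 2 := by
      rw [div_le_iff₀ hl]; exact l2
    linarith

end

end Pool.Agent.K3h56.BN
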