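import Pool.Agent.K3h56.BN.Cut
import Pool.Agent.H295R2.Z

/-! `∑ {j/k} (j ^ (-ρ) - (j+1) ^ (-ρ)) = 0` for a zero `ρ` of zeta. -/

set_option autoImplicit false

open MeasureTheory Filter Topology Set
open scoped ContDiff

namespace Pool.Agent.K3h56.BN

noncomputable section

lemma fract_block {k M r : ℕ} (_hk : 0 < k) (hr : r < k) :
    Int.fract (((k * M + r : ℕ) : ℝ) / k) = (r : ℝ) / k := by
  have hk' : (k:ℝ) ≠ 0 := by positivity
  have h1 : ((k * M + r : ℕ) : ℝ) / k = (M : ℤ) + (r:ℝ) / k := by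
    push_cast
    field_simp
  rw [h1, Int.fract_intCast_add, Int.fract_eq_self]
  constructor
  · positivity
  · rw [div_lt_one (by positivity)]
    exact_mod_cast hr

lemma abel_inner (k : ℕ) (b : ℕ → ℂ) (n : ℕ) :
    ∑ r ∈ Finset.range n, ((r : ℂ) / k) * (b r - b (r + 1)) =
      (1 / (k:ℂ)) * ∑ r ∈ Finset.range n, b (r + 1) - ((n : ℂ) / k) * b n := by
  induction n with
  | zero => simp
  | succ n ih =>
    rw [Finset.sum_range_succ, Finset.sum_range_succ, ih]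
    push_cast
    ring

lemma abel_block {k : ℕ} (hk : 0 < k) (a : ℕ → ℂ) (M : ℕ) :
    ∑ j ∈ Finset.range (k * M), ((Int.fract ((j:ℝ) / k) : ℝ) : ℂ) * (a j - a (j + 1)) =
      (1 / (k:ℂ)) * ∑ j ∈ Finset.range (k * M), a (j + 1) - ∑ i ∈ Finset.range M, a (k * (i + 1)) := by
  have hk' : (k:ℂ) ≠ 0 := by exact_mod_cast hk.ne'
  induction M with
  | zero => simp
  | succ M ih =>
    have e : k * (M + 1) = k * M + k := by ring
    rw [e, Finset.sum_range_add, Finset.sum_range_add, ih, Finset.sum_range_succ]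
    have h1 : ∑ r ∈ Finset.range k, ((Int.fract (((k * M + r : ℕ):ℝ) / k) : ℝ) : ℂ) *
        (a (k * M + r) - a (k * M + r + 1)) =
        ∑ r ∈ Finset.range k, ((r : ℂ) / k) * ((fun r => a (k * M + r)) r - (fun r => a (k * M + r)) (r + 1)) := by
      refine Finset.sum_congr rfl fun r hr => ?_
      rw [fract_block hk (Finset.mem_range.mp hr)]
      push_cast
      rfl
    rw [h1, abel_inner, div_self hk']
    have e2 : ∀ r, k * M + (r + 1) = k * M + r + 1 := fun r => by ring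
    simp only [e2, mul_add, mul_one]
    have e3 : k * (M + 1) = k * M + k := by ring
    ring

/-- the pairing of `{j/k}` with the differences of `a` -/
def T (k : ℕ) (a : ℕ → ℂ) : ℂ := ∑' j : ℕ, ((Int.fract ((j:ℝ) / k) : ℝ) : ℂ) * (a j - a (j + 1))

lemma integral_fract_block {ρ : ℂ} (h0 : ρ ≠ 0) (h1 : ρ ≠ 1) {N : ℕ} (hN : 1 ≤ N) :
    ρ * ∫ t in (N:ℝ)..((N + 1 : ℕ) : ℝ), ((Int.fract t : ℝ) : ℂ) * (t : ℂ) ^ (-(ρ + 1)) =
      (((N + 1 : ℕ) : ℂ) ^ (1 - ρ) - (N:ℂ) ^ (1 - ρ)) / (1 - ρ) - ((N + 1 : ℕ) : ℂ) ^ (-ρ) := by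
  have hN0 : (0:ℝ) < N := by exact_mod_cast hN
  have hNc : (N:ℂ) ≠ 0 := by exact_mod_cast hN0.ne'
  have hN1c : ((N + 1 : ℕ):ℂ) ≠ 0 := by exact_mod_cast (Nat.succ_ne_zero N)
  have hle : (N:ℝ) ≤ ((N + 1 : ℕ) : ℝ) := by push_cast; linarith
  have hni : (0:ℝ) ∉ uIcc (N:ℝ) ((N + 1 : ℕ) : ℝ) := by
    rw [uIcc_of_le hle, mem_Icc, not_and_or]
    left; linarith
  have hcongr : ∫ t in (N:ℝ)..((N + 1 : ℕ) : ℝ), ((Int.fract t : ℝ) : ℂ) * (t : ℂ) ^ (-(ρ + 1)) =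
      ∫ t in (N:ℝ)..((N + 1 : ℕ) : ℝ), ((t : ℂ) ^ (-ρ) - (N:ℂ) * (t : ℂ) ^ (-(ρ + 1))) := by
    refine intervalIntegral.integral_congr_ae ?_
    rw [uIoc_of_le hle]
    have hne : ∀ᵐ t : ℝ, t ≠ ((N + 1 : ℕ) : ℝ) := by
      rw [ae_iff]; simp
    filter_upwards [hne] with t ht ht2
    have ht3 : t < ((N + 1 : ℕ) : ℝ) := lt_of_le_of_ne ht2.2 ht
    have hf : Int.fract t = t - N := by
      rw [Int.fract]
      congr 1
      have : ⌊t⌋ = (N : ℤ) := by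
        rw [Int.floor_eq_iff]
        refine ⟨by simpa using ht2.1.le, by push_cast at ht3 ⊢; exact ht3⟩
      rw [this]; simp
    rw [hf]
    have ht0 : (t:ℂ) ≠ 0 := by
      have : 0 < t := lt_trans hN0 ht2.1
      exact_mod_cast this.ne'
    have e1 : (t : ℂ) ^ (-ρ) = (t:ℂ) * (t : ℂ) ^ (-(ρ + 1)) := by
      have : -ρ = 1 + -(ρ + 1) := by ring
      rw [this, Complex.cpow_add _ _ ht0, Complex.cpow_one]
    rw [e1]
    push_cast
    ring
  rw [hcongr, intervalIntegral.integral_sub, intervalIntegral.integral_const_mul, integral_cpow, integral_cpow]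
  · have hρ1 : 1 - ρ ≠ 0 := by
      intro h; apply h1; linear_combination -h
    have e1 : -ρ + 1 = 1 - ρ := by ring
    have e2 : -(ρ + 1) + 1 = -ρ := by ring
    rw [e1, e2]
    have e3 : (((N + 1 : ℕ) : ℝ) : ℂ) = ((N + 1 : ℕ) : ℂ) := by push_cast; rfl
    have e4 : ((N : ℝ) : ℂ) = (N : ℂ) := by push_cast; rfl
    rw [e3, e4]
    have e5 : ((N + 1 : ℕ) : ℂ) ^ (1 - ρ) = ((N:ℂ) + 1) * ((N + 1 : ℕ) : ℂ) ^ (-ρ) := by
      have : 1 - ρ = 1 + -ρ := by ring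
      rw [this, Complex.cpow_add _ _ hN1c, Complex.cpow_one]
      push_cast; rfl
    have e6 : (N : ℂ) ^ (1 - ρ) = (N:ℂ) * (N : ℂ) ^ (-ρ) := by
      have : 1 - ρ = 1 + -ρ := by ring
      rw [this, Complex.cpow_add _ _ hNc, Complex.cpow_one]
    rw [e5, e6]
    field_simp
    ring
  · right
    refine ⟨?_, hni⟩
    intro h
    apply h0
    linear_combination -h
  · right
    refine ⟨?_, hni⟩
    intro h
    apply h1
    linear_combination -h
  · exact intervalIntegral.intervalIntegrable_cpow (Or.inr hni)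
  · exact (intervalIntegral.intervalIntegrable_cpow (Or.inr hni)).const_mul _

lemma fract_cpow_integrableOn {ρ : ℂ} (hρ : 0 < ρ.re) :
    IntegrableOn (fun t : ℝ => ((Int.fract t : ℝ) : ℂ) * (t : ℂ) ^ (-(ρ + 1))) (Ioi 1) := by
  have h1 : IntegrableOn (fun t : ℝ => t ^ (-(ρ.re + 1))) (Ioi (1:ℝ)) :=
    integrableOn_Ioi_rpow_of_lt (by linarith) one_pos
  refine h1.mono' ?_ ?_
  · refine AEStronglyMeasurable.mul ?_ ?_
    · exact (Complex.measurable_ofReal.comp measurable_fract).aestronglyMeasurable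
    · refine ContinuousOn.aestronglyMeasurable (fun t ht => ?_) measurableSet_Ioi
      have ht0 : 0 < t := lt_trans one_pos ht
      exact (Complex.continuousAt_ofReal_cpow_const t _ (Or.inr ht0.ne')).continuousWithinAt
  · refine (ae_restrict_iff' measurableSet_Ioi).mpr (Eventually.of_forall fun t ht => ?_)
    have ht0 : 0 < t := lt_trans one_pos ht
    rw [norm_mul, Complex.norm_real, Real.norm_of_nonneg (Int.fract_nonneg t),
      Complex.norm_cpow_eq_rpow_re_of_pos ht0]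
    have : (-(ρ + 1)).re = -(ρ.re + 1) := by simp
    rw [this]
    have h2 := (Int.fract_lt_one t).le
    have h3 : 0 ≤ t ^ (-(ρ.re + 1)) := by positivity
    nlinarith

lemma partial_eq {ρ : ℂ} (hρ : 0 < ρ.re) (h1 : ρ ≠ 1) {N : ℕ} (hN : 1 ≤ N) :
    ρ * ∫ t in (1:ℝ)..(N : ℝ), ((Int.fract t : ℝ) : ℂ) * (t : ℂ) ^ (-(ρ + 1)) =
      ((N:ℂ) ^ (1 - ρ) - 1) / (1 - ρ) - (∑ i ∈ Finset.range N, ((i + 1 : ℕ) : ℂ) ^ (-ρ) - 1) := by
  have h0 : ρ ≠ 0 := by rintro rfl; simp at hρ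
  induction N, hN using Nat.le_induction with
  | base => simp
  | succ N hN ih =>
    have hint : ∀ a b : ℝ, 1 ≤ a → a ≤ b → IntervalIntegrable
        (fun t : ℝ => ((Int.fract t : ℝ) : ℂ) * (t : ℂ) ^ (-(ρ + 1))) volume a b := by
      intro a b ha hab
      rw [intervalIntegrable_iff_integrableOn_Ioc_of_le hab]
      exact (fract_cpow_integrableOn hρ).mono_set fun x hx => lt_of_le_of_lt ha hx.1
    have hN1 : (1:ℝ) ≤ N := by exact_mod_cast hN
    rw [← intervalIntegral.integral_add_adjacent_intervals (hint 1 N le_rfl hN1)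
      (hint N ((N + 1 : ℕ) : ℝ) hN1 (by push_cast; linarith)), mul_add, ih,
      integral_fract_block h0 h1 hN, Finset.sum_range_succ]
    ring

/-- partial sums of the zeta series at a zero -/
lemma partial_tendsto {ρ : ℂ} (hρ : 0 < ρ.re) (hρ1 : ρ.re < 1) (hz : riemannZeta ρ = 0) :
    Tendsto (fun N : ℕ => ∑ i ∈ Finset.range N, ((i + 1 : ℕ) : ℂ) ^ (-ρ) - (N:ℂ) ^ (1 - ρ) / (1 - ρ))
      atTop (𝓝 0) := by
  have h1 : ρ ≠ 1 := by rintro rfl; simp at hρ1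
  have h0 : ρ ≠ 0 := by rintro rfl; simp at hρ
  have hs1 : 1 - ρ ≠ 0 := by
    intro h; apply h1; linear_combination -h
  have hlim := intervalIntegral_tendsto_integral_Ioi 1 (fract_cpow_integrableOn hρ)
    (tendsto_natCast_atTop_atTop (R := ℝ))
  have hH : ∫ t in Ioi (1:ℝ), ((Int.fract t : ℝ) : ℂ) * (t : ℂ) ^ (-(ρ + 1)) = 1 / (ρ - 1) := by
    rw [← H295R2.Hf_eq]
    have h2 := H295R2.Zs_eq_Zt hρ
    have h3 := H295R2.Zs_eq h1
    rw [hz, mul_zero] at h3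
    rw [← h3] at h2
    unfold H295R2.Zt at h2
    have h4 : ρ - 1 ≠ 0 := sub_ne_zero.mpr h1
    have h5 : ρ * (1 - (ρ - 1) * H295R2.Hf ρ) = 0 := by rw [h2]; ring
    have h6 := (mul_eq_zero.mp h5).resolve_left h0
    rw [eq_div_iff h4]
    linear_combination -h6
  rw [hH] at hlim
  have hlim2 := (tendsto_const_nhds (x := (1 - 1 / (1 - ρ)))).sub (hlim.const_mul ρ)
  have e : 1 - 1 / (1 - ρ) - ρ * (1 / (ρ - 1)) = 0 := by
    have h4 : ρ - 1 ≠ 0 := sub_ne_zero.mpr h1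
    field_simp
    ring
  rw [e] at hlim2
  refine hlim2.congr' ?_
  filter_upwards [eventually_ge_atTop 1] with N hN
  rw [partial_eq hρ h1 hN]
  field_simp
  ring

lemma summable_decay {β : ℝ} (hβ : 0 < β) : Summable (fun j : ℕ => (j:ℝ) ^ (-β - 1)) :=
  Real.summable_nat_rpow.mpr (by linarith)

/-- `(j) ^ (-ρ)` as a sequence (with value `0` at `0`) -/
def pw (ρ : ℂ) (j : ℕ) : ℂ := (j : ℂ) ^ (-ρ)

lemma pw_diff {ρ : ℂ} (hρ : 0 < ρ.re) {j : ℕ} (hj : 1 ≤ j) :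
    ‖pw ρ j - pw ρ (j + 1)‖ ≤ ‖ρ‖ * (j:ℝ) ^ (-ρ.re - 1) := by
  have := cpow_sub_bound hρ.le (a := (j:ℝ)) (by exact_mod_cast hj)
  rw [norm_sub_rev]
  unfold pw
  push_cast at this ⊢
  exact this

lemma term_bound {k j : ℕ} {C β : ℝ} {a : ℕ → ℂ} (h : ∀ j : ℕ, 1 ≤ j → ‖a j - a (j + 1)‖ ≤ C * (j:ℝ) ^ (-β - 1))
    (hC : 0 ≤ C) :
    ‖((Int.fract ((j:ℝ) / k) : ℝ) : ℂ) * (a j - a (j + 1))‖ ≤ C * (j:ℝ) ^ (-β - 1) := by
  rcases Nat.eq_zero_or_pos j with rfl | hj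
  · simp only [Nat.cast_zero, zero_div, Int.fract_zero, Complex.ofReal_zero, zero_mul, norm_zero]
    positivity
  · rw [norm_mul, Complex.norm_real, Real.norm_of_nonneg (Int.fract_nonneg _)]
    have h2 := (Int.fract_lt_one ((j:ℝ) / k)).le
    have h3 := h j hj
    have h4 := Int.fract_nonneg ((j:ℝ) / k)
    nlinarith [norm_nonneg (a j - a (j + 1))]

/-- the functional vanishes on `{j/k}` -/
theorem T_pw {ρ : ℂ} (hρ : 0 < ρ.re) (hρ1 : ρ.re < 1) (hz : riemannZeta ρ = 0) {k : ℕ} (hk : 0 < k) :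
    T k (pw ρ) = 0 := by
  have h1 : ρ ≠ 1 := by rintro rfl; simp at hρ1
  have hs1 : 1 - ρ ≠ 0 := by
    intro h; apply h1; linear_combination -h
  have hk' : (k:ℂ) ≠ 0 := by exact_mod_cast hk.ne'
  have hsum : Summable (fun j : ℕ => ((Int.fract ((j:ℝ) / k) : ℝ) : ℂ) * (pw ρ j - pw ρ (j + 1))) :=
    Summable.of_norm_bounded ((summable_decay hρ).mul_left ‖ρ‖)
      (fun j => term_bound (fun j hj => pw_diff hρ hj) (norm_nonneg _))
  have hlim := hsum.hasSum.tendsto_sum_nat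
  have hkM : Tendsto (fun M : ℕ => k * M) atTop atTop :=
    tendsto_id.const_mul_atTop' hk
  have hlim2 := hlim.comp hkM
  have hP := partial_tendsto hρ hρ1 hz
  have hP2 := ((hP.comp hkM).const_mul (1 / (k:ℂ))).sub (hP.const_mul ((k:ℂ) ^ (-ρ)))
  rw [mul_zero, mul_zero, sub_zero] at hP2
  refine tendsto_nhds_unique hlim2 (hP2.congr fun M => ?_)
  simp only [Function.comp_apply]
  rw [abel_block hk]
  have e1 : ∑ i ∈ Finset.range M, pw ρ (k * (i + 1)) =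
      (k:ℂ) ^ (-ρ) * ∑ i ∈ Finset.range M, ((i + 1 : ℕ) : ℂ) ^ (-ρ) := by
    rw [Finset.mul_sum]
    refine Finset.sum_congr rfl fun i _ => ?_
    unfold pw
    rw [Nat.cast_mul, Complex.natCast_mul_natCast_cpow]
  have e2 : ∑ j ∈ Finset.range (k * M), pw ρ (j + 1) =
      ∑ j ∈ Finset.range (k * M), ((j + 1 : ℕ) : ℂ) ^ (-ρ) := rfl
  rw [e1, e2]
  have e3 : ((k * M : ℕ) : ℂ) ^ (1 - ρ) = (k:ℂ) ^ (1 - ρ) * (M:ℂ) ^ (1 - ρ) := by
    rw [Nat.cast_mul, Complex.natCast_mul_natCast_cpow]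
  have e4 : (k:ℂ) ^ (1 - ρ) = (k:ℂ) * (k:ℂ) ^ (-ρ) := by
    have : 1 - ρ = 1 + -ρ := by ring
    rw [this, Complex.cpow_add _ _ hk', Complex.cpow_one]
  rw [e3, e4]
  field_simp
  ring

end

end Pool.Agent.K3h56.BN
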