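import Pool.Agent.K3h56.BN.Poi
import Pool.Agent.K3h56.BN.Van

/-! The truncated functional almost annihilates `{j/k}`. -/

set_option autoImplicit false

open MeasureTheory Filter Topology Set
open scoped ContDiff

namespace Pool.Agent.K3h56.BN

noncomputable section

/-- the truncated sequence -/
def Atr (ρ : ℂ) (Λ : ℝ) (j : ℕ) : ℂ := Af ρ Λ j

lemma T_finsupp {k : ℕ} (hk : 0 < k) {a : ℕ → ℂ} {N : ℕ} (hN : ∀ j, N ≤ j → a j = 0) (h0 : a 0 = 0) :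
    T k a = (1 / (k:ℂ)) * ∑' j : ℕ, a j - ∑' i : ℕ, a (k * i) := by
  set M := N with hM
  have h1 : T k a = ∑ j ∈ Finset.range (k * M), ((Int.fract ((j:ℝ) / k) : ℝ) : ℂ) * (a j - a (j + 1)) := by
    unfold T
    refine tsum_eq_sum fun j hj => ?_
    have hj' : N ≤ j := by
      have : k * M ≤ j := by simpa using hj
      nlinarith
    rw [hN j hj', hN (j + 1) (by omega)]
    simp
  have h2 : ∑' j : ℕ, a j = ∑ j ∈ Finset.range (k * M), a (j + 1) := by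
    rw [tsum_eq_sum (s := Finset.range (k * M + 1)), Finset.sum_range_succ', h0, add_zero]
    intro j hj
    apply hN
    have : k * M + 1 ≤ j := by simpa using hj
    nlinarith
  have h3 : ∑' i : ℕ, a (k * i) = ∑ i ∈ Finset.range M, a (k * (i + 1)) := by
    rw [tsum_eq_sum (s := Finset.range (M + 1)), Finset.sum_range_succ', mul_zero, h0, add_zero]
    intro j hj
    apply hN
    have : M + 1 ≤ j := by simpa using hj
    nlinarith
  rw [h1, h2, h3, abel_block hk]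

lemma tsum_int_eq_nat {g : ℝ → ℂ} (hg : ∀ v : ℝ, v ≤ 0 → g v = 0) :
    ∑' i : ℤ, g i = ∑' i : ℕ, g i := by
  have h := (Nat.cast_injective (R := ℤ)).tsum_eq (f := fun i : ℤ => g i) ?_
  · rw [← h]
    simp
  · intro i hi
    rw [Function.mem_support] at hi
    by_contra hne
    apply hi
    apply hg
    have : i < 0 := by
      by_contra h2
      apply hne
      exact ⟨i.toNat, Int.toNat_of_nonneg (by omega)⟩
    exact_mod_cast this.le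

lemma Atr_summable {ρ : ℂ} (hρ : 0 < ρ.re) {Λ : ℝ} (hΛ : 0 < Λ) (k : ℕ) :
    Summable (fun j : ℕ => ((Int.fract ((j:ℝ) / k) : ℝ) : ℂ) * (Atr ρ Λ j - Atr ρ Λ (j + 1))) := by
  obtain ⟨C, hC0, hC⟩ := Af_diff ρ hρ.le
  refine Summable.of_norm_bounded ((summable_decay hρ).mul_left C) fun j => term_bound (fun j hj => ?_) hC0
  have := hC Λ hΛ j (by exact_mod_cast hj)
  unfold Atr
  push_cast
  exact this

lemma T_step {ρ : ℂ} (hρ : 0 < ρ.re) (m : ℕ) (hm : 1 ≤ m) :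
    ∃ C : ℝ, 0 ≤ C ∧ ∀ Λ : ℝ, 1 ≤ Λ → ∀ k : ℕ, 0 < k →
      ‖T k (Atr ρ Λ) - T k (Atr ρ (2 * Λ))‖ ≤ C * (Λ / k) ^ (-(m:ℝ)) := by
  obtain ⟨C, hC0, hC⟩ := poisson_dilate (gf ρ) (gf_compact ρ) (gf_contDiff ρ) (m + 1) (by omega)
  refine ⟨2 * C, by positivity, fun Λ hΛ k hk => ?_⟩
  have hΛ0 : 0 < Λ := by linarith
  have hk0 : (0:ℝ) < k := by exact_mod_cast hk
  have hkc : (k:ℂ) ≠ 0 := by exact_mod_cast hk.ne'
  -- linearity
  set G : ℕ → ℂ := fun j => Atr ρ Λ j - Atr ρ (2 * Λ) j with hG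
  have hlin : T k (Atr ρ Λ) - T k (Atr ρ (2 * Λ)) = T k G := by
    unfold T
    rw [← (Atr_summable hρ hΛ0 k).tsum_sub (Atr_summable hρ (by positivity) k)]
    refine tsum_congr fun j => ?_
    simp only [hG]
    ring
  have hGeq : ∀ j : ℕ, G j = (Λ : ℂ) ^ (-ρ) * gf ρ (j / Λ) := fun j => Af_sub ρ hΛ0 (by positivity)
  have hG0 : G 0 = 0 := by
    rw [hGeq, gf_zero_low (by simp)]; simp
  have hGN : ∀ j, ⌈4 * Λ⌉₊ ≤ j → G j = 0 := by
    intro j hj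
    rw [hGeq, gf_zero_high]
    · simp
    · rw [le_div_iff₀ hΛ0]
      exact Nat.ceil_le.mp hj
  rw [hlin, T_finsupp hk hGN hG0]
  have e1 : ∑' j : ℕ, G j = (Λ : ℂ) ^ (-ρ) * ∑' i : ℤ, gf ρ (i / Λ) := by
    rw [tsum_int_eq_nat (g := fun v => gf ρ (v / Λ)), ← tsum_mul_left]
    · exact tsum_congr hGeq
    · intro v hv
      apply gf_zero_low
      have : v / Λ ≤ 0 := div_nonpos_of_nonpos_of_nonneg hv hΛ0.le
      linarith
  have e2 : ∑' i : ℕ, G (k * i) = (Λ : ℂ) ^ (-ρ) * ∑' i : ℤ, gf ρ (i / (Λ / k)) := by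
    rw [tsum_int_eq_nat (g := fun v => gf ρ (v / (Λ / k))), ← tsum_mul_left]
    · refine tsum_congr fun i => ?_
      rw [hGeq]
      congr 2
      push_cast
      field_simp
    · intro v hv
      apply gf_zero_low
      have : v / (Λ / k) ≤ 0 := div_nonpos_of_nonpos_of_nonneg hv (by positivity)
      linarith
  rw [e1, e2]
  set S1 := ∑' i : ℤ, gf ρ (i / Λ) with hS1
  set S2 := ∑' i : ℤ, gf ρ (i / (Λ / k)) with hS2
  set I := ∫ v, gf ρ v with hI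
  have b1 := hC Λ hΛ0
  have b2 := hC (Λ / k) (by positivity)
  rw [← hS1] at b1
  rw [← hS2] at b2
  have e3 : 1 / (k:ℂ) * ((Λ : ℂ) ^ (-ρ) * S1) - (Λ : ℂ) ^ (-ρ) * S2 =
      (Λ : ℂ) ^ (-ρ) * ((1 / (k:ℂ)) * (S1 - (Λ:ℂ) * I) - (S2 - ((Λ / k : ℝ) : ℂ) * I)) := by
    push_cast
    field_simp
    ring
  rw [e3, norm_mul, norm_cpow_neg hΛ0]
  have b3 : Λ ^ (-ρ.re) ≤ 1 := Real.rpow_le_one_of_one_le_of_nonpos hΛ (by linarith)
  have b4 : ‖(1 / (k:ℂ)) * (S1 - (Λ:ℂ) * I)‖ ≤ C * (Λ / k) ^ (-(m:ℝ)) := by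
    rw [norm_mul, norm_div, norm_one, Complex.norm_natCast]
    have h5 : Λ * Λ ^ (-((m + 1 : ℕ):ℝ)) = Λ ^ (-(m:ℝ)) := by
      conv_lhs => rw [← Real.rpow_one Λ]
      rw [← Real.rpow_mul hΛ0.le, ← Real.rpow_add hΛ0]
      congr 1; push_cast; ring
    have h6 : Λ ^ (-(m:ℝ)) ≤ (Λ / k) ^ (-(m:ℝ)) := by
      apply Real.rpow_le_rpow_of_nonpos (by positivity) _ (by simp)
      exact div_le_self hΛ0.le (by exact_mod_cast hk)
    have h7 : (1:ℝ) / k ≤ 1 := by rw [div_le_one hk0]; exact_mod_cast hk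
    calc 1 / (k:ℝ) * ‖S1 - (Λ:ℂ) * I‖ ≤ 1 * (C * Λ * Λ ^ (-((m + 1 : ℕ):ℝ))) := by gcongr
      _ = C * (Λ * Λ ^ (-((m + 1 : ℕ):ℝ))) := by ring
      _ = C * Λ ^ (-(m:ℝ)) := by rw [h5]
      _ ≤ C * (Λ / k) ^ (-(m:ℝ)) := by gcongr
  have b5 : ‖S2 - ((Λ / k : ℝ) : ℂ) * I‖ ≤ C * (Λ / k) ^ (-(m:ℝ)) := by
    refine b2.trans (le_of_eq ?_)
    have hL : 0 < Λ / k := by positivity
    have h5 : (Λ / k) * (Λ / k) ^ (-((m + 1 : ℕ):ℝ)) = (Λ / k) ^ (-(m:ℝ)) := by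
      conv_lhs => enter [1]; rw [← Real.rpow_one (Λ / k)]
      rw [← Real.rpow_add hL]
      congr 1; push_cast; ring
    rw [mul_assoc, h5]
  calc Λ ^ (-ρ.re) * ‖(1 / (k:ℂ)) * (S1 - (Λ:ℂ) * I) - (S2 - ((Λ / k : ℝ) : ℂ) * I)‖
      ≤ 1 * (C * (Λ / k) ^ (-(m:ℝ)) + C * (Λ / k) ^ (-(m:ℝ))) := by
        gcongr
        exact (norm_sub_le _ _).trans (add_le_add b4 b5)
    _ = _ := by ring

lemma T_lim {ρ : ℂ} (hρ : 0 < ρ.re) (hρ1 : ρ.re < 1) (hz : riemannZeta ρ = 0) {k : ℕ} (hk : 0 < k)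
    {Λ : ℝ} (hΛ : 1 ≤ Λ) :
    Tendsto (fun K : ℕ => T k (Atr ρ (2 ^ K * Λ))) atTop (𝓝 0) := by
  have hΛ0 : 0 < Λ := by linarith
  obtain ⟨C, hC0, hC⟩ := Af_diff ρ hρ.le
  rw [← T_pw hρ hρ1 hz hk]
  unfold T
  refine tendsto_tsum_of_dominated_convergence ((summable_decay hρ).mul_left C) (fun j => ?_)
    (Eventually.of_forall fun K j => ?_)
  · refine tendsto_const_nhds.congr' ?_
    obtain ⟨K0, hK0⟩ := pow_unbounded_of_one_lt ((j:ℝ) + 1) (one_lt_two (α := ℝ))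
    filter_upwards [eventually_ge_atTop K0] with K hK
    have h1 : (j:ℝ) + 1 ≤ 2 ^ K * Λ := by
      have : (2:ℝ) ^ K0 ≤ 2 ^ K := pow_le_pow_right₀ (by norm_num) hK
      have h3 : (0:ℝ) < 2 ^ K := by positivity
      nlinarith
    have h2 : 0 < (2:ℝ) ^ K * Λ := by positivity
    unfold Atr Af pw
    rw [chi_one (by rw [div_le_one h2]; linarith), chi_one (by rw [div_le_one h2]; push_cast; linarith)]
    simp
  · refine term_bound (fun j hj => ?_) hC0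
    have := hC (2 ^ K * Λ) (by positivity) j (by exact_mod_cast hj)
    unfold Atr
    push_cast
    exact this

/-- the truncated functional on `{j/k}` is very small -/
theorem T_bound {ρ : ℂ} (hρ : 0 < ρ.re) (hρ1 : ρ.re < 1) (hz : riemannZeta ρ = 0) (m : ℕ) (hm : 1 ≤ m) :
    ∃ C : ℝ, 0 ≤ C ∧ ∀ Λ : ℝ, 1 ≤ Λ → ∀ k : ℕ, 0 < k →
      ‖T k (Atr ρ Λ)‖ ≤ C * (Λ / k) ^ (-(m:ℝ)) := by
  obtain ⟨C, hC0, hC⟩ := T_step hρ m hm
  refine ⟨2 * C, by positivity, fun Λ hΛ k hk => ?_⟩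
  have hΛ0 : 0 < Λ := by linarith
  have hk0 : (0:ℝ) < k := by exact_mod_cast hk
  have hind : ∀ K : ℕ, ‖T k (Atr ρ Λ)‖ ≤ ‖T k (Atr ρ (2 ^ K * Λ))‖ +
      C * (Λ / k) ^ (-(m:ℝ)) * (2 - 2 * (1 / 2) ^ K) := by
    intro K
    induction K with
    | zero => simp
    | succ K ih =>
      have h2K : (1:ℝ) ≤ 2 ^ K := one_le_pow₀ (by norm_num)
      have h1 := hC (2 ^ K * Λ) (by nlinarith) k hk
      have e1 : 2 * (2 ^ K * Λ) = 2 ^ (K + 1) * Λ := by ring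
      rw [e1] at h1
      have h2 : ‖T k (Atr ρ (2 ^ K * Λ))‖ ≤ ‖T k (Atr ρ (2 ^ (K + 1) * Λ))‖ +
          C * (2 ^ K * Λ / k) ^ (-(m:ℝ)) := by
        have := norm_sub_norm_le (T k (Atr ρ (2 ^ K * Λ))) (T k (Atr ρ (2 ^ (K + 1) * Λ)))
        linarith
      have h3 : (2 ^ K * Λ / k) ^ (-(m:ℝ)) ≤ (1 / 2) ^ K * (Λ / k) ^ (-(m:ℝ)) := by
        rw [mul_div_assoc, Real.mul_rpow (by positivity) (by positivity)]
        apply mul_le_mul_of_nonneg_right _ (by positivity)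
        rw [Real.rpow_neg (by positivity), Real.rpow_natCast, one_div, inv_pow]
        apply inv_anti₀ (by positivity)
        exact le_self_pow₀ h2K (by omega)
      have h4 : 0 ≤ C * (Λ / k) ^ (-(m:ℝ)) := by positivity
      calc ‖T k (Atr ρ Λ)‖ ≤ _ := ih
        _ ≤ (‖T k (Atr ρ (2 ^ (K + 1) * Λ))‖ + C * ((1 / 2) ^ K * (Λ / k) ^ (-(m:ℝ)))) +
            C * (Λ / k) ^ (-(m:ℝ)) * (2 - 2 * (1 / 2) ^ K) := by
            have := mul_le_mul_of_nonneg_left h3 hC0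
            linarith
        _ = _ := by rw [pow_succ]; ring
  have hlim := (T_lim hρ hρ1 hz hk hΛ).norm
  rw [norm_zero] at hlim
  have hlim2 := hlim.add (tendsto_const_nhds (x := 2 * C * (Λ / k) ^ (-(m:ℝ))))
  rw [zero_add] at hlim2
  refine ge_of_tendsto' hlim2 fun K => (hind K).trans ?_
  have h4 : 0 ≤ C * (Λ / k) ^ (-(m:ℝ)) := by positivity
  have h5 : (0:ℝ) < (1 / 2) ^ K := by positivity
  nlinarith

end

end Pool.Agent.K3h56.BN
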