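import Pool.Agent.H295R2.T5

/-! The kernel `{e^u} 1_{u ≥ log T}` and its modulus of continuity in mean square. -/

set_option autoImplicit false

open MeasureTheory Filter Topology Set

namespace Pool.Agent.K3h56.BN

noncomputable section

/-- the kernel -/
def kf (a : ℝ) (u : ℝ) : ℂ := if a ≤ u then ((Int.fract (Real.exp u) : ℝ) : ℂ) else 0

lemma kf_nice {a B : ℝ} (hB : 1 ≤ B) : H295R2.Nice (kf a) B 0 (a - B) where
  meas := by
    unfold kf
    refine Measurable.ite measurableSet_Ici ?_ measurable_const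
    exact Complex.measurable_ofReal.comp (measurable_fract.comp Real.measurable_exp)
  bound := by
    intro u
    simp only [zero_mul, Real.exp_zero, mul_one]
    unfold kf
    split_ifs
    · rw [Complex.norm_real, Real.norm_of_nonneg (Int.fract_nonneg _)]
      exact (Int.fract_lt_one _).le.trans hB
    · rw [norm_zero]; linarith
  zero := by
    intro u hu
    unfold kf
    rw [if_neg (by linarith)]

/-- monotone majorant -/
def Gf (a : ℝ) (u : ℝ) : ℝ := if a ≤ u then Real.exp u + (⌊Real.exp u⌋ : ℝ) else 0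

lemma kf_diff (a : ℝ) {u h : ℝ} (hh : 0 ≤ h) :
    ‖kf a (u + h) - kf a u‖ ^ 2 ≤ Gf a (u + h) - Gf a u := by
  have hmono : Real.exp u ≤ Real.exp (u + h) := Real.exp_le_exp.mpr (by linarith)
  have hfl : ((⌊Real.exp u⌋ : ℤ) : ℝ) ≤ (⌊Real.exp (u + h)⌋ : ℝ) := by
    exact_mod_cast Int.floor_le_floor hmono
  have hfl0 : (0:ℝ) ≤ (⌊Real.exp (u + h)⌋ : ℝ) := by
    exact_mod_cast Int.floor_nonneg.mpr (Real.exp_pos _).le
  unfold kf Gf
  by_cases h1 : a ≤ u
  · rw [if_pos h1, if_pos (by linarith), if_pos h1, if_pos (by linarith), ← Complex.ofReal_sub, Complex.norm_real,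
      Real.norm_eq_abs]
    have f1 := Int.fract_nonneg (Real.exp u)
    have f2 := (Int.fract_lt_one (Real.exp u)).le
    have f3 := Int.fract_nonneg (Real.exp (u + h))
    have f4 := (Int.fract_lt_one (Real.exp (u + h))).le
    have hle1 : |Int.fract (Real.exp (u + h)) - Int.fract (Real.exp u)| ≤ 1 := by
      rw [abs_le]; constructor <;> linarith
    have hle2 : |Int.fract (Real.exp (u + h)) - Int.fract (Real.exp u)| ≤
        Real.exp (u + h) + (⌊Real.exp (u + h)⌋ : ℝ) - (Real.exp u + (⌊Real.exp u⌋ : ℝ)) := by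
      unfold Int.fract
      rw [abs_le]; constructor <;> linarith
    have h0 := abs_nonneg (Int.fract (Real.exp (u + h)) - Int.fract (Real.exp u))
    nlinarith
  · rw [if_neg h1, if_neg h1]
    by_cases h2 : a ≤ u + h
    · rw [if_pos h2, if_pos h2, sub_zero, sub_zero, Complex.norm_real,
        Real.norm_of_nonneg (Int.fract_nonneg _)]
      have f3 := Int.fract_nonneg (Real.exp (u + h))
      have f4 := (Int.fract_lt_one (Real.exp (u + h))).le
      have f5 : Int.fract (Real.exp (u + h)) ≤ Real.exp (u + h) := by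
        unfold Int.fract; linarith
      nlinarith
    · rw [if_neg h2, if_neg h2]; simp

lemma Gf_nonneg (a u : ℝ) : 0 ≤ Gf a u := by
  unfold Gf
  split_ifs
  · have : (0:ℝ) ≤ (⌊Real.exp u⌋ : ℝ) := by exact_mod_cast Int.floor_nonneg.mpr (Real.exp_pos _).le
    have := Real.exp_pos u
    linarith
  · exact le_rfl

lemma Gf_meas (a : ℝ) : Measurable (Gf a) := by
  unfold Gf
  refine Measurable.ite measurableSet_Ici ?_ measurable_const
  have h1 : Measurable (fun u : ℝ => ((⌊Real.exp u⌋ : ℤ) : ℝ)) := by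
    have h2 : Measurable (fun z : ℤ => (z : ℝ)) := measurable_from_top
    exact h2.comp (Int.measurable_floor.comp Real.measurable_exp)
  exact Real.measurable_exp.add h1

lemma Gf_int {a σ : ℝ} (hσ : 1 / 2 < σ) :
    Integrable (fun u => Gf a u * Real.exp (-(2 * σ * u))) ∧
    ∫ u, Gf a u * Real.exp (-(2 * σ * u)) ≤ 2 * Real.exp ((1 - 2 * σ) * a) / (2 * σ - 1) := by
  have hb : 1 - 2 * σ < 0 := by linarith
  have hdom : ∀ u, Gf a u * Real.exp (-(2 * σ * u)) ≤
      (Ici a).indicator (fun u => 2 * Real.exp ((1 - 2 * σ) * u)) u := by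
    intro u
    by_cases hu : u ∈ Ici a
    · rw [indicator_of_mem hu]
      unfold Gf
      rw [if_pos (show a ≤ u from hu)]
      have h1 : ((⌊Real.exp u⌋ : ℤ) : ℝ) ≤ Real.exp u := Int.floor_le _
      calc (Real.exp u + (⌊Real.exp u⌋ : ℝ)) * Real.exp (-(2 * σ * u))
          ≤ (Real.exp u + Real.exp u) * Real.exp (-(2 * σ * u)) := by gcongr
        _ = 2 * (Real.exp u * Real.exp (-(2 * σ * u))) := by ring
        _ = 2 * Real.exp ((1 - 2 * σ) * u) := by rw [← Real.exp_add]; ring_nf
    · rw [indicator_of_notMem hu]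
      unfold Gf
      rw [if_neg (by simpa using hu)]
      simp
  have hI := H295R2.integrable_ind_exp hb 2 a
  have hmeas : AEStronglyMeasurable (fun u => Gf a u * Real.exp (-(2 * σ * u))) volume := by
    refine ((Gf_meas a).mul ?_).aestronglyMeasurable
    exact (by fun_prop : Continuous fun u : ℝ => Real.exp (-(2 * σ * u))).measurable
  have hnn : ∀ u, 0 ≤ Gf a u * Real.exp (-(2 * σ * u)) := fun u =>
    mul_nonneg (Gf_nonneg a u) (Real.exp_pos _).le
  have hint : Integrable (fun u => Gf a u * Real.exp (-(2 * σ * u))) := by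
    refine hI.mono' hmeas (Eventually.of_forall fun u => ?_)
    rw [Real.norm_of_nonneg (hnn u)]
    exact hdom u
  refine ⟨hint, (integral_mono hint hI hdom).trans (le_of_eq ?_)⟩
  rw [H295R2.integral_ind_exp hb]
  have h3 : 1 - 2 * σ = -(2 * σ - 1) := by ring
  rw [h3, neg_div_neg_eq]
  ring

/-- **modulus of continuity in mean square** -/
theorem kf_modulus {a σ h : ℝ} (hσ : 1 / 2 < σ) (hσ2 : σ ≤ 1) (hh : 0 < h) (hh1 : h ≤ 1) :
    ∫ u, ‖kf a (u + h) - kf a u‖ ^ 2 * Real.exp (-(2 * σ * u)) ≤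
      (32 / (2 * σ - 1)) * h * Real.exp ((1 - 2 * σ) * a) := by
  obtain ⟨hint, hle⟩ := Gf_int (a := a) hσ
  have hs : 0 < 2 * σ - 1 := by linarith
  have hshift : Integrable (fun u => Gf a (u + h) * Real.exp (-(2 * σ * u))) ∧
      ∫ u, Gf a (u + h) * Real.exp (-(2 * σ * u)) =
        Real.exp (2 * σ * h) * ∫ u, Gf a u * Real.exp (-(2 * σ * u)) := by
    have e : (fun u => Gf a (u + h) * Real.exp (-(2 * σ * u))) =
        fun u => Real.exp (2 * σ * h) * ((fun u => Gf a u * Real.exp (-(2 * σ * u))) (u + h)) := by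
      ext u
      simp only
      have : Real.exp (-(2 * σ * u)) = Real.exp (2 * σ * h) * Real.exp (-(2 * σ * (u + h))) := by
        rw [← Real.exp_add]; ring_nf
      rw [this]; ring
    rw [e]
    refine ⟨(hint.comp_add_right h).const_mul _, ?_⟩
    rw [integral_const_mul, integral_add_right_eq_self (fun u => Gf a u * Real.exp (-(2 * σ * u))) h]
  have hexp : Real.exp (2 * σ * h) - 1 ≤ 16 * h := by
    have h1 : Real.exp (2 * σ * h) ≤ Real.exp (2 * h) := Real.exp_le_exp.mpr (by nlinarith)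
    have h2 := Real.add_one_le_exp (-(2 * h))
    have h3 : Real.exp (-(2 * h)) * Real.exp (2 * h) = 1 := by rw [← Real.exp_add]; simp
    have h4 : Real.exp (2 * h) ≤ 8 := by
      calc Real.exp (2 * h) ≤ Real.exp 2 := Real.exp_le_exp.mpr (by linarith)
        _ = Real.exp 1 * Real.exp 1 := by rw [← Real.exp_add]; norm_num
        _ ≤ 8 := by nlinarith [Real.exp_one_lt_d9, Real.exp_pos 1]
    nlinarith [Real.exp_pos (2 * h)]
  have hG0 : 0 ≤ ∫ u, Gf a u * Real.exp (-(2 * σ * u)) :=
    integral_nonneg fun u => mul_nonneg (Gf_nonneg a u) (Real.exp_pos _).le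
  calc ∫ u, ‖kf a (u + h) - kf a u‖ ^ 2 * Real.exp (-(2 * σ * u))
      ≤ ∫ u, (Gf a (u + h) * Real.exp (-(2 * σ * u)) - Gf a u * Real.exp (-(2 * σ * u))) := by
        refine integral_mono_of_nonneg (Eventually.of_forall fun u => by positivity)
          (hshift.1.sub hint) (Eventually.of_forall fun u => ?_)
        simp only
        rw [← sub_mul]
        exact mul_le_mul_of_nonneg_right (kf_diff a hh.le) (Real.exp_pos _).le
    _ = (Real.exp (2 * σ * h) - 1) * ∫ u, Gf a u * Real.exp (-(2 * σ * u)) := by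
        rw [integral_sub hshift.1 hint, hshift.2]; ring
    _ ≤ (16 * h) * (2 * Real.exp ((1 - 2 * σ) * a) / (2 * σ - 1)) := by gcongr
    _ = _ := by field_simp; ring

end

end Pool.Agent.K3h56.BN
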