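import Pool.Agent.K3h56.BN.Fun
import Pool.Agent.K3h56.BN.Coef

/-! The lower bound for the discrete norm, from one zero. -/

set_option autoImplicit false

open MeasureTheory Filter Topology Set

namespace Pool.Agent.K3h56.BN

noncomputable section

lemma Atr_zero {ρ : ℂ} {Λ : ℝ} (hΛ : 0 < Λ) {j : ℕ} (hj : ⌈2 * Λ⌉₊ ≤ j) : Atr ρ Λ j = 0 := by
  unfold Atr Af
  rw [chi_zero]
  · simp
  · rw [le_div_iff₀ hΛ]
    exact Nat.ceil_le.mp hj

lemma Atr_one {ρ : ℂ} {Λ : ℝ} (hΛ : 1 ≤ Λ) : Atr ρ Λ 1 = 1 := by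
  unfold Atr Af
  rw [chi_one]
  · simp
  · rw [div_le_one (by linarith)]
    simpa using hΛ

lemma pairing {ρ : ℂ} (n : ℕ) (c : ℕ → ℝ) {Λ : ℝ} (hΛ : 1 ≤ Λ) :
    ∑ j ∈ Finset.range ⌈2 * Λ⌉₊, ((Er n c (j + 1) : ℝ) : ℂ) * (Atr ρ Λ (j + 1) - Atr ρ Λ (j + 2)) =
      1 - ∑ k ∈ Finset.Icc 2 n, (c k : ℂ) * T k (Atr ρ Λ) := by
  have hΛ0 : 0 < Λ := by linarith
  set N := ⌈2 * Λ⌉₊ with hN
  set a := Atr ρ Λ with ha
  have hT : ∀ k, T k a = ∑ j ∈ Finset.range N,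
      ((Int.fract (((j + 1 : ℕ):ℝ) / k) : ℝ) : ℂ) * (a (j + 1) - a (j + 2)) := by
    intro k
    unfold T
    rw [tsum_eq_sum (s := Finset.range (N + 1)), Finset.sum_range_succ']
    · simp
    · intro j hj
      have hj' : N + 1 ≤ j := by simpa using hj
      rw [ha, Atr_zero hΛ0 (by omega), Atr_zero hΛ0 (by omega)]
      simp
  have htel : ∑ j ∈ Finset.range N, (a (j + 1) - a (j + 2)) = 1 := by
    have := Finset.sum_range_sub' (fun j => a (j + 1)) N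
    simp only [zero_add] at this
    rw [show (∑ j ∈ Finset.range N, (a (j + 1) - a (j + 2))) =
      ∑ i ∈ Finset.range N, (a (i + 1) - a (i + 1 + 1)) from rfl, this, ha, Atr_one hΛ,
      Atr_zero hΛ0 (by omega), sub_zero]
  simp_rw [hT, Finset.mul_sum]
  rw [Finset.sum_comm, ← htel, ← Finset.sum_sub_distrib]
  refine Finset.sum_congr rfl fun j _ => ?_
  unfold Er
  push_cast
  rw [sub_mul, one_mul, Finset.sum_mul]
  congr 1
  refine Finset.sum_congr rfl fun k _ => ?_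
  ring

lemma harm_bounds {N : ℕ} (hN : 1 ≤ N) :
    (1:ℝ) ≤ ∑ j ∈ Finset.range N, ((j:ℝ) + 1)⁻¹ ∧ ∑ j ∈ Finset.range N, ((j:ℝ) + 1)⁻¹ ≤ 1 + Real.log N := by
  constructor
  · have h := Finset.single_le_sum (f := fun j : ℕ => ((j:ℝ) + 1)⁻¹) (fun j _ => by positivity)
      (Finset.mem_range.mpr hN : 0 ∈ Finset.range N)
    simpa using h
  · have h := harmonic_le_one_add_log N
    unfold harmonic at h
    push_cast at h
    exact h

lemma jensen {p β : ℝ} (hp : 1 ≤ p) {x : ℕ → ℝ} (hx : ∀ j, 0 ≤ x j) {N : ℕ} (hN : 1 ≤ N) :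
    (∑ j ∈ Finset.range N, x j * ((j:ℝ) + 1) ^ (-β - 1)) ^ p ≤
      (1 + Real.log N) ^ (p - 1) * ∑ j ∈ Finset.range N, x j ^ p * ((j:ℝ) + 1) ^ (-1 - p * β) := by
  obtain ⟨h1, h2⟩ := harm_bounds hN
  set W := ∑ j ∈ Finset.range N, ((j:ℝ) + 1)⁻¹ with hW
  have hW0 : 0 < W := by linarith
  have hj := Real.rpow_arith_mean_le_arith_mean_rpow (Finset.range N) (fun j => ((j:ℝ) + 1)⁻¹ / W)
    (fun j => x j * ((j:ℝ) + 1) ^ (-β)) (fun j _ => by positivity)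
    (by rw [← Finset.sum_div, ← hW, div_self hW0.ne']) (fun j _ => by have := hx j; positivity) hp
  have e1 : ∑ j ∈ Finset.range N, ((j:ℝ) + 1)⁻¹ / W * (x j * ((j:ℝ) + 1) ^ (-β)) =
      (∑ j ∈ Finset.range N, x j * ((j:ℝ) + 1) ^ (-β - 1)) / W := by
    rw [Finset.sum_div]
    refine Finset.sum_congr rfl fun j _ => ?_
    rw [Real.rpow_sub_one (by positivity)]
    field_simp
  have e2 : ∑ j ∈ Finset.range N, ((j:ℝ) + 1)⁻¹ / W * (x j * ((j:ℝ) + 1) ^ (-β)) ^ p =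
      (∑ j ∈ Finset.range N, x j ^ p * ((j:ℝ) + 1) ^ (-1 - p * β)) / W := by
    rw [Finset.sum_div]
    refine Finset.sum_congr rfl fun j _ => ?_
    have hj0 : (0:ℝ) < (j:ℝ) + 1 := by positivity
    rw [Real.mul_rpow (hx j) (by positivity), ← Real.rpow_mul hj0.le]
    have : ((j:ℝ) + 1) ^ (-1 - p * β) = ((j:ℝ) + 1)⁻¹ * ((j:ℝ) + 1) ^ (-β * p) := by
      rw [← Real.rpow_neg_one, ← Real.rpow_add hj0]
      congr 1; ring
    rw [this]
    ring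
  rw [e1, e2] at hj
  set S := ∑ j ∈ Finset.range N, x j * ((j:ℝ) + 1) ^ (-β - 1) with hS
  have hS0 : 0 ≤ S := Finset.sum_nonneg fun j _ => by have := hx j; positivity
  set R := ∑ j ∈ Finset.range N, x j ^ p * ((j:ℝ) + 1) ^ (-1 - p * β) with hR
  have hR0 : 0 ≤ R := Finset.sum_nonneg fun j _ => by have := hx j; positivity
  have h3 : S ^ p ≤ W ^ (p - 1) * R := by
    rw [Real.div_rpow hS0 hW0.le, div_le_div_iff₀ (by positivity) hW0] at hj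
    have h4 : W ^ p = W ^ (p - 1) * W := by
      rw [← Real.rpow_add_one hW0.ne']; congr 1; ring
    rw [h4] at hj
    have h5 : S ^ p * W ≤ (W ^ (p - 1) * R) * W := by linarith
    exact le_of_mul_le_mul_right h5 hW0
  refine h3.trans ?_
  gcongr

/-- **The lower bound, from one zero.** -/
theorem disc_lower {ρ : ℂ} (hρ : 0 < ρ.re) (hρ1 : ρ.re < 1) (hz : riemannZeta ρ = 0) {p : ℝ} (hp : 1 ≤ p)
    {ε : ℝ} (hε : 0 < ε) (hε1 : ε ≤ 1) :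
    ∃ K : ℝ, 0 < K ∧ ∃ N0 : ℕ, ∀ n : ℕ, N0 ≤ n → ∀ c : ℕ → ℝ,
      (n:ℝ) ^ (-(max 0 (1 - p * ρ.re) + 3 * ε)) ≤ K * Dp p n c := by
  set β := ρ.re with hβ
  obtain ⟨m, hm⟩ := exists_nat_ge (5 / ε)
  have hm1 : 1 ≤ m := by
    have : (0:ℝ) < m := lt_of_lt_of_le (by positivity) hm
    exact_mod_cast this
  have hmε : 5 ≤ ε * m := by
    rw [div_le_iff₀ hε] at hm; linarith
  obtain ⟨C, hC0, hC⟩ := T_bound hρ hρ1 hz m hm1
  obtain ⟨C1, hC10, hC1⟩ := Af_diff ρ hρ.le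
  set M := max 0 (1 - p * β) with hM
  have hM0 : 0 ≤ M := le_max_left _ _
  have hM1 : M ≤ 1 := max_le (by norm_num) (by nlinarith)
  set K0 : ℝ := 2 ^ p * (C1 + 1) ^ p * (1 + p / ε) ^ (p - 1) * 18 with hK0
  have hK0pos : 0 < K0 := by positivity
  refine ⟨K0 + 1, by positivity, ⌈18 * C⌉₊ + 2, fun n hn c => ?_⟩
  have hn2 : 2 ≤ n := by omega
  have hnr : (1:ℝ) ≤ n := by exact_mod_cast (by omega : 1 ≤ n)
  have hn0 : (0:ℝ) < n := by linarith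
  have hnC : 18 * C ≤ n := by
    have := Nat.le_ceil (18 * C)
    have h2 : (⌈18 * C⌉₊ : ℝ) ≤ n := by exact_mod_cast (by omega : ⌈18 * C⌉₊ ≤ n)
    linarith
  rcases le_or_gt (Dp p n c) 1 with hD | hD
  swap
  · have h1 : (n:ℝ) ^ (-(M + 3 * ε)) ≤ 1 := Real.rpow_le_one_of_one_le_of_nonpos hnr (by linarith)
    nlinarith
  -- the truncation point
  set Λ : ℝ := (n:ℝ) ^ (1 + ε) with hΛ
  have hnΛ : (n:ℝ) ≤ Λ := by
    rw [hΛ]
    conv_lhs => rw [← Real.rpow_one (n:ℝ)]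
    exact Real.rpow_le_rpow_of_exponent_le hnr (by linarith)
  have hΛ1 : 1 ≤ Λ := hnr.trans hnΛ
  have hΛ0 : 0 < Λ := by linarith
  set N := ⌈2 * Λ⌉₊ with hN
  have hN1 : 1 ≤ N := by
    rw [hN, Nat.one_le_ceil_iff]; positivity
  have hN3 : (N:ℝ) ≤ 3 * Λ := by
    have := (Nat.ceil_lt_add_one (by positivity : 0 ≤ 2 * Λ)).le
    rw [hN]; linarith
  have hNr : (1:ℝ) ≤ N := by exact_mod_cast hN1
  have hpair := pairing (ρ := ρ) n c hΛ1
  rw [← hN] at hpair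
  -- the functional is tiny on the generators
  have hTk : ∀ k ∈ Finset.Icc 2 n, ‖(c k : ℂ) * T k (Atr ρ Λ)‖ ≤ 9 * C * (n:ℝ) ^ (-(2:ℝ)) := by
    intro k hk
    have h1 := coef_bound hp hD hk
    rw [Finset.mem_Icc] at hk
    have hk0 : (0:ℝ) < k := by exact_mod_cast (by omega : 0 < k)
    have hkn : (k:ℝ) ≤ n := by exact_mod_cast hk.2
    have h2 := hC Λ hΛ1 k (by omega)
    have h3 : (Λ / k) ^ (-(m:ℝ)) ≤ (n:ℝ) ^ (-(5:ℝ)) := by
      have h4 : (n:ℝ) ^ ε ≤ Λ / k := by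
        rw [le_div_iff₀ hk0, hΛ, add_comm, Real.rpow_add hn0, Real.rpow_one]
        gcongr
      calc (Λ / k) ^ (-(m:ℝ)) ≤ ((n:ℝ) ^ ε) ^ (-(m:ℝ)) :=
            Real.rpow_le_rpow_of_nonpos (by positivity) h4 (by simp)
        _ = (n:ℝ) ^ (-(ε * m)) := by rw [← Real.rpow_mul hn0.le]; congr 1; ring
        _ ≤ (n:ℝ) ^ (-(5:ℝ)) := Real.rpow_le_rpow_of_exponent_le hnr (by linarith)
    rw [norm_mul, Complex.norm_real, Real.norm_eq_abs]
    calc |c k| * ‖T k (Atr ρ Λ)‖ ≤ (9 * (n:ℝ) ^ 3) * (C * (n:ℝ) ^ (-(5:ℝ))) := by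
          gcongr
          exact h2.trans (by gcongr)
      _ = 9 * C * ((n:ℝ) ^ 3 * (n:ℝ) ^ (-(5:ℝ))) := by ring
      _ = 9 * C * (n:ℝ) ^ (-(2:ℝ)) := by
          congr 1
          rw [← Real.rpow_natCast, ← Real.rpow_add hn0]
          norm_num
  have hsumT : ‖∑ k ∈ Finset.Icc 2 n, (c k : ℂ) * T k (Atr ρ Λ)‖ ≤ 1 / 2 := by
    refine (norm_sum_le_of_le _ hTk).trans ?_
    rw [Finset.sum_const, nsmul_eq_mul]
    have h1 : (((Finset.Icc 2 n).card : ℕ) : ℝ) ≤ n := by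
      rw [Nat.card_Icc]
      exact_mod_cast (by omega : n + 1 - 2 ≤ n)
    have h2 : (n:ℝ) * (n:ℝ) ^ (-(2:ℝ)) = 1 / n := by
      rw [Real.rpow_neg hn0.le, show (2:ℝ) = ((2:ℕ):ℝ) by norm_num, Real.rpow_natCast]
      field_simp
    calc _ ≤ (n:ℝ) * (9 * C * (n:ℝ) ^ (-(2:ℝ))) := by gcongr
      _ = 9 * C * ((n:ℝ) * (n:ℝ) ^ (-(2:ℝ))) := by ring
      _ = 9 * C / n := by rw [h2]; ring
      _ ≤ 1 / 2 := by
          rw [div_le_div_iff₀ hn0 (by norm_num)]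
          linarith
  have hlow : 1 / 2 ≤ ‖∑ j ∈ Finset.range N, ((Er n c (j + 1) : ℝ) : ℂ) *
      (Atr ρ Λ (j + 1) - Atr ρ Λ (j + 2))‖ := by
    rw [hpair]
    have h1 := norm_sub_norm_le (1:ℂ) (∑ k ∈ Finset.Icc 2 n, (c k : ℂ) * T k (Atr ρ Λ))
    rw [norm_one] at h1
    linarith
  -- upper bound
  set S := ∑ j ∈ Finset.range N, |Er n c (j + 1)| * ((j:ℝ) + 1) ^ (-β - 1) with hS
  have hS0 : 0 ≤ S := Finset.sum_nonneg fun j _ => by positivity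
  have hup : ‖∑ j ∈ Finset.range N, ((Er n c (j + 1) : ℝ) : ℂ) *
      (Atr ρ Λ (j + 1) - Atr ρ Λ (j + 2))‖ ≤ (C1 + 1) * S := by
    rw [hS, Finset.mul_sum]
    refine norm_sum_le_of_le _ fun j _ => ?_
    rw [norm_mul, Complex.norm_real, Real.norm_eq_abs]
    have h1 := hC1 Λ hΛ0 ((j:ℝ) + 1) (by positivity)
    have h2 : ‖Atr ρ Λ (j + 1) - Atr ρ Λ (j + 2)‖ ≤ C1 * ((j:ℝ) + 1) ^ (-β - 1) := by
      unfold Atr
      have e : (((j + 2 : ℕ)) : ℝ) = (j:ℝ) + 1 + 1 := by push_cast; ring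
      have e' : (((j + 1 : ℕ)) : ℝ) = (j:ℝ) + 1 := by push_cast; ring
      rw [e, e']
      exact h1
    calc |Er n c (j + 1)| * ‖Atr ρ Λ (j + 1) - Atr ρ Λ (j + 2)‖
        ≤ |Er n c (j + 1)| * ((C1 + 1) * ((j:ℝ) + 1) ^ (-β - 1)) := by
          gcongr
          refine h2.trans ?_
          gcongr
          linarith
      _ = _ := by ring
  have hjen := jensen (β := β) hp (x := fun j => |Er n c (j + 1)|) (fun j => abs_nonneg _) hN1
  rw [← hS] at hjen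
  have hsumD : ∑ j ∈ Finset.range N, |Er n c (j + 1)| ^ p * ((j:ℝ) + 1) ^ (-1 - p * β) ≤
      2 * (N:ℝ) ^ M * Dp p n c := by
    have h1 : ∀ j ∈ Finset.range N, |Er n c (j + 1)| ^ p * ((j:ℝ) + 1) ^ (-1 - p * β) ≤
        2 * (N:ℝ) ^ M * (|Er n c (j + 1)| ^ p / (((j:ℝ) + 1) * ((j:ℝ) + 2))) := by
      intro j hj
      rw [Finset.mem_range] at hj
      have hj0 : (0:ℝ) < (j:ℝ) + 1 := by positivity
      have hj1 : (1:ℝ) ≤ (j:ℝ) + 1 := by linarith [Nat.cast_nonneg (α := ℝ) j]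
      have hjN : (j:ℝ) + 1 ≤ N := by exact_mod_cast hj
      have e1 : ((j:ℝ) + 1) ^ (-1 - p * β) = ((j:ℝ) + 1) ^ (1 - p * β) * (1 / ((j:ℝ) + 1) ^ 2) := by
        rw [show (1:ℝ) / ((j:ℝ) + 1) ^ 2 = ((j:ℝ) + 1) ^ (-(2:ℝ)) by
          rw [Real.rpow_neg hj0.le, show (2:ℝ) = ((2:ℕ):ℝ) by norm_num, Real.rpow_natCast, one_div],
          ← Real.rpow_add hj0]
        congr 1; ring
      have e2 : ((j:ℝ) + 1) ^ (1 - p * β) ≤ (N:ℝ) ^ M :=
        (Real.rpow_le_rpow_of_exponent_le hj1 (le_max_right _ _)).trans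
          (Real.rpow_le_rpow hj0.le hjN hM0)
      have e3 : 1 / ((j:ℝ) + 1) ^ 2 ≤ 2 / (((j:ℝ) + 1) * ((j:ℝ) + 2)) := by
        rw [div_le_div_iff₀ (by positivity) (by positivity)]
        nlinarith
      rw [e1]
      calc |Er n c (j + 1)| ^ p * (((j:ℝ) + 1) ^ (1 - p * β) * (1 / ((j:ℝ) + 1) ^ 2))
          ≤ |Er n c (j + 1)| ^ p * ((N:ℝ) ^ M * (2 / (((j:ℝ) + 1) * ((j:ℝ) + 2)))) := by gcongr
        _ = _ := by ring
    calc _ ≤ ∑ j ∈ Finset.range N, 2 * (N:ℝ) ^ M * (|Er n c (j + 1)| ^ p / (((j:ℝ) + 1) * ((j:ℝ) + 2))) :=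
          Finset.sum_le_sum h1
      _ = 2 * (N:ℝ) ^ M * ∑ j ∈ Finset.range N, |Er n c (j + 1)| ^ p / (((j:ℝ) + 1) * ((j:ℝ) + 2)) := by
          rw [Finset.mul_sum]
      _ ≤ 2 * (N:ℝ) ^ M * Dp p n c := by
          gcongr
          exact (Dp_summable (by linarith) n c).sum_le_tsum _ (fun j _ => by positivity)
  -- logs
  have hlog : (1 + Real.log N) ^ (p - 1) ≤ (1 + p / ε) ^ (p - 1) * (N:ℝ) ^ ε := by
    have hp0 : 0 < p := by linarith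
    have h1 := Real.log_le_rpow_div (x := (N:ℝ)) (ε := ε / p) (by linarith) (by positivity)
    have h2 : (1:ℝ) ≤ (N:ℝ) ^ (ε / p) := Real.one_le_rpow hNr (by positivity)
    have h3 : 1 + Real.log N ≤ (1 + p / ε) * (N:ℝ) ^ (ε / p) := by
      have : (N:ℝ) ^ (ε / p) / (ε / p) = p / ε * (N:ℝ) ^ (ε / p) := by
        field_simp
      rw [this] at h1
      linarith
    have hlogN : 0 ≤ Real.log N := Real.log_nonneg hNr
    calc (1 + Real.log N) ^ (p - 1) ≤ ((1 + p / ε) * (N:ℝ) ^ (ε / p)) ^ (p - 1) :=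
          Real.rpow_le_rpow (by linarith) h3 (by linarith)
      _ = (1 + p / ε) ^ (p - 1) * (N:ℝ) ^ (ε / p * (p - 1)) := by
          rw [Real.mul_rpow (by positivity) (by positivity), ← Real.rpow_mul (by linarith)]
      _ ≤ _ := by
          gcongr
          rw [div_mul_eq_mul_div, div_le_iff₀ hp0]
          nlinarith
  have hD0 := Dp_nonneg p n c
  have hchain : (1 / 2 : ℝ) ^ p ≤ (C1 + 1) ^ p * ((1 + p / ε) ^ (p - 1) * (N:ℝ) ^ ε *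
      (2 * (N:ℝ) ^ M * Dp p n c)) := by
    calc (1 / 2 : ℝ) ^ p ≤ ((C1 + 1) * S) ^ p :=
          Real.rpow_le_rpow (by norm_num) (hlow.trans hup) (by linarith)
      _ = (C1 + 1) ^ p * S ^ p := Real.mul_rpow (by positivity) hS0
      _ ≤ _ := by
          gcongr
          refine hjen.trans ?_
          have hlogN : 0 ≤ 1 + Real.log N := by have := Real.log_nonneg hNr; linarith
          gcongr
  have hNpow : (N:ℝ) ^ ε * (N:ℝ) ^ M ≤ 9 * (n:ℝ) ^ (M + 3 * ε) := by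
    rw [← Real.rpow_add (by linarith)]
    calc (N:ℝ) ^ (ε + M) ≤ (3 * Λ) ^ (ε + M) := Real.rpow_le_rpow (by linarith) hN3 (by linarith)
      _ = 3 ^ (ε + M) * Λ ^ (ε + M) := Real.mul_rpow (by norm_num) hΛ0.le
      _ ≤ 9 * (n:ℝ) ^ (M + 3 * ε) := by
          have a1 : (3:ℝ) ^ (ε + M) ≤ 9 := by
            calc (3:ℝ) ^ (ε + M) ≤ 3 ^ (2:ℝ) := Real.rpow_le_rpow_of_exponent_le (by norm_num) (by linarith)
              _ = 9 := by norm_num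
          have a2 : Λ ^ (ε + M) ≤ (n:ℝ) ^ (M + 3 * ε) := by
            rw [hΛ, ← Real.rpow_mul hn0.le]
            apply Real.rpow_le_rpow_of_exponent_le hnr
            nlinarith
          gcongr
  have hfin : 1 ≤ K0 * (n:ℝ) ^ (M + 3 * ε) * Dp p n c := by
    have h2p : (2:ℝ) ^ p * (1 / 2) ^ p = 1 := by
      rw [← Real.mul_rpow (by norm_num) (by norm_num)]; norm_num
    calc (1:ℝ) = 2 ^ p * (1 / 2) ^ p := h2p.symm
      _ ≤ 2 ^ p * ((C1 + 1) ^ p * ((1 + p / ε) ^ (p - 1) * (N:ℝ) ^ ε * (2 * (N:ℝ) ^ M * Dp p n c))) := by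
          gcongr
      _ = 2 ^ p * (C1 + 1) ^ p * (1 + p / ε) ^ (p - 1) * 2 * ((N:ℝ) ^ ε * (N:ℝ) ^ M) * Dp p n c := by ring
      _ ≤ 2 ^ p * (C1 + 1) ^ p * (1 + p / ε) ^ (p - 1) * 2 * (9 * (n:ℝ) ^ (M + 3 * ε)) * Dp p n c := by
          gcongr
      _ = K0 * (n:ℝ) ^ (M + 3 * ε) * Dp p n c := by rw [hK0]; ring
  have hpos : 0 < (n:ℝ) ^ (M + 3 * ε) := by positivity
  rw [Real.rpow_neg hn0.le]
  rw [inv_le_iff_one_le_mul₀ hpos]
  nlinarith [mul_nonneg hpos.le hD0]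

end

end Pool.Agent.K3h56.BN
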