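import Pool.Agent.K3h56.BN.Coef
import Pool.Agent.K3h56.BN.Ker

/-! The Möbius coefficients: identities and the bound from T5. -/

set_option autoImplicit false

open MeasureTheory Filter Topology Set
open Pool.Agent.H295R2 (mu abs_mu_le Zs)

namespace Pool.Agent.K3h56.BN

noncomputable section

/-- the coefficients `-μ(k)` -/
def cmu (k : ℕ) : ℝ := -mu k

/-- `m(n) = ∑_{k ≤ n} μ(k)/k` -/
def mn (n : ℕ) : ℝ := ∑ k ∈ Finset.Icc 1 n, mu k / k

lemma mu_one : mu 1 = 1 := by unfold mu; simp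
lemma mu_zero : mu 0 = 0 := by unfold mu; simp

lemma Icc_split {n : ℕ} (hn : 1 ≤ n) (f : ℕ → ℝ) :
    ∑ k ∈ Finset.Icc 1 n, f k = f 1 + ∑ k ∈ Finset.Icc 2 n, f k := by
  rw [← Finset.add_sum_Ioc_eq_sum_Icc hn]
  rfl

lemma Er_cmu {n : ℕ} (hn : 1 ≤ n) (j : ℕ) :
    Er n cmu j = 1 + j * mn n - ∑ k ∈ Finset.Icc 1 n, mu k * ((j / k : ℕ) : ℝ) := by
  unfold Er cmu mn
  rw [Finset.mul_sum, add_sub_assoc, ← Finset.sum_sub_distrib, Icc_split hn]
  have h1 : (j:ℝ) * (mu 1 / ((1:ℕ):ℝ)) - mu 1 * ((j / 1 : ℕ) : ℝ) = 0 := by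
    rw [mu_one]; simp
  rw [h1, zero_add, sub_eq_add_neg, ← Finset.sum_neg_distrib]
  congr 1
  refine Finset.sum_congr rfl fun k hk => ?_
  rw [Finset.mem_Icc] at hk
  rw [fr_nat (by omega)]
  ring

lemma sum_mu_divisors {j : ℕ} (_hj : 0 < j) : ∑ d ∈ j.divisors, mu d = if j = 1 then 1 else 0 := by
  have h := congrArg (fun f : ArithmeticFunction ℤ => f j) ArithmeticFunction.moebius_mul_coe_zeta
  simp only [ArithmeticFunction.coe_mul_zeta_apply, ArithmeticFunction.one_apply] at h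
  unfold mu
  exact_mod_cast h

lemma floor_sum {n : ℕ} : ∀ {j : ℕ}, 1 ≤ j → j ≤ n →
    ∑ k ∈ Finset.Icc 1 n, mu k * ((j / k : ℕ) : ℝ) = 1 := by
  have key : ∀ j : ℕ, j ≤ n → ∑ k ∈ Finset.Icc 1 n, mu k * ((j / k : ℕ) : ℝ) = if j = 0 then 0 else 1 := by
    intro j
    induction j with
    | zero => intro _; simp
    | succ j ih =>
      intro hj
      have h1 : ∑ k ∈ Finset.Icc 1 n, mu k * (((j + 1) / k : ℕ) : ℝ) =
          ∑ k ∈ Finset.Icc 1 n, mu k * ((j / k : ℕ) : ℝ) + ∑ d ∈ (j + 1).divisors, mu d := by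
        have h2 : (j + 1).divisors = (Finset.Icc 1 n).filter (fun k => k ∣ j + 1) := by
          ext k
          simp only [Nat.mem_divisors, Finset.mem_filter, Finset.mem_Icc]
          constructor
          · rintro ⟨h3, h4⟩
            have := Nat.le_of_dvd (by omega) h3
            have := Nat.pos_of_dvd_of_pos h3 (by omega)
            exact ⟨⟨by omega, by omega⟩, h3⟩
          · rintro ⟨_, h3⟩
            exact ⟨h3, by omega⟩
        rw [h2, Finset.sum_filter, ← Finset.sum_add_distrib]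
        refine Finset.sum_congr rfl fun k _ => ?_
        rw [Nat.succ_div]
        split_ifs <;> push_cast <;> ring
      rw [h1, ih (by omega), sum_mu_divisors (by omega)]
      by_cases hj0 : j = 0
      · subst hj0; simp
      · rw [if_neg hj0, if_neg (by omega), if_neg (by omega)]; simp
  intro j hj hjn
  rw [key j hjn, if_neg (by omega)]

lemma Er_cmu_small {n j : ℕ} (hj : 1 ≤ j) (hjn : j ≤ n) : Er n cmu j = j * mn n := by
  rw [Er_cmu (by omega), floor_sum hj hjn]; ring

lemma mn_abs_le {n : ℕ} (hn : 1 ≤ n) : |mn n| ≤ 1 := by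
  have h1 := Er_cmu_small hn le_rfl
  have h2 := Er_abs_le n cmu n
  have h3 : ∑ k ∈ Finset.Icc 2 n, |cmu k| ≤ (n:ℝ) - 1 := by
    calc ∑ k ∈ Finset.Icc 2 n, |cmu k| ≤ ∑ k ∈ Finset.Icc 2 n, (1:ℝ) := by
          refine Finset.sum_le_sum fun k _ => ?_
          unfold cmu
          rw [abs_neg]; exact abs_mu_le k
      _ = (n:ℝ) - 1 := by
          rw [Finset.sum_const, Nat.card_Icc, nsmul_eq_mul, mul_one]
          have : n + 1 - 2 = n - 1 := by omega
          rw [this, Nat.cast_sub hn]; simp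
  rw [h1, abs_mul, Nat.abs_cast] at h2
  have hn0 : (0:ℝ) < n := by exact_mod_cast hn
  have h4 : (n:ℝ) * |mn n| ≤ n * 1 := by linarith
  exact le_of_mul_le_mul_left h4 hn0

/-- double average of `e^u - D` -/
lemma avg2_exp {η : ℝ} (hη : 0 < η) {k : ℝ → ℂ} {u D : ℝ}
    (h : ∀ v : ℝ, 0 ≤ v → v ≤ 2 * η → k (u + v) = ((Real.exp (u + v) - D : ℝ) : ℂ)) :
    H295R2.avg η (H295R2.avg η k) u = ((Real.exp u * ((Real.exp η - 1) / η) ^ 2 - D : ℝ) : ℂ) := by
  have hη' : (η:ℂ) ≠ 0 := by exact_mod_cast hη.ne'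
  have inner : ∀ v : ℝ, 0 ≤ v → v ≤ η → H295R2.avg η k (u + v) =
      ((Real.exp (u + v) * ((Real.exp η - 1) / η) - D : ℝ) : ℂ) := by
    intro v hv0 hv1
    unfold H295R2.avg
    have e1 : ∫ w in (0:ℝ)..η, k (u + v + w) = ∫ w in (0:ℝ)..η, ((Real.exp (u + v + w) - D : ℝ) : ℂ) := by
      apply intervalIntegral.integral_congr
      intro w hw
      rw [uIcc_of_le hη.le] at hw
      have := h (v + w) (by linarith [hw.1]) (by linarith [hw.2])
      rw [← add_assoc] at this
      exact this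
    rw [e1, intervalIntegral.integral_ofReal, intervalIntegral.integral_sub, intervalIntegral.integral_const]
    · have e2 : ∫ w in (0:ℝ)..η, Real.exp (u + v + w) = Real.exp (u + v) * (Real.exp η - 1) := by
        simp_rw [Real.exp_add (u + v)]
        rw [intervalIntegral.integral_const_mul, integral_exp, Real.exp_zero]
      rw [e2]
      push_cast
      field_simp
      simp
    · exact Continuous.intervalIntegrable (by fun_prop) _ _
    · exact intervalIntegrable_const
  conv_lhs => unfold H295R2.avg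
  change (1 / (η:ℂ)) * (∫ v in (0:ℝ)..η, H295R2.avg η k (u + v)) = _
  have e1 : ∫ v in (0:ℝ)..η, H295R2.avg η k (u + v) =
      ∫ v in (0:ℝ)..η, ((Real.exp (u + v) * ((Real.exp η - 1) / η) - D : ℝ) : ℂ) := by
    apply intervalIntegral.integral_congr
    intro v hv
    rw [uIcc_of_le hη.le] at hv
    exact inner v hv.1 hv.2
  rw [e1, intervalIntegral.integral_ofReal, intervalIntegral.integral_sub, intervalIntegral.integral_const]
  · have e2 : ∫ v in (0:ℝ)..η, Real.exp (u + v) * ((Real.exp η - 1) / η) =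
        Real.exp u * (Real.exp η - 1) * ((Real.exp η - 1) / η) := by
      simp_rw [Real.exp_add u]
      rw [intervalIntegral.integral_mul_const, intervalIntegral.integral_const_mul, integral_exp, Real.exp_zero]
    rw [e2]
    push_cast
    field_simp
    simp only [sub_zero, smul_eq_mul]
    push_cast
    ring
  · exact Continuous.intervalIntegrable (by fun_prop) _ _
  · exact intervalIntegrable_const

lemma avg2_zero {η : ℝ} (hη : 0 < η) {k : ℝ → ℂ} {u : ℝ}
    (h : ∀ v : ℝ, 0 ≤ v → v ≤ 2 * η → k (u + v) = 0) :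
    H295R2.avg η (H295R2.avg η k) u = 0 := by
  have inner : ∀ v : ℝ, 0 ≤ v → v ≤ η → H295R2.avg η k (u + v) = 0 := by
    intro v hv0 hv1
    unfold H295R2.avg
    have e1 : ∫ w in (0:ℝ)..η, k (u + v + w) = ∫ w in (0:ℝ)..η, (0:ℂ) := by
      apply intervalIntegral.integral_congr
      intro w hw
      rw [uIcc_of_le hη.le] at hw
      have := h (v + w) (by linarith [hw.1]) (by linarith [hw.2])
      rw [← add_assoc] at this
      exact this
    rw [e1]; simp
  conv_lhs => unfold H295R2.avg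
  change (1 / (η:ℂ)) * (∫ v in (0:ℝ)..η, H295R2.avg η k (u + v)) = _
  have e1 : ∫ v in (0:ℝ)..η, H295R2.avg η k (u + v) = ∫ v in (0:ℝ)..η, (0:ℂ) := by
    apply intervalIntegral.integral_congr
    intro v hv
    rw [uIcc_of_le hη.le] at hv
    exact inner v hv.1 hv.2
  rw [e1]; simp

end

end Pool.Agent.K3h56.BN
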