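import Mathlib

/-! Poisson summation for dilates of a smooth compactly supported function. -/

set_option autoImplicit false

open MeasureTheory Filter Topology Set
open scoped ContDiff FourierTransform SchwartzMap

namespace Pool.Agent.K3h56.BN

lemma fourier_dilate (g : ℝ → ℂ) {L : ℝ} (hL : 0 < L) (ξ : ℝ) :
    𝓕 (fun x : ℝ => g (x / L)) ξ = (L : ℂ) * 𝓕 g (L * ξ) := by
  rw [Real.fourier_real_eq_integral_exp_smul, Real.fourier_real_eq_integral_exp_smul]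
  have h := Measure.integral_comp_div (fun v : ℝ => Complex.exp (↑(-2 * Real.pi * v * (L * ξ)) * Complex.I) • g v) L
  rw [abs_of_pos hL] at h
  rw [← Complex.real_smul, ← h]
  congr 1
  ext v
  have : (-2 * Real.pi * (v / L) * (L * ξ)) = -2 * Real.pi * v * ξ := by
    field_simp
  rw [this]

/-- the dilated Poisson formula with error -/
theorem poisson_dilate (g : ℝ → ℂ) (h₁ : HasCompactSupport g) (h₂ : ContDiff ℝ ∞ g) (m : ℕ) (hm : 2 ≤ m) :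
    ∃ C : ℝ, 0 ≤ C ∧ ∀ L : ℝ, 0 < L →
      ‖(∑' i : ℤ, g (i / L)) - (L : ℂ) * ∫ v, g v‖ ≤ C * L * L ^ (-(m : ℝ)) := by
  set G : 𝓢(ℝ, ℂ) := h₁.toSchwartzMap h₂ with hG
  obtain ⟨C, hC0, hC⟩ := (𝓕 G).decay m 0
  have hdec : ∀ x : ℝ, |x| ^ m * ‖𝓕 g x‖ ≤ C := by
    intro x
    have := hC x
    rw [norm_iteratedFDeriv_zero, SchwartzMap.fourier_coe] at this
    exact this
  have hs1 : Summable (fun n : ℤ => |(n:ℝ)| ^ (-(m:ℝ))) :=
    Real.summable_abs_int_rpow (by exact_mod_cast (by omega : 1 < m))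
  set S : ℝ := ∑' n : ℤ, |(n:ℝ)| ^ (-(m:ℝ)) with hS
  have hS0 : 0 ≤ S := tsum_nonneg fun n => by positivity
  refine ⟨C * S, by positivity, fun L hL => ?_⟩
  -- the dilated Schwartz function
  have h1' : HasCompactSupport (fun x : ℝ => g (x / L)) := by
    have := h₁.comp_homeomorph (Homeomorph.mulRight₀ (L⁻¹) (inv_ne_zero hL.ne'))
    exact this
  have h2' : ContDiff ℝ ∞ (fun x : ℝ => g (x / L)) := h₂.comp (contDiff_id.div_const L)
  set F : 𝓢(ℝ, ℂ) := h1'.toSchwartzMap h2' with hF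
  have hP := SchwartzMap.tsum_eq_tsum_fourier F 0
  have e1 : ∀ n : ℤ, F (0 + (n:ℝ)) = g (n / L) := by
    intro n; rw [zero_add]; rfl
  have e2 : ∀ n : ℤ, (𝓕 F) (n:ℝ) * fourier n ((0:ℝ) : UnitAddCircle) = (L:ℂ) * 𝓕 g (L * n) := by
    intro n
    have : (𝓕 F) (n:ℝ) = 𝓕 (fun x : ℝ => g (x / L)) (n:ℝ) := by
      rw [SchwartzMap.fourier_coe]; rfl
    rw [this, fourier_dilate g hL]
    simp
  have hP' : ∑' n : ℤ, g (n / L) = ∑' n : ℤ, (L:ℂ) * 𝓕 g (L * n) := by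
    have : ∑' n : ℤ, F (0 + (n:ℝ)) = ∑' n : ℤ, (𝓕 F) (n:ℝ) * fourier n ((0:ℝ) : UnitAddCircle) := hP
    simp_rw [e1, e2] at this
    exact this
  rw [hP']
  have hb : ∀ n : ℤ, n ≠ 0 → ‖(L:ℂ) * 𝓕 g (L * n)‖ ≤ (C * L * L ^ (-(m:ℝ))) * |(n:ℝ)| ^ (-(m:ℝ)) := by
    intro n hn
    have hn' : 0 < |(n:ℝ)| := abs_pos.mpr (by exact_mod_cast hn)
    have h3 := hdec (L * n)
    rw [abs_mul, abs_of_pos hL, mul_pow] at h3
    rw [norm_mul, Complex.norm_real, Real.norm_of_nonneg hL.le, Real.rpow_neg hL.le, Real.rpow_neg hn'.le,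
      Real.rpow_natCast, Real.rpow_natCast]
    have h4 : ‖𝓕 g (L * n)‖ ≤ C / (L ^ m * |(n:ℝ)| ^ m) := by
      rw [le_div_iff₀ (by positivity)]
      linarith
    calc L * ‖𝓕 g (L * n)‖ ≤ L * (C / (L ^ m * |(n:ℝ)| ^ m)) := by gcongr
      _ = _ := by field_simp
  have hb' : ∀ n : ℤ, ‖if n = 0 then 0 else (L:ℂ) * 𝓕 g (L * n)‖ ≤
      (C * L * L ^ (-(m:ℝ))) * |(n:ℝ)| ^ (-(m:ℝ)) := by
    intro n
    by_cases hn : n = 0
    · rw [if_pos hn, norm_zero]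
      positivity
    · rw [if_neg hn]
      exact hb n hn
  have hsum' : Summable (fun n : ℤ => if n = 0 then (0:ℂ) else (L:ℂ) * 𝓕 g (L * n)) :=
    Summable.of_norm_bounded (hs1.mul_left _) hb'
  have hsum : Summable (fun n : ℤ => (L:ℂ) * 𝓕 g (L * n)) := by
    refine (summable_congr_cofinite ?_).mp hsum'
    rw [Filter.EventuallyEq, Filter.eventually_cofinite]
    refine (Set.finite_singleton (0:ℤ)).subset ?_
    intro n hn
    by_contra hne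
    rw [Set.mem_singleton_iff] at hne
    apply hn
    simp [hne]
  rw [hsum.tsum_eq_add_tsum_ite 0]
  have e0 : (L:ℂ) * 𝓕 g (L * ((0:ℤ):ℝ)) = (L:ℂ) * ∫ v, g v := by
    congr 1
    rw [Real.fourier_real_eq_integral_exp_smul]
    simp
  rw [e0, add_sub_cancel_left]
  calc ‖∑' n : ℤ, if n = 0 then (0:ℂ) else (L:ℂ) * 𝓕 g (L * n)‖
      ≤ ∑' n : ℤ, (C * L * L ^ (-(m:ℝ))) * |(n:ℝ)| ^ (-(m:ℝ)) :=
        tsum_of_norm_bounded (hs1.mul_left _).hasSum hb'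
    _ = C * S * L * L ^ (-(m:ℝ)) := by rw [tsum_mul_left]; ring

end Pool.Agent.K3h56.BN
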