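import Pool.Agent.K3h56.BN.Van

/-! `∫_1^∞ ({θy} - θ{y}) y^(-ρ-1) dy = 0` for a zero `ρ` and `0 < θ ≤ 1`. -/

set_option autoImplicit false

open MeasureTheory Filter Topology Set

namespace Pool.Agent.K3h56.BN

noncomputable section

lemma frac_int_one {ρ : ℂ} (hρ : 0 < ρ.re) (hρ1 : ρ.re < 1) (hz : riemannZeta ρ = 0) :
    ∫ t in Ioi (1:ℝ), ((Int.fract t : ℝ) : ℂ) * (t : ℂ) ^ (-(ρ + 1)) = 1 / (ρ - 1) := by
  have h1 : ρ ≠ 1 := by rintro rfl; simp at hρ1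
  have h0 : ρ ≠ 0 := by rintro rfl; simp at hρ
  rw [← H295R2.Hf_eq]
  have h2 := H295R2.Zs_eq_Zt hρ
  have h3 := H295R2.Zs_eq h1
  rw [hz, mul_zero] at h3
  rw [← h3] at h2
  unfold H295R2.Zt at h2
  have h4 : ρ - 1 ≠ 0 := sub_ne_zero.mpr h1
  have h5 : ρ * (1 - (ρ - 1) * H295R2.Hf ρ) = 0 := by rw [h2]; ring
  have h6 := (mul_eq_zero.mp h5).resolve_left h0
  rw [eq_div_iff h4]
  linear_combination -h6

lemma bdd_cpow_integrableOn {ρ : ℂ} (hρ : 0 < ρ.re) {f : ℝ → ℝ} (hf : Measurable f) {B : ℝ}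
    (hB : ∀ x, |f x| ≤ B) {a : ℝ} (ha : 0 < a) :
    IntegrableOn (fun t : ℝ => ((f t : ℝ) : ℂ) * (t : ℂ) ^ (-(ρ + 1))) (Ioi a) := by
  have h1 : IntegrableOn (fun t : ℝ => B * t ^ (-(ρ.re + 1))) (Ioi a) :=
    (integrableOn_Ioi_rpow_of_lt (by linarith) ha).const_mul B
  refine h1.mono' ?_ ?_
  · refine AEStronglyMeasurable.mul ?_ ?_
    · exact (Complex.measurable_ofReal.comp hf).aestronglyMeasurable
    · refine ContinuousOn.aestronglyMeasurable (fun t ht => ?_) measurableSet_Ioi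
      have ht0 : 0 < t := lt_trans ha ht
      exact (Complex.continuousAt_ofReal_cpow_const t _ (Or.inr ht0.ne')).continuousWithinAt
  · refine (ae_restrict_iff' measurableSet_Ioi).mpr (Eventually.of_forall fun t ht => ?_)
    have ht0 : 0 < t := lt_trans ha ht
    rw [norm_mul, Complex.norm_real, Real.norm_eq_abs, Complex.norm_cpow_eq_rpow_re_of_pos ht0]
    have : (-(ρ + 1)).re = -(ρ.re + 1) := by simp
    rw [this]
    exact mul_le_mul_of_nonneg_right (hB t) (by positivity)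

lemma frac_int_theta {ρ : ℂ} (hρ : 0 < ρ.re) (hρ1 : ρ.re < 1) (hz : riemannZeta ρ = 0) {θ : ℝ}
    (hθ : 0 < θ) (hθ1 : θ ≤ 1) :
    ∫ t in Ioi (1:ℝ), ((Int.fract (θ * t) : ℝ) : ℂ) * (t : ℂ) ^ (-(ρ + 1)) = θ / (ρ - 1) := by
  have h1 : ρ ≠ 1 := by rintro rfl; simp at hρ1
  have hρ1' : ρ - 1 ≠ 0 := sub_ne_zero.mpr h1
  have hs1 : 1 - ρ ≠ 0 := by
    intro h; apply h1; linear_combination -h
  have hθc : (θ : ℂ) ≠ 0 := by exact_mod_cast hθ.ne'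
  set F : ℝ → ℂ := fun t => (θ:ℂ) ^ (ρ + 1) * (((Int.fract t : ℝ) : ℂ) * (t : ℂ) ^ (-(ρ + 1))) with hF
  have e1 : ∫ t in Ioi (1:ℝ), ((Int.fract (θ * t) : ℝ) : ℂ) * (t : ℂ) ^ (-(ρ + 1)) =
      ∫ t in Ioi (1:ℝ), F (θ * t) := by
    refine setIntegral_congr_fun measurableSet_Ioi fun t ht => ?_
    simp only [hF]
    have ht0 : (0:ℝ) < t := lt_trans one_pos ht
    have e : ((θ * t : ℝ) : ℂ) ^ (-(ρ + 1)) = (θ:ℂ) ^ (-(ρ + 1)) * (t:ℂ) ^ (-(ρ + 1)) := by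
      rw [Complex.ofReal_mul, Complex.mul_cpow_ofReal_nonneg hθ.le ht0.le]
    have e2 : (θ:ℂ) ^ (ρ + 1) * (θ:ℂ) ^ (-(ρ + 1)) = 1 := by
      rw [← Complex.cpow_add _ _ hθc]; simp
    rw [e]
    linear_combination (-((Int.fract (θ * t) : ℝ) : ℂ) * (t:ℂ) ^ (-(ρ + 1))) * e2
  rw [e1, integral_comp_mul_left_Ioi F 1 hθ, mul_one]
  simp only [hF]
  rw [integral_const_mul]
  have hint := bdd_cpow_integrableOn (ρ := ρ) hρ (f := Int.fract) measurable_fract (B := 1)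
    (fun x => by rw [abs_of_nonneg (Int.fract_nonneg x)]; exact (Int.fract_lt_one x).le) hθ
  have hsplit : ∫ t in Ioi θ, ((Int.fract t : ℝ) : ℂ) * (t : ℂ) ^ (-(ρ + 1)) =
      (∫ t in θ..1, ((Int.fract t : ℝ) : ℂ) * (t : ℂ) ^ (-(ρ + 1))) +
      ∫ t in Ioi (1:ℝ), ((Int.fract t : ℝ) : ℂ) * (t : ℂ) ^ (-(ρ + 1)) := by
    rw [intervalIntegral.integral_of_le hθ1, ← setIntegral_union]
    · rw [Ioc_union_Ioi_eq_Ioi hθ1]
    · exact Set.Ioc_disjoint_Ioi le_rfl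
    · exact measurableSet_Ioi
    · exact hint.mono_set fun x hx => hx.1
    · exact hint.mono_set fun x hx => lt_of_le_of_lt hθ1 hx
  have hmid : ∫ t in θ..1, ((Int.fract t : ℝ) : ℂ) * (t : ℂ) ^ (-(ρ + 1)) =
      ∫ t in θ..1, (t : ℂ) ^ (-ρ) := by
    refine intervalIntegral.integral_congr_ae ?_
    rw [uIoc_of_le hθ1]
    have hne : ∀ᵐ t : ℝ, t ≠ 1 := by rw [ae_iff]; simp
    filter_upwards [hne] with t ht ht2
    have ht0 : 0 < t := lt_trans hθ ht2.1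
    have ht3 : t < 1 := lt_of_le_of_ne ht2.2 ht
    rw [Int.fract_eq_self.mpr ⟨ht0.le, ht3⟩]
    have ht0' : (t:ℂ) ≠ 0 := by exact_mod_cast ht0.ne'
    have : -ρ = 1 + -(ρ + 1) := by ring
    rw [this, Complex.cpow_add _ _ ht0', Complex.cpow_one]
  have hmid2 : ∫ t in θ..1, (t : ℂ) ^ (-ρ) = (1 - (θ:ℂ) ^ (1 - ρ)) / (1 - ρ) := by
    rw [integral_cpow]
    · have e : -ρ + 1 = 1 - ρ := by ring
      rw [e]; simp
    · left
      simp only [Complex.neg_re]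
      linarith
  rw [hsplit, hmid, hmid2, frac_int_one hρ hρ1 hz, Complex.real_smul, Complex.ofReal_inv]
  have e3 : (θ:ℂ) ^ (ρ + 1) = (θ:ℂ) * (θ:ℂ) ^ ρ := by
    rw [Complex.cpow_add _ _ hθc, Complex.cpow_one]; ring
  have e4 : (θ:ℂ) ^ ρ * (θ:ℂ) ^ (1 - ρ) = θ := by
    rw [← Complex.cpow_add _ _ hθc]; simp
  rw [e3]
  have e5 : (1:ℂ) / (ρ - 1) = -(1 / (1 - ρ)) := by
    field_simp
    ring
  have e6 : (θ:ℂ) / (ρ - 1) = -(θ / (1 - ρ)) := by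
    field_simp
    ring
  rw [e5, e6]
  field_simp
  linear_combination -e4

/-- the kernel `{θy} - θ{y}` -/
def kth (θ y : ℝ) : ℝ := Int.fract (θ * y) - θ * Int.fract y

lemma kth_abs {θ y : ℝ} (h0 : 0 ≤ θ) (h1 : θ ≤ 1) : |kth θ y| ≤ 1 := by
  unfold kth
  have a1 := Int.fract_nonneg (θ * y)
  have a2 := (Int.fract_lt_one (θ * y)).le
  have a3 := Int.fract_nonneg y
  have a4 := (Int.fract_lt_one y).le
  rw [abs_le]
  constructor <;> nlinarith [mul_nonneg h0 a3, mul_le_mul h1 a4 a3 zero_le_one]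

lemma kth_meas (θ : ℝ) : Measurable (kth θ) := by
  unfold kth
  exact (measurable_fract.comp (measurable_const_mul θ)).sub (measurable_fract.const_mul θ)

theorem kth_vanish {ρ : ℂ} (hρ : 0 < ρ.re) (hρ1 : ρ.re < 1) (hz : riemannZeta ρ = 0) {θ : ℝ}
    (hθ : 0 < θ) (hθ1 : θ ≤ 1) :
    ∫ t in Ioi (1:ℝ), ((kth θ t : ℝ) : ℂ) * (t : ℂ) ^ (-(ρ + 1)) = 0 := by
  have i1 := bdd_cpow_integrableOn (ρ := ρ) hρ (f := Int.fract) measurable_fract (B := 1)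
    (fun x => by rw [abs_of_nonneg (Int.fract_nonneg x)]; exact (Int.fract_lt_one x).le) one_pos
  have i2 := bdd_cpow_integrableOn (ρ := ρ) hρ (f := fun t => Int.fract (θ * t))
    (measurable_fract.comp (measurable_const_mul θ)) (B := 1)
    (fun x => by rw [abs_of_nonneg (Int.fract_nonneg _)]; exact (Int.fract_lt_one _).le) one_pos
  have e : ∀ t : ℝ, ((kth θ t : ℝ) : ℂ) * (t : ℂ) ^ (-(ρ + 1)) =
      ((Int.fract (θ * t) : ℝ) : ℂ) * (t : ℂ) ^ (-(ρ + 1)) -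
      (θ:ℂ) * (((Int.fract t : ℝ) : ℂ) * (t : ℂ) ^ (-(ρ + 1))) := by
    intro t
    unfold kth
    push_cast
    ring
  simp_rw [e]
  rw [integral_sub i2 (i1.const_mul _), integral_const_mul, frac_int_theta hρ hρ1 hz hθ hθ1,
    frac_int_one hρ hρ1 hz]
  ring

end

end Pool.Agent.K3h56.BN
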