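import Pool.Agent.K3h56.BN.Cut

/-! A band-limited even Schwartz function whose Mellin transform does not vanish at `ρ`. -/

set_option autoImplicit false

open MeasureTheory Filter Topology Set
open scoped ContDiff FourierTransform SchwartzMap

namespace Pool.Agent.K3h56.BN

noncomputable section

/-- the Gaussian -/
def gau (v : ℝ) : ℂ := Complex.exp (-(Real.pi : ℂ) * (v : ℂ) ^ 2)

lemma norm_gau (v : ℝ) : ‖gau v‖ = Real.exp (-Real.pi * v ^ 2) := by
  unfold gau
  rw [Complex.norm_exp]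
  congr 1
  have : (-(Real.pi : ℂ) * (v : ℂ) ^ 2) = ((-Real.pi * v ^ 2 : ℝ) : ℂ) := by push_cast; ring
  rw [this, Complex.ofReal_re]

lemma gau_contDiff : ContDiff ℝ ∞ gau := by
  unfold gau
  have : ContDiff ℝ ∞ (fun v : ℝ => -(Real.pi : ℂ) * (v : ℂ) ^ 2) :=
    contDiff_const.mul (Complex.ofRealCLM.contDiff.pow 2)
  exact this.cexp

lemma gau_int : Integrable (fun v => ‖gau v‖) := by
  simp_rw [norm_gau]
  exact integrable_exp_neg_mul_sq Real.pi_pos

lemma gau_int' : Integrable (fun v : ℝ => |v| * ‖gau v‖) := by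
  simp_rw [norm_gau]
  have h := (integrable_mul_exp_neg_mul_sq Real.pi_pos).norm
  refine h.congr (Eventually.of_forall fun v => ?_)
  simp only [norm_mul, Real.norm_eq_abs, Real.abs_exp]

lemma gau_hasDeriv (v : ℝ) : HasDerivAt gau (-(2 * Real.pi * v : ℝ) * gau v) v := by
  unfold gau
  have h1 : HasDerivAt (fun v : ℝ => (v : ℂ)) 1 v := Complex.ofRealCLM.hasDerivAt
  have h2 : HasDerivAt (fun v : ℝ => -(Real.pi : ℂ) * (v : ℂ) ^ 2) (-(Real.pi : ℂ) * (2 * (v:ℂ) ^ 1 * 1)) v := by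
    have := (h1.pow 2).const_mul (-(Real.pi : ℂ))
    simpa using this
  have h3 := h2.cexp
  convert h3 using 1
  push_cast
  ring

lemma mellin_gau {ρ : ℂ} (hρ : 0 < ρ.re) : mellin gau ρ ≠ 0 := by
  have h1 : mellin gau ρ = mellin (fun t => (fun x : ℝ => Complex.exp (-((Real.pi : ℂ) * (x:ℂ)))) (t ^ (2:ℝ))) ρ := by
    unfold mellin
    refine setIntegral_congr_fun measurableSet_Ioi fun t _ => ?_
    simp only
    congr 1
    unfold gau
    congr 1
    rw [show (t:ℝ) ^ (2:ℝ) = t ^ 2 by norm_num]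
    push_cast
    ring
  rw [h1, mellin_comp_rpow (fun x : ℝ => Complex.exp (-((Real.pi : ℂ) * (x:ℂ)))) ρ 2]
  have h2 : mellin (fun x : ℝ => Complex.exp (-((Real.pi : ℂ) * (x:ℂ)))) (ρ / (2:ℝ)) =
      (1 / (Real.pi : ℂ)) ^ (ρ / (2:ℝ)) * Complex.Gamma (ρ / (2:ℝ)) := by
    unfold mellin
    have := Complex.integral_cpow_mul_exp_neg_mul_Ioi (a := ρ / (2:ℝ)) (r := Real.pi)
      (by simp only [Complex.div_ofReal_re]; linarith) Real.pi_pos
    rw [← this]
    rfl
  rw [h2]
  have h3 : Complex.Gamma (ρ / (2:ℝ)) ≠ 0 :=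
    Complex.Gamma_ne_zero_of_re_pos (by simp only [Complex.div_ofReal_re]; linarith)
  have h4 : (1 / (Real.pi : ℂ)) ^ (ρ / (2:ℝ)) ≠ 0 := by
    rw [Ne, Complex.cpow_eq_zero_iff, not_and_or]
    left
    have : (Real.pi : ℂ) ≠ 0 := by exact_mod_cast Real.pi_ne_zero
    simp [this]
  refine smul_ne_zero ?_ (mul_ne_zero h4 h3)
  norm_num

lemma fourier_gau : 𝓕 gau = gau := by
  have h := fourier_gaussian_pi (b := 1) (by simp)
  simp only [mul_one, Complex.one_cpow, div_one, one_mul] at h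
  exact h

/-- even smooth cutoff -/
def cut (v : ℝ) : ℝ := chi v * chi (-v)

lemma cut_one {v : ℝ} (h : |v| ≤ 1) : cut v = 1 := by
  rw [abs_le] at h
  unfold cut
  rw [chi_one h.2, chi_one (by linarith)]; norm_num

lemma cut_zero {v : ℝ} (h : 2 ≤ |v|) : cut v = 0 := by
  unfold cut
  rcases le_abs.mp h with h | h
  · rw [chi_zero h]; simp
  · rw [chi_zero h]; simp

lemma cut_nonneg (v : ℝ) : 0 ≤ cut v := mul_nonneg (chi_nonneg _) (chi_nonneg _)
lemma cut_le_one (v : ℝ) : cut v ≤ 1 := mul_le_one₀ (chi_le_one _) (chi_nonneg _) (chi_le_one _)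
lemma cut_even (v : ℝ) : cut (-v) = cut v := by unfold cut; rw [neg_neg, mul_comm]
lemma cut_contDiff : ContDiff ℝ ∞ cut := chi_contDiff.mul (chi_contDiff.comp contDiff_neg)

lemma cut_compact : HasCompactSupport cut := by
  refine HasCompactSupport.intro (isCompact_Icc (a := (-2:ℝ)) (b := 2)) ?_
  intro x hx
  apply cut_zero
  by_contra h
  rw [not_le, abs_lt] at h
  exact hx ⟨h.1.le, h.2.le⟩

lemma cut_deriv_bound : ∃ K : ℝ, 0 ≤ K ∧ ∀ v, |deriv cut v| ≤ K := by
  have hd : Continuous (deriv cut) := (cut_contDiff.continuous_deriv (by simp))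
  obtain ⟨K, hK⟩ := cut_compact.deriv.exists_bound_of_continuous hd
  exact ⟨K, (norm_nonneg _).trans (hK 0), hK⟩

/-- truncated Gaussian -/
def hR (R v : ℝ) : ℂ := gau v * (cut (v / R) : ℂ)

lemma hR_contDiff (R : ℝ) : ContDiff ℝ ∞ (hR R) := by
  unfold hR
  exact gau_contDiff.mul (Complex.ofRealCLM.contDiff.comp (cut_contDiff.comp (contDiff_id.div_const R)))

lemma hR_zero {R v : ℝ} (hR0 : 0 < R) (h : 2 * R ≤ |v|) : hR R v = 0 := by
  unfold hR
  rw [cut_zero]
  · simp
  · rw [abs_div, abs_of_pos hR0, le_div_iff₀ hR0]; exact h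

lemma hR_compact {R : ℝ} (hR0 : 0 < R) : HasCompactSupport (hR R) := by
  refine HasCompactSupport.intro (isCompact_Icc (a := -(2 * R)) (b := 2 * R)) ?_
  intro x hx
  apply hR_zero hR0
  by_contra h
  rw [not_le, abs_lt] at h
  exact hx ⟨h.1.le, h.2.le⟩

lemma hR_even (R v : ℝ) : hR R (-v) = hR R v := by
  unfold hR gau
  rw [neg_div, cut_even]
  simp

lemma hR_norm_le (R v : ℝ) : ‖hR R v‖ ≤ ‖gau v‖ := by
  unfold hR
  rw [norm_mul, Complex.norm_real, Real.norm_of_nonneg (cut_nonneg _)]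
  exact mul_le_of_le_one_right (norm_nonneg _) (cut_le_one _)

lemma hR_hasDeriv (R v : ℝ) : HasDerivAt (hR R)
    (-(2 * Real.pi * v : ℝ) * gau v * (cut (v / R) : ℂ) + gau v * ((deriv cut (v / R) / R : ℝ) : ℂ)) v := by
  have h1 := gau_hasDeriv v
  have h2 : HasDerivAt cut (deriv cut (v / R)) (v / R) :=
    (cut_contDiff.differentiable (by simp)).differentiableAt.hasDerivAt
  have h3 : HasDerivAt (fun v : ℝ => v / R) (1 / R) v := (hasDerivAt_id v).div_const R
  have h4 : HasDerivAt (fun v : ℝ => cut (v / R)) (deriv cut (v / R) * (1 / R)) v :=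
    HasDerivAt.comp (h₂ := cut) (h := fun v : ℝ => v / R) v h2 h3
  have h5 : HasDerivAt (fun v : ℝ => ((cut (v / R) : ℝ) : ℂ)) ((deriv cut (v / R) * (1 / R) : ℝ) : ℂ) v :=
    h4.ofReal_comp
  have h6 := h1.mul h5
  have e : (-(2 * Real.pi * v : ℝ) * gau v * (cut (v / R) : ℂ) + gau v * ((deriv cut (v / R) / R : ℝ) : ℂ)) =
      (-(2 * Real.pi * v : ℝ) * gau v * (cut (v / R) : ℂ) + gau v * ((deriv cut (v / R) * (1 / R) : ℝ) : ℂ)) := by
    push_cast
    ring
  rw [e]
  exact h6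

lemma hR_deriv_bound : ∃ K : ℝ, 0 ≤ K ∧ ∀ R : ℝ, 1 ≤ R → ∀ v : ℝ,
    ‖deriv (hR R) v‖ ≤ 2 * Real.pi * (|v| * ‖gau v‖) + K * ‖gau v‖ := by
  obtain ⟨K, hK0, hK⟩ := cut_deriv_bound
  refine ⟨K, hK0, fun R hR1 v => ?_⟩
  rw [(hR_hasDeriv R v).deriv]
  refine (norm_add_le _ _).trans (add_le_add ?_ ?_)
  · rw [norm_mul, norm_mul, norm_neg, Complex.norm_real, Complex.norm_real, Real.norm_eq_abs, abs_mul,
      abs_of_pos (by positivity : (0:ℝ) < 2 * Real.pi), Real.norm_of_nonneg (cut_nonneg _)]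
    calc 2 * Real.pi * |v| * ‖gau v‖ * cut (v / R) ≤ 2 * Real.pi * |v| * ‖gau v‖ * 1 := by
          gcongr
          exact cut_le_one _
      _ = _ := by ring
  · rw [norm_mul, Complex.norm_real, Real.norm_eq_abs, abs_div, abs_of_pos (by linarith : 0 < R), mul_comm]
    have h1 : |deriv cut (v / R)| / R ≤ K := by
      rw [div_le_iff₀ (by linarith)]
      calc |deriv cut (v / R)| ≤ K := hK _
        _ ≤ K * R := by nlinarith
    gcongr

lemma norm_fourier_le (f : ℝ → ℂ) (t : ℝ) : ‖𝓕 f t‖ ≤ ∫ v, ‖f v‖ := by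
  rw [Real.fourier_real_eq_integral_exp_smul]
  refine (norm_integral_le_integral_norm _).trans (le_of_eq ?_)
  refine integral_congr_ae (Eventually.of_forall fun v => ?_)
  simp only
  rw [norm_smul, Complex.norm_exp_ofReal_mul_I, one_mul]

/-- uniform decay of the transforms of the truncated Gaussians -/
lemma fourier_hR_bound : ∃ C : ℝ, 0 ≤ C ∧ ∀ R : ℝ, 1 ≤ R → ∀ t : ℝ, ‖𝓕 (hR R) t‖ ≤ C ∧ |t| * ‖𝓕 (hR R) t‖ ≤ C := by
  obtain ⟨K, hK0, hK⟩ := hR_deriv_bound
  set I0 := ∫ v, ‖gau v‖ with hI0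
  set I1 := ∫ v, (2 * Real.pi * (|v| * ‖gau v‖) + K * ‖gau v‖) with hI1
  have hI0' : 0 ≤ I0 := integral_nonneg fun v => norm_nonneg _
  have hI1' : 0 ≤ I1 := integral_nonneg fun v => by positivity
  have hint1 : Integrable (fun v => 2 * Real.pi * (|v| * ‖gau v‖) + K * ‖gau v‖) :=
    (gau_int'.const_mul _).add (gau_int.const_mul _)
  refine ⟨I0 + I1, by positivity, fun R hR1 t => ?_⟩
  have hcont : Continuous (hR R) := (hR_contDiff R).continuous
  have hint : Integrable (hR R) := hcont.integrable_of_hasCompactSupport (hR_compact (by linarith))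
  have hdc : Continuous (deriv (hR R)) := (hR_contDiff R).continuous_deriv (by simp)
  have hdint : Integrable (deriv (hR R)) := hdc.integrable_of_hasCompactSupport (hR_compact (by linarith)).deriv
  constructor
  · refine (norm_fourier_le _ _).trans ?_
    have : ∫ v, ‖hR R v‖ ≤ I0 := integral_mono hint.norm gau_int (hR_norm_le R)
    linarith
  · have h1 := congrFun (Real.fourier_deriv hint ((hR_contDiff R).differentiable (by simp)) hdint) t
    have h2 := norm_fourier_le (deriv (hR R)) t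
    rw [h1, norm_smul] at h2
    have h3 : ‖2 * (Real.pi:ℂ) * Complex.I * (t:ℂ)‖ = 2 * Real.pi * |t| := by
      rw [norm_mul, norm_mul, norm_mul, Complex.norm_I, Complex.norm_real, Complex.norm_real,
        Real.norm_of_nonneg Real.pi_pos.le, Real.norm_eq_abs]
      simp
    rw [h3] at h2
    have h4 : ∫ v, ‖deriv (hR R) v‖ ≤ I1 := integral_mono hdint.norm hint1 (hK R hR1)
    have h5 : 0 ≤ |t| * ‖𝓕 (hR R) t‖ := by positivity
    have h6 : 1 ≤ 2 * Real.pi := by have := Real.pi_gt_three; linarith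
    nlinarith

lemma fourier_hR_tendsto (t : ℝ) : Tendsto (fun R : ℕ => 𝓕 (hR ((R:ℝ) + 1)) t) atTop (𝓝 (gau t)) := by
  have h0 : gau t = 𝓕 gau t := by rw [fourier_gau]
  rw [h0]
  simp_rw [Real.fourier_real_eq_integral_exp_smul]
  refine tendsto_integral_of_dominated_convergence (fun v => ‖gau v‖) (fun R => ?_) gau_int (fun R => ?_) ?_
  · refine Continuous.aestronglyMeasurable ?_
    have := (hR_contDiff ((R:ℝ) + 1)).continuous
    fun_prop
  · refine Eventually.of_forall fun v => ?_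
    rw [norm_smul, Complex.norm_exp_ofReal_mul_I, one_mul]
    exact hR_norm_le _ v
  · refine Eventually.of_forall fun v => ?_
    refine Tendsto.const_smul ?_ _
    refine tendsto_const_nhds.congr' ?_
    obtain ⟨N, hN⟩ := exists_nat_ge |v|
    filter_upwards [eventually_ge_atTop N] with R hR'
    have : (N:ℝ) ≤ R := by exact_mod_cast hR'
    unfold hR
    rw [cut_one]
    · simp
    · rw [abs_div, abs_of_pos (by positivity : (0:ℝ) < (R:ℝ) + 1), div_le_one (by positivity)]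
      linarith

/-- majorant -/
lemma majorant_int {β C : ℝ} (hβ : 0 < β) (hβ1 : β < 1) :
    IntegrableOn (fun t : ℝ => t ^ (β - 1) * (if t ≤ 1 then C else C / t)) (Ioi 0) := by
  rw [← Ioc_union_Ioi_eq_Ioi (zero_le_one' ℝ)]
  refine IntegrableOn.union ?_ ?_
  · have h1 : IntegrableOn (fun t : ℝ => t ^ (β - 1) * C) (Ioc 0 1) := by
      have := (intervalIntegral.intervalIntegrable_rpow' (a := 0) (b := 1) (r := β - 1) (by linarith))
      rw [intervalIntegrable_iff_integrableOn_Ioc_of_le zero_le_one] at this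
      exact this.mul_const C
    refine h1.congr_fun (fun t ht => ?_) measurableSet_Ioc
    simp only
    rw [if_pos ht.2]
  · have h1 : IntegrableOn (fun t : ℝ => t ^ (β - 2) * C) (Ioi 1) :=
      (integrableOn_Ioi_rpow_of_lt (by linarith) one_pos).mul_const C
    refine h1.congr_fun (fun t ht => ?_) measurableSet_Ioi
    have ht0 : (0:ℝ) < t := lt_trans one_pos ht
    simp only
    rw [if_neg (not_le.mpr ht), show β - 2 = β - 1 - 1 by ring, Real.rpow_sub_one ht0.ne']
    ring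

theorem mellin_hR {ρ : ℂ} (hρ : 0 < ρ.re) (hρ1 : ρ.re < 1) :
    ∃ R : ℝ, 1 ≤ R ∧ mellin (𝓕 (hR R)) ρ ≠ 0 := by
  obtain ⟨C, hC0, hC⟩ := fourier_hR_bound
  have hlim : Tendsto (fun R : ℕ => mellin (𝓕 (hR ((R:ℝ) + 1))) ρ) atTop (𝓝 (mellin gau ρ)) := by
    unfold mellin
    simp only [smul_eq_mul]
    refine tendsto_integral_of_dominated_convergence
      (fun t : ℝ => t ^ (ρ.re - 1) * (if t ≤ 1 then C else C / t)) (fun R => ?_) (majorant_int hρ hρ1)
      (fun R => ?_) ?_
    · refine AEStronglyMeasurable.mul ?_ ?_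
      · refine ContinuousOn.aestronglyMeasurable (fun t ht => ?_) measurableSet_Ioi
        have ht0 : (0:ℝ) < t := ht
        exact (Complex.continuousAt_ofReal_cpow_const t _ (Or.inr ht0.ne')).continuousWithinAt
      · have : Continuous (𝓕 (hR ((R:ℝ) + 1))) :=
          ((hR_compact (R := (R:ℝ) + 1) (by positivity)).toSchwartzMap (hR_contDiff _)).fourier_coe ▸
            (𝓕 ((hR_compact (R := (R:ℝ) + 1) (by positivity)).toSchwartzMap (hR_contDiff _))).continuous
        exact this.aestronglyMeasurable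
    · refine (ae_restrict_iff' measurableSet_Ioi).mpr (Eventually.of_forall fun t ht => ?_)
      have ht0 : (0:ℝ) < t := ht
      obtain ⟨b1, b2⟩ := hC ((R:ℝ) + 1) (by linarith [Nat.cast_nonneg (α := ℝ) R]) t
      rw [norm_mul, Complex.norm_cpow_eq_rpow_re_of_pos ht0]
      have e : (ρ - 1).re = ρ.re - 1 := by simp
      rw [e]
      refine mul_le_mul_of_nonneg_left ?_ (by positivity)
      split_ifs with h
      · exact b1
      · rw [le_div_iff₀ ht0, mul_comm]
        rw [abs_of_pos ht0] at b2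
        exact b2
    · refine (ae_restrict_iff' measurableSet_Ioi).mpr (Eventually.of_forall fun t ht => ?_)
      have h1 : Tendsto (fun R : ℕ => (t:ℂ) ^ (ρ - 1) * 𝓕 (hR ((R:ℝ) + 1)) t) atTop
          (𝓝 ((t:ℂ) ^ (ρ - 1) * gau t)) := (fourier_hR_tendsto t).const_mul _
      exact h1
  have hne := hlim.eventually_ne (mellin_gau hρ)
  obtain ⟨R, hR'⟩ := hne.exists
  exact ⟨(R:ℝ) + 1, by linarith [Nat.cast_nonneg (α := ℝ) R], hR'⟩

end

end Pool.Agent.K3h56.BN
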