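import Pool.Agent.K3h56.BN.R2
import Pool.Agent.K3h56.BN.Poi

/-! A band-limited even Schwartz function vanishing at `0`, with non-zero Mellin transform at `ρ`. -/

set_option autoImplicit false

open MeasureTheory Filter Topology Set
open scoped ContDiff FourierTransform SchwartzMap

namespace Pool.Agent.K3h56.BN

noncomputable section

/-- the properties of the test function -/
structure Gd (ρ : ℂ) (g : 𝓢(ℝ, ℂ)) : Prop where
  even : ∀ x, g (-x) = g x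
  zero : g 0 = 0
  supp : ∀ v : ℝ, 1 ≤ |v| → 𝓕 (g : ℝ → ℂ) v = 0
  mell : mellin g ρ ≠ 0

lemma fourier_even {f : ℝ → ℂ} (hf : ∀ v, f (-v) = f v) (t : ℝ) : 𝓕 f (-t) = 𝓕 f t := by
  rw [Real.fourier_real_eq_integral_exp_smul, Real.fourier_real_eq_integral_exp_smul]
  rw [← integral_neg_eq_self]
  refine integral_congr_ae (Eventually.of_forall fun v => ?_)
  simp only
  rw [hf]
  congr 2
  push_cast
  ring

lemma mellinConv {g : ℝ → ℂ} (hg : Continuous g) {C : ℝ} (h1 : ∀ t, ‖g t‖ ≤ C) (h2 : ∀ t, |t| * ‖g t‖ ≤ C)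
    {ρ : ℂ} (hρ : 0 < ρ.re) (hρ1 : ρ.re < 1) : MellinConvergent g ρ := by
  unfold MellinConvergent
  simp only [smul_eq_mul]
  refine (majorant_int (C := C) hρ hρ1).mono' ?_ ?_
  · refine AEStronglyMeasurable.mul ?_ hg.aestronglyMeasurable
    refine ContinuousOn.aestronglyMeasurable (fun t ht => ?_) measurableSet_Ioi
    have ht0 : (0:ℝ) < t := ht
    exact (Complex.continuousAt_ofReal_cpow_const t _ (Or.inr ht0.ne')).continuousWithinAt
  · refine (ae_restrict_iff' measurableSet_Ioi).mpr (Eventually.of_forall fun t ht => ?_)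
    have ht0 : (0:ℝ) < t := ht
    rw [norm_mul, Complex.norm_cpow_eq_rpow_re_of_pos ht0]
    have e : (ρ - 1).re = ρ.re - 1 := by simp
    rw [e]
    refine mul_le_mul_of_nonneg_left ?_ (by positivity)
    split_ifs with h
    · exact h1 t
    · rw [le_div_iff₀ ht0, mul_comm]
      have := h2 t
      rw [abs_of_pos ht0] at this
      exact this

lemma schwartz_fourier_fourier (h : 𝓢(ℝ, ℂ)) (v : ℝ) : 𝓕 ((𝓕 h : 𝓢(ℝ, ℂ)) : ℝ → ℂ) v = h (-v) := by
  have h1 : (𝓕⁻ (𝓕 h) : 𝓢(ℝ, ℂ)) = h := FourierTransform.fourierInv_fourier_eq h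
  have h2 : (𝓕⁻ (𝓕 h) : 𝓢(ℝ, ℂ)) (-v) = h (-v) := by rw [h1]
  rw [← h2, SchwartzMap.fourierInv_coe, Real.fourierInv_eq_fourier_neg, neg_neg]

theorem exists_Gd {ρ : ℂ} (hρ : 0 < ρ.re) (hρ1 : ρ.re < 1) : ∃ g : 𝓢(ℝ, ℂ), Gd ρ g := by
  obtain ⟨R, hR1, hne⟩ := mellin_hR hρ hρ1
  obtain ⟨C, hC0, hC⟩ := fourier_hR_bound
  have hR0 : 0 < R := by linarith
  -- dilates of the truncated Gaussian
  have hd1 : ∀ L : ℝ, 0 < L → HasCompactSupport (fun v : ℝ => hR R (v / L)) := by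
    intro L hL
    exact (hR_compact hR0).comp_homeomorph (Homeomorph.mulRight₀ (L⁻¹) (inv_ne_zero hL.ne'))
  have hd2 : ∀ L : ℝ, ContDiff ℝ ∞ (fun v : ℝ => hR R (v / L)) := fun L =>
    (hR_contDiff R).comp (contDiff_id.div_const L)
  set L : ℝ := 1 / (4 * R) with hL
  have hL0 : 0 < L := by rw [hL]; positivity
  have hL2 : 0 < L / 2 := by positivity
  set H1 : 𝓢(ℝ, ℂ) := (hd1 L hL0).toSchwartzMap (hd2 L) with hH1
  set H2 : 𝓢(ℝ, ℂ) := (hd1 (L / 2) hL2).toSchwartzMap (hd2 (L / 2)) with hH2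
  set h : 𝓢(ℝ, ℂ) := ((L⁻¹ : ℝ) : ℂ) • H1 + (-(((L / 2)⁻¹ : ℝ) : ℂ)) • H2 with hh
  set F : ℝ → ℂ := 𝓕 (hR R) with hF
  have hg : ∀ t, (𝓕 h : 𝓢(ℝ, ℂ)) t = F (L * t) - F (L / 2 * t) := by
    intro t
    rw [hh, FourierTransform.fourier_add, FourierTransform.fourier_smul, FourierTransform.fourier_smul]
    have e1 : (𝓕 H1 : 𝓢(ℝ, ℂ)) t = (L:ℂ) * F (L * t) := by
      rw [SchwartzMap.fourier_coe]
      exact fourier_dilate (hR R) hL0 t
    have e2 : (𝓕 H2 : 𝓢(ℝ, ℂ)) t = ((L / 2 : ℝ):ℂ) * F (L / 2 * t) := by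
      rw [SchwartzMap.fourier_coe]
      exact fourier_dilate (hR R) hL2 t
    change ((L⁻¹ : ℝ) : ℂ) • (𝓕 H1 : 𝓢(ℝ, ℂ)) t + (-(((L / 2)⁻¹ : ℝ) : ℂ)) • (𝓕 H2 : 𝓢(ℝ, ℂ)) t = _
    rw [e1, e2, smul_eq_mul, smul_eq_mul]
    have hLc : (L:ℂ) ≠ 0 := by exact_mod_cast hL0.ne'
    push_cast
    field_simp
    ring
  have hFe : ∀ t, F (-t) = F t := fun t => fourier_even (hR_even R) t
  refine ⟨𝓕 h, ⟨fun x => ?_, ?_, fun v hv => ?_, ?_⟩⟩
  · rw [hg, hg, mul_neg, mul_neg, hFe, hFe]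
  · rw [hg]; simp
  · rw [schwartz_fourier_fourier]
    change ((L⁻¹ : ℝ) : ℂ) • hR R (-v / L) + (-(((L / 2)⁻¹ : ℝ) : ℂ)) • hR R (-v / (L / 2)) = 0
    rw [hR_zero hR0, hR_zero hR0]
    · simp
    · rw [abs_div, abs_neg, abs_of_pos hL2, le_div_iff₀ hL2, hL]
      have : 2 * R * (1 / (4 * R) / 2) = 1 / 4 := by field_simp; try norm_num
      rw [this]; linarith
    · rw [abs_div, abs_neg, abs_of_pos hL0, le_div_iff₀ hL0, hL]
      have : 2 * R * (1 / (4 * R)) = 1 / 2 := by field_simp; try norm_num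
      rw [this]; linarith
  · have hFc : Continuous F := by
      have : F = ((𝓕 ((hR_compact hR0).toSchwartzMap (hR_contDiff R)) : 𝓢(ℝ, ℂ)) : ℝ → ℂ) := rfl
      rw [this]
      exact SchwartzMap.continuous _
    have hconv : MellinConvergent F ρ := mellinConv hFc (fun t => (hC R hR1 t).1) (fun t => (hC R hR1 t).2) hρ hρ1
    have hc1 : MellinConvergent (fun t => F (L * t)) ρ := (MellinConvergent.comp_mul_left hL0).mpr hconv
    have hc2 : MellinConvergent (fun t => F (L / 2 * t)) ρ := (MellinConvergent.comp_mul_left hL2).mpr hconv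
    have e1 : mellin ((𝓕 h : 𝓢(ℝ, ℂ)) : ℝ → ℂ) ρ = mellin (fun t => F (L * t) - F (L / 2 * t)) ρ := by
      congr 1
      ext t
      exact hg t
    have e2 : mellin (fun t => F (L * t) - F (L / 2 * t)) ρ =
        mellin (fun t => F (L * t)) ρ - mellin (fun t => F (L / 2 * t)) ρ := by
      unfold mellin
      rw [← integral_sub hc1 hc2]
      refine integral_congr_ae (Eventually.of_forall fun t => ?_)
      simp only [smul_eq_mul]
      ring
    rw [e1, e2, mellin_comp_mul_left F ρ hL0, mellin_comp_mul_left F ρ hL2, ← sub_smul, smul_eq_mul]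
    refine mul_ne_zero ?_ hne
    have e3 : ((L / 2 : ℝ) : ℂ) ^ (-ρ) = (L:ℂ) ^ (-ρ) * ((1 / 2 : ℝ) : ℂ) ^ (-ρ) := by
      rw [← Complex.mul_cpow_ofReal_nonneg hL0.le (by norm_num)]
      congr 1
      push_cast
      ring
    rw [e3]
    have hLc : (L:ℂ) ^ (-ρ) ≠ 0 := by
      rw [Ne, Complex.cpow_eq_zero_iff, not_and_or]
      left
      exact_mod_cast hL0.ne'
    have e4 : (L:ℂ) ^ (-ρ) - (L:ℂ) ^ (-ρ) * ((1 / 2 : ℝ) : ℂ) ^ (-ρ) =
        (L:ℂ) ^ (-ρ) * (1 - ((1 / 2 : ℝ) : ℂ) ^ (-ρ)) := by ring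
    rw [e4]
    refine mul_ne_zero hLc (sub_ne_zero.mpr fun h5 => ?_)
    have h6 := congrArg norm h5
    rw [norm_one, Complex.norm_cpow_eq_rpow_re_of_pos (by norm_num), Complex.neg_re] at h6
    have h7 : 1 < (1 / 2 : ℝ) ^ (-ρ.re) :=
      Real.one_lt_rpow_of_pos_of_lt_one_of_neg (by norm_num) (by norm_num) (by linarith)
    linarith

end

end Pool.Agent.K3h56.BN
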