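import Pool.Agent.K3h56.BN.R3
import Pool.Agent.K3h56.BN.R1

/-! The kernel `{θy} - θ{y}` integrates to zero against dilates of `g'`. -/

set_option autoImplicit false

open MeasureTheory Filter Topology Set
open scoped ContDiff FourierTransform SchwartzMap

namespace Pool.Agent.K3h56.BN

noncomputable section

/-- strong decay of a Schwartz function -/
lemma sch_decay (w : 𝓢(ℝ, ℂ)) (k : ℕ) : ∃ C : ℝ, 0 ≤ C ∧ ∀ x : ℝ, (1 + |x|) ^ k * ‖w x‖ ≤ C := by
  refine ⟨2 ^ k * (Finset.Iic (k, 0)).sup (fun m => SchwartzMap.seminorm ℝ m.1 m.2) w, ?_, fun x => ?_⟩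
  · have := SchwartzMap.one_add_le_sup_seminorm_apply (𝕜 := ℝ) (m := (k, 0)) (k := k) (n := 0) le_rfl le_rfl w 0
    exact le_trans (by positivity) this
  · have := SchwartzMap.one_add_le_sup_seminorm_apply (𝕜 := ℝ) (m := (k, 0)) (k := k) (n := 0) le_rfl le_rfl w x
    rw [norm_iteratedFDeriv_zero, Real.norm_eq_abs] at this
    exact this

/-- the derivative of a Schwartz function, as a Schwartz function -/
def wd (g : 𝓢(ℝ, ℂ)) : 𝓢(ℝ, ℂ) := SchwartzMap.derivCLM ℝ ℂ g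

lemma wd_apply (g : 𝓢(ℝ, ℂ)) (x : ℝ) : wd g x = deriv g x := SchwartzMap.derivCLM_apply ℝ g x

lemma wd_hasDeriv (g : 𝓢(ℝ, ℂ)) (x : ℝ) : HasDerivAt g (wd g x) x := by
  rw [wd_apply]
  exact (g.differentiable x).hasDerivAt

lemma sum_by_parts (b : ℕ → ℂ) (M : ℕ) :
    ∑ m ∈ Finset.range M, (m:ℂ) * (b (m + 1) - b m) = (M:ℂ) * b M - ∑ m ∈ Finset.range M, b (m + 1) := by
  induction M with
  | zero => simp
  | succ M ih =>
    rw [Finset.sum_range_succ, Finset.sum_range_succ, ih]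
    push_cast
    ring

lemma floor_int {g : 𝓢(ℝ, ℂ)} {x : ℝ} (hx : 0 < x) :
    IntegrableOn (fun y : ℝ => ((⌊y⌋ : ℝ) : ℂ) * wd g (x * y)) (Ioi 0) := by
  obtain ⟨C, hC0, hC⟩ := sch_decay (wd g) 3
  have h1 : Integrable (fun y : ℝ => (C / x) * (1 + ‖x * y‖) ^ (-(2:ℝ))) := by
    have h2 := integrable_one_add_norm (E := ℝ) (μ := volume) (r := 2) (by simp)
    exact (h2.comp_mul_left' hx.ne').const_mul _
  refine h1.integrableOn.mono' ?_ ?_
  · refine AEStronglyMeasurable.mul ?_ ?_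
    · have h2 : Measurable (fun z : ℤ => (z : ℝ)) := measurable_from_top
      exact (Complex.measurable_ofReal.comp (h2.comp Int.measurable_floor)).aestronglyMeasurable
    · exact ((wd g).continuous.comp (continuous_const.mul continuous_id)).aestronglyMeasurable
  · refine (ae_restrict_iff' measurableSet_Ioi).mpr (Eventually.of_forall fun y hy => ?_)
    have hy0 : (0:ℝ) < y := hy
    have hxy : 0 < x * y := by positivity
    have h2 := hC (x * y)
    rw [abs_of_pos hxy] at h2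
    rw [norm_mul, Complex.norm_real, Real.norm_of_nonneg (by exact_mod_cast Int.floor_nonneg.mpr hy0.le),
      Real.norm_of_nonneg hxy.le, Real.rpow_neg (by positivity), show (2:ℝ) = ((2:ℕ):ℝ) by norm_num,
      Real.rpow_natCast]
    have h3 : ((⌊y⌋ : ℤ) : ℝ) ≤ (1 + x * y) / x := by
      rw [le_div_iff₀ hx]
      have := Int.floor_le y
      nlinarith
    have h4 : ‖wd g (x * y)‖ ≤ C / (1 + x * y) ^ 3 := by
      rw [le_div_iff₀ (by positivity)]; linarith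
    calc ((⌊y⌋ : ℤ) : ℝ) * ‖wd g (x * y)‖ ≤ ((1 + x * y) / x) * (C / (1 + x * y) ^ 3) := by gcongr
      _ = C / x * ((1 + x * y) ^ 2)⁻¹ := by field_simp

/-- `∫_0^∞ ⌊y⌋ g'(xy) dy = -(1/x) ∑ g(mx)` -/
lemma J_eq {g : 𝓢(ℝ, ℂ)} {x : ℝ} (hx : 0 < x) :
    ∫ y in Ioi (0:ℝ), ((⌊y⌋ : ℝ) : ℂ) * wd g (x * y) = -((1 / x : ℝ) : ℂ) * ∑' m : ℕ, g (x * ((m:ℝ) + 1)) := by
  have hint := floor_int (g := g) hx
  have hlim := intervalIntegral_tendsto_integral_Ioi 0 hint (tendsto_natCast_atTop_atTop (R := ℝ))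
  obtain ⟨C, hC0, hC⟩ := sch_decay g 2
  set b : ℕ → ℂ := fun m => g (x * m) with hb
  have hxc : (x:ℂ) ≠ 0 := by exact_mod_cast hx.ne'
  have hbb : ∀ m : ℕ, ‖b (m + 1)‖ ≤ (C / x ^ 2) * (1 / ((m:ℝ) + 1) ^ 2) := by
    intro m
    have h2 := hC (x * ((m + 1 : ℕ) : ℝ))
    have hm0 : (0:ℝ) < (m + 1 : ℕ) := by positivity
    rw [abs_of_pos (by positivity)] at h2
    simp only [hb]
    have h3 : ‖g (x * ((m + 1 : ℕ) : ℝ))‖ ≤ C / (1 + x * ((m + 1 : ℕ) : ℝ)) ^ 2 := by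
      rw [le_div_iff₀ (by positivity)]; linarith
    refine h3.trans ?_
    rw [div_mul_div_comm, mul_one]
    apply div_le_div_of_nonneg_left hC0 (by positivity)
    push_cast
    rw [← mul_pow]
    gcongr
    linarith
  have hsum1 : Summable (fun m : ℕ => (C / x ^ 2) * (1 / ((m:ℝ) + 1) ^ 2)) := by
    refine Summable.mul_left _ ?_
    have h : Summable (fun j : ℕ => (1:ℝ) / ((j + 1 : ℕ):ℝ) ^ 2) :=
      (summable_nat_add_iff 1).mpr (Real.summable_one_div_nat_pow.mpr (by norm_num))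
    refine h.congr fun j => ?_
    push_cast; rfl
  have hsum : Summable (fun m : ℕ => b (m + 1)) := Summable.of_norm_bounded hsum1 hbb
  -- pieces
  have hpiece : ∀ m : ℕ, ∫ y in (m:ℝ)..((m + 1 : ℕ):ℝ), ((⌊y⌋ : ℝ) : ℂ) * wd g (x * y) =
      ((1 / x : ℝ) : ℂ) * ((m:ℂ) * (b (m + 1) - b m)) := by
    intro m
    have hle : (m:ℝ) ≤ ((m + 1 : ℕ):ℝ) := by push_cast; linarith
    have e1 : ∫ y in (m:ℝ)..((m + 1 : ℕ):ℝ), ((⌊y⌋ : ℝ) : ℂ) * wd g (x * y) =
        ∫ y in (m:ℝ)..((m + 1 : ℕ):ℝ), (m:ℂ) * wd g (x * y) := by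
      refine intervalIntegral.integral_congr_ae ?_
      rw [uIoc_of_le hle]
      have hne : ∀ᵐ t : ℝ, t ≠ ((m + 1 : ℕ) : ℝ) := by rw [ae_iff]; simp
      filter_upwards [hne] with t ht ht2
      have ht3 : t < ((m + 1 : ℕ) : ℝ) := lt_of_le_of_ne ht2.2 ht
      have : ⌊t⌋ = (m : ℤ) := by
        rw [Int.floor_eq_iff]
        refine ⟨by simpa using ht2.1.le, by push_cast at ht3 ⊢; exact ht3⟩
      rw [this]
      simp
    have hder : ∀ y ∈ uIcc (m:ℝ) ((m + 1 : ℕ):ℝ), HasDerivAt (fun y : ℝ => (m:ℂ) * (((1 / x : ℝ) : ℂ) * g (x * y)))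
        ((m:ℂ) * wd g (x * y)) y := by
      intro y _
      have h1 : HasDerivAt (fun y : ℝ => x * y) (x * 1) y := (hasDerivAt_id y).const_mul x
      have h2 : HasDerivAt (fun y : ℝ => g (x * y)) ((x * 1) • wd g (x * y)) y :=
        HasDerivAt.scomp (h := fun y : ℝ => x * y) y (wd_hasDeriv g (x * y)) h1
      have h3 := (h2.const_mul ((1 / x : ℝ) : ℂ)).const_mul (m:ℂ)
      have e : (m:ℂ) * wd g (x * y) = (m:ℂ) * (((1 / x : ℝ) : ℂ) * ((x * 1) • wd g (x * y))) := by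
        rw [Complex.real_smul]
        push_cast
        field_simp
      rw [e]
      exact h3
    rw [e1, intervalIntegral.integral_eq_sub_of_hasDerivAt hder]
    · simp only [hb]
      ring
    · refine Continuous.intervalIntegrable ?_ _ _
      exact continuous_const.mul ((wd g).continuous.comp (continuous_const.mul continuous_id))
  have hpartial : ∀ M : ℕ, ∫ y in (0:ℝ)..(M:ℝ), ((⌊y⌋ : ℝ) : ℂ) * wd g (x * y) =
      ((1 / x : ℝ) : ℂ) * ((M:ℂ) * b M - ∑ m ∈ Finset.range M, b (m + 1)) := by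
    intro M
    rw [← sum_by_parts, Finset.mul_sum]
    have h := intervalIntegral.sum_integral_adjacent_intervals (μ := volume)
      (f := fun y : ℝ => ((⌊y⌋ : ℝ) : ℂ) * wd g (x * y)) (a := fun k : ℕ => (k:ℝ)) (n := M) (fun k _ => by
        rw [intervalIntegrable_iff_integrableOn_Ioc_of_le (by push_cast; linarith)]
        exact hint.mono_set fun y hy => lt_of_le_of_lt (Nat.cast_nonneg k) hy.1)
    rw [Nat.cast_zero] at h
    rw [← h]
    exact Finset.sum_congr rfl fun m _ => hpiece m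
  have hMb : Tendsto (fun M : ℕ => (M:ℂ) * b M) atTop (𝓝 0) := by
    rw [← tendsto_add_atTop_iff_nat 1]
    have h1 : Tendsto (fun M : ℕ => (C / x ^ 2) * (1 / ((M:ℝ) + 1))) atTop (𝓝 0) := by
      have := (tendsto_one_div_add_atTop_nhds_zero_nat (𝕜 := ℝ)).const_mul (C / x ^ 2)
      rwa [mul_zero] at this
    refine squeeze_zero_norm (fun M => ?_) h1
    rw [norm_mul, Complex.norm_natCast]
    have h2 := hbb M
    have hM0 : (0:ℝ) < (M:ℝ) + 1 := by positivity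
    calc (((M + 1 : ℕ)) : ℝ) * ‖b (M + 1)‖ ≤ ((M:ℝ) + 1) * ((C / x ^ 2) * (1 / ((M:ℝ) + 1) ^ 2)) := by
          push_cast
          gcongr
      _ = (C / x ^ 2) * (1 / ((M:ℝ) + 1)) := by field_simp
  have hlim2 := ((hMb.sub hsum.hasSum.tendsto_sum_nat).const_mul ((1 / x : ℝ) : ℂ))
  have huniq := tendsto_nhds_unique (hlim.congr hpartial) hlim2
  rw [huniq, zero_sub]
  have e : ∑' m : ℕ, g (x * ((m:ℝ) + 1)) = ∑' m : ℕ, b (m + 1) := by
    refine tsum_congr fun m => ?_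
    simp only [hb]
    push_cast; rfl
  rw [e]
  ring

/-- the Poisson side: `∑_{m ≥ 1} g(mx) = κ / x` for `0 < x ≤ 1` -/
lemma sum_g {ρ : ℂ} {g : 𝓢(ℝ, ℂ)} (hg : Gd ρ g) {x : ℝ} (hx : 0 < x) (hx1 : x ≤ 1) :
    ∑' m : ℕ, g (x * ((m:ℝ) + 1)) = (𝓕 (g : ℝ → ℂ) 0 / 2) * ((1 / x : ℝ) : ℂ) := by
  obtain ⟨C, hC0, hC⟩ := sch_decay g 2
  set f : ℝ → ℂ := fun u => g (x * u) with hf
  have hfe : f = fun u : ℝ => (g : ℝ → ℂ) (u / (1 / x)) := by
    ext u
    simp only [hf]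
    congr 1
    field_simp
  have hF : ∀ ξ, 𝓕 f ξ = ((1 / x : ℝ) : ℂ) * 𝓕 (g : ℝ → ℂ) (1 / x * ξ) := by
    intro ξ
    rw [hfe]
    exact fourier_dilate g (by positivity) ξ
  have hF0 : ∀ n : ℤ, n ≠ 0 → 𝓕 f n = 0 := by
    intro n hn
    rw [hF, hg.supp, mul_zero]
    rw [abs_mul, abs_of_pos (by positivity : 0 < 1 / x)]
    have h1 : (1:ℝ) ≤ |(n:ℝ)| := by exact_mod_cast Int.one_le_abs hn
    have h2 : 1 ≤ 1 / x := by rw [le_div_iff₀ hx]; linarith
    nlinarith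
  have hfc : Continuous f := g.continuous.comp (continuous_const.mul continuous_id)
  have hfO : f =O[cocompact ℝ] (fun u : ℝ => |u| ^ (-(2:ℝ))) := by
    refine Asymptotics.IsBigO.of_bound (C / x ^ 2) ?_
    have hne : ∀ᶠ u : ℝ in cocompact ℝ, u ≠ 0 :=
      (Filter.mem_cocompact.mpr ⟨{0}, isCompact_singleton, fun u hu => by simpa using hu⟩)
    filter_upwards [hne] with u hu
    have hu0 : 0 < |u| := abs_pos.mpr hu
    have h2 := hC (x * u)
    rw [Real.norm_of_nonneg (by positivity), Real.rpow_neg hu0.le, show (2:ℝ) = ((2:ℕ):ℝ) by norm_num,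
      Real.rpow_natCast]
    have h3 : x ^ 2 * |u| ^ 2 * ‖g (x * u)‖ ≤ C := by
      refine le_trans ?_ h2
      gcongr
      rw [abs_mul, abs_of_pos hx, ← mul_pow]
      gcongr
      linarith
    rw [← div_eq_mul_inv, div_div, le_div_iff₀ (by positivity)]
    simp only [hf]
    linarith
  have hsF : Summable (fun n : ℤ => 𝓕 f n) := by
    refine summable_of_ne_finset_zero (s := {0}) fun n hn => ?_
    exact hF0 n (by simpa using hn)
  have hP := Real.tsum_eq_tsum_fourier_of_rpow_decay_of_summable hfc (b := 2) (by norm_num) hfO hsF 0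
  have e1 : ∑' n : ℤ, 𝓕 f n * fourier n ((0:ℝ) : UnitAddCircle) = ((1 / x : ℝ) : ℂ) * 𝓕 (g : ℝ → ℂ) 0 := by
    rw [tsum_eq_single 0]
    · rw [hF]; simp
    · intro n hn
      rw [hF0 n hn, zero_mul]
  rw [e1] at hP
  have hsf : Summable (fun n : ℤ => f n) := by
    refine summable_of_isBigO (Real.summable_abs_int_rpow (b := 2) (by norm_num)) ?_
    exact hfO.comp_tendsto Int.tendsto_coe_cofinite
  have hev : (fun n : ℤ => f n).Even := by
    intro n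
    simp only [hf]
    push_cast
    rw [mul_neg, hg.even]
  have e2 : ∑' n : ℤ, f (0 + (n:ℝ)) = 2 * ∑' m : ℕ, g (x * ((m:ℝ) + 1)) := by
    have h1 := tsum_int_eq_zero_add_two_mul_tsum_pnat hev hsf
    simp only [zero_add]
    rw [h1]
    have h2 : f ((0:ℤ):ℝ) = 0 := by simp only [hf]; simp [hg.zero]
    rw [h2, zero_add]
    have h3 : ∑' n : ℕ+, f (((n : ℕ) : ℤ) : ℝ) = ∑' m : ℕ, g (x * ((m:ℝ) + 1)) := by
      rw [tsum_pnat_eq_tsum_succ (f := fun n : ℕ => f (((n : ℕ) : ℤ) : ℝ))]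
      refine tsum_congr fun m => ?_
      simp only [hf]
      push_cast; rfl
    rw [h3]
    simp [two_mul]
  rw [e2] at hP
  linear_combination hP / 2

lemma kth_floor (θ y : ℝ) : kth θ y = θ * (⌊y⌋ : ℝ) - (⌊θ * y⌋ : ℝ) := by
  unfold kth Int.fract
  ring

/-- **the kernel integrates to zero against dilates of `g'`** -/
theorem inner_zero {ρ : ℂ} {g : 𝓢(ℝ, ℂ)} (hg : Gd ρ g) {lam θ : ℝ} (h0 : 0 < lam) (h1 : lam ≤ θ) (h2 : θ ≤ 1) :
    ∫ y in Ioi (1:ℝ), ((kth θ y : ℝ) : ℂ) * wd g (lam * y) = 0 := by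
  have hθ : 0 < θ := by linarith
  have hθc : (θ:ℂ) ≠ 0 := by exact_mod_cast hθ.ne'
  have hlc : (lam:ℂ) ≠ 0 := by exact_mod_cast h0.ne'
  -- extend to `(0, ∞)`
  have e1 : ∫ y in Ioi (1:ℝ), ((kth θ y : ℝ) : ℂ) * wd g (lam * y) =
      ∫ y in Ioi (0:ℝ), ((kth θ y : ℝ) : ℂ) * wd g (lam * y) := by
    refine (setIntegral_eq_of_subset_of_ae_sdiff_eq_zero measurableSet_Ioi.nullMeasurableSet
      (Ioi_subset_Ioi zero_le_one) ?_).symm
    have hne : ∀ᵐ t : ℝ, t ≠ 1 := by rw [ae_iff]; simp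
    filter_upwards [hne] with y hy hy2
    have hy0 : 0 < y := hy2.1
    have hy1 : y < 1 := lt_of_le_of_ne (not_lt.mp hy2.2) hy
    have f1 : ⌊y⌋ = 0 := Int.floor_eq_zero_iff.mpr ⟨hy0.le, hy1⟩
    have f2 : ⌊θ * y⌋ = 0 := Int.floor_eq_zero_iff.mpr ⟨by positivity, by nlinarith⟩
    rw [kth_floor, f1, f2]
    simp
  have hi1 := floor_int (g := g) h0
  have hi2 : IntegrableOn (fun y : ℝ => ((⌊θ * y⌋ : ℝ) : ℂ) * wd g (lam * y)) (Ioi 0) := by
    have h3 := floor_int (g := g) (x := lam / θ) (by positivity)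
    have h4 := (integrableOn_Ioi_comp_mul_left_iff
      (fun y : ℝ => ((⌊y⌋ : ℝ) : ℂ) * wd g (lam / θ * y)) 0 hθ).mpr (by rwa [mul_zero])
    refine h4.congr_fun (fun y _ => ?_) measurableSet_Ioi
    simp only
    congr 2
    field_simp
  have e2 : ∫ y in Ioi (0:ℝ), ((kth θ y : ℝ) : ℂ) * wd g (lam * y) =
      (θ:ℂ) * (∫ y in Ioi (0:ℝ), ((⌊y⌋ : ℝ) : ℂ) * wd g (lam * y)) -
      ∫ y in Ioi (0:ℝ), ((⌊θ * y⌋ : ℝ) : ℂ) * wd g (lam * y) := by
    rw [← integral_const_mul, ← integral_sub (hi1.const_mul _) hi2]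
    refine integral_congr_ae (Eventually.of_forall fun y => ?_)
    simp only
    rw [kth_floor]
    push_cast
    ring
  have e3 : ∫ y in Ioi (0:ℝ), ((⌊θ * y⌋ : ℝ) : ℂ) * wd g (lam * y) =
      ((1 / θ : ℝ) : ℂ) * ∫ y in Ioi (0:ℝ), ((⌊y⌋ : ℝ) : ℂ) * wd g (lam / θ * y) := by
    have h3 := integral_comp_mul_left_Ioi (fun y : ℝ => ((⌊y⌋ : ℝ) : ℂ) * wd g (lam / θ * y)) 0 hθ
    rw [mul_zero, Complex.real_smul] at h3
    rw [one_div, ← h3]
    refine setIntegral_congr_fun measurableSet_Ioi fun y _ => ?_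
    have e4 : lam / θ * (θ * y) = lam * y := by field_simp
    show ((⌊θ * y⌋ : ℝ) : ℂ) * wd g (lam * y) = ((⌊θ * y⌋ : ℝ) : ℂ) * wd g (lam / θ * (θ * y))
    rw [e4]
  rw [e1, e2, e3, J_eq h0, J_eq (by positivity : 0 < lam / θ), sum_g hg h0 (by linarith),
    sum_g hg (by positivity : 0 < lam / θ) (by rw [div_le_one hθ]; exact h1)]
  push_cast
  field_simp
  ring

end

end Pool.Agent.K3h56.BN
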