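import Pool.Agent.K3h56.BN.R4

/-! The exact annihilator of all `{θy}`, `1/N ≤ θ ≤ 1`. -/

set_option autoImplicit false

open MeasureTheory Filter Topology Set
open scoped ContDiff FourierTransform SchwartzMap

namespace Pool.Agent.K3h56.BN

noncomputable section

/-- `t^ρ g'(t)` -/
def Wt (ρ : ℂ) (g : 𝓢(ℝ, ℂ)) (t : ℝ) : ℂ := (t : ℂ) ^ ρ * wd g t

/-- `-∫_z^∞ t^ρ g'(t) dt`, extended to all `z` -/
def PP (ρ : ℂ) (g : 𝓢(ℝ, ℂ)) (z : ℝ) : ℂ := -(∫ t in Ioi (0:ℝ), Wt ρ g t) + ∫ t in (0:ℝ)..z, Wt ρ g t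

lemma Wt_cont {ρ : ℂ} (hρ : 0 < ρ.re) (g : 𝓢(ℝ, ℂ)) : Continuous (Wt ρ g) :=
  (Complex.continuous_ofReal_cpow_const hρ).mul (wd g).continuous

lemma Wt_decay {ρ : ℂ} (hρ : 0 < ρ.re) (hρ1 : ρ.re < 1) (g : 𝓢(ℝ, ℂ)) :
    ∃ C : ℝ, 0 ≤ C ∧ ∀ t : ℝ, 0 < t → (1 + t) ^ 4 * ‖Wt ρ g t‖ ≤ C := by
  obtain ⟨C, hC0, hC⟩ := sch_decay (wd g) 5
  refine ⟨C, hC0, fun t ht => ?_⟩
  have h1 := hC t
  rw [abs_of_pos ht] at h1
  unfold Wt
  rw [norm_mul, Complex.norm_cpow_eq_rpow_re_of_pos ht]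
  have h2 : t ^ ρ.re ≤ 1 + t := by
    calc t ^ ρ.re ≤ (1 + t) ^ ρ.re := Real.rpow_le_rpow ht.le (by linarith) hρ.le
      _ ≤ (1 + t) ^ (1:ℝ) := Real.rpow_le_rpow_of_exponent_le (by linarith) hρ1.le
      _ = 1 + t := Real.rpow_one _
  calc (1 + t) ^ 4 * (t ^ ρ.re * ‖wd g t‖) ≤ (1 + t) ^ 4 * ((1 + t) * ‖wd g t‖) := by gcongr
    _ = (1 + t) ^ 5 * ‖wd g t‖ := by ring
    _ ≤ C := h1

lemma inv_sq_int (C : ℝ) : Integrable (fun t : ℝ => C * (1 + ‖t‖) ^ (-(2:ℝ))) :=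
  (integrable_one_add_norm (E := ℝ) (μ := volume) (r := 2) (by simp)).const_mul C

lemma Wt_int {ρ : ℂ} (hρ : 0 < ρ.re) (hρ1 : ρ.re < 1) (g : 𝓢(ℝ, ℂ)) : IntegrableOn (Wt ρ g) (Ioi 0) := by
  obtain ⟨C, hC0, hC⟩ := Wt_decay hρ hρ1 g
  refine (inv_sq_int C).integrableOn.mono' (Wt_cont hρ g).aestronglyMeasurable ?_
  refine (ae_restrict_iff' measurableSet_Ioi).mpr (Eventually.of_forall fun t ht => ?_)
  have ht0 : (0:ℝ) < t := ht
  have h1 := hC t ht0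
  rw [Real.norm_of_nonneg ht0.le, Real.rpow_neg (by positivity), show (2:ℝ) = ((2:ℕ):ℝ) by norm_num,
    Real.rpow_natCast, ← div_eq_mul_inv, le_div_iff₀ (by positivity)]
  have h2 : (1 + t) ^ 2 ≤ (1 + t) ^ 4 := pow_le_pow_right₀ (by linarith) (by norm_num)
  nlinarith [norm_nonneg (Wt ρ g t)]

lemma PP_eq {ρ : ℂ} (hρ : 0 < ρ.re) (hρ1 : ρ.re < 1) (g : 𝓢(ℝ, ℂ)) {z : ℝ} (hz : 0 ≤ z) :
    PP ρ g z = -∫ t in Ioi z, Wt ρ g t := by
  unfold PP
  have hint := Wt_int hρ hρ1 g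
  have hsplit : ∫ t in Ioi (0:ℝ), Wt ρ g t = (∫ t in (0:ℝ)..z, Wt ρ g t) + ∫ t in Ioi z, Wt ρ g t := by
    rw [intervalIntegral.integral_of_le hz, ← setIntegral_union]
    · rw [Ioc_union_Ioi_eq_Ioi hz]
    · exact Set.Ioc_disjoint_Ioi le_rfl
    · exact measurableSet_Ioi
    · exact hint.mono_set fun x hx => hx.1
    · exact hint.mono_set fun x hx => lt_of_le_of_lt hz hx
  rw [hsplit]
  ring

lemma PP_cont {ρ : ℂ} (hρ : 0 < ρ.re) (g : 𝓢(ℝ, ℂ)) : Continuous (PP ρ g) := by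
  unfold PP
  refine continuous_const.add ?_
  exact intervalIntegral.continuous_primitive (fun a b => (Wt_cont hρ g).intervalIntegrable a b) 0

lemma PP_bound {ρ : ℂ} (hρ : 0 < ρ.re) (hρ1 : ρ.re < 1) (g : 𝓢(ℝ, ℂ)) :
    ∃ C : ℝ, 0 ≤ C ∧ ∀ z : ℝ, 0 ≤ z → ‖PP ρ g z‖ ≤ C / (1 + z) ^ 2 := by
  obtain ⟨C, hC0, hC⟩ := Wt_decay hρ hρ1 g
  set I := ∫ t in Ioi (0:ℝ), C * (1 + ‖t‖) ^ (-(2:ℝ)) with hI
  have hI0 : 0 ≤ I := setIntegral_nonneg measurableSet_Ioi fun t _ => by positivity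
  refine ⟨I, hI0, fun z hz => ?_⟩
  rw [PP_eq hρ hρ1 g hz, norm_neg, le_div_iff₀ (by positivity), mul_comm]
  have hint2 : IntegrableOn (fun t : ℝ => C * (1 + ‖t‖) ^ (-(2:ℝ))) (Ioi 0) := (inv_sq_int C).integrableOn
  have hpt : ∀ t ∈ Ioi z, (1 + z) ^ 2 * ‖Wt ρ g t‖ ≤ C * (1 + ‖t‖) ^ (-(2:ℝ)) := by
    intro t ht
    have ht0 : (0:ℝ) < t := lt_of_le_of_lt hz ht
    have hzt : z < t := ht
    have h1 := hC t ht0
    rw [Real.norm_of_nonneg ht0.le, Real.rpow_neg (by positivity), show (2:ℝ) = ((2:ℕ):ℝ) by norm_num,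
      Real.rpow_natCast, ← div_eq_mul_inv, le_div_iff₀ (by positivity)]
    have h2 : (1 + z) ^ 2 ≤ (1 + t) ^ 2 := by gcongr
    calc (1 + z) ^ 2 * ‖Wt ρ g t‖ * (1 + t) ^ 2 ≤ (1 + t) ^ 2 * ‖Wt ρ g t‖ * (1 + t) ^ 2 := by gcongr
      _ = (1 + t) ^ 4 * ‖Wt ρ g t‖ := by ring
      _ ≤ C := h1
  have hW := (Wt_int hρ hρ1 g).mono_set (Ioi_subset_Ioi hz)
  calc (1 + z) ^ 2 * ‖∫ t in Ioi z, Wt ρ g t‖ ≤ (1 + z) ^ 2 * ∫ t in Ioi z, ‖Wt ρ g t‖ := by
        gcongr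
        exact norm_integral_le_integral_norm _
    _ = ∫ t in Ioi z, (1 + z) ^ 2 * ‖Wt ρ g t‖ := by rw [integral_const_mul]
    _ ≤ ∫ t in Ioi z, C * (1 + ‖t‖) ^ (-(2:ℝ)) :=
        setIntegral_mono_on (hW.norm.const_mul _) (hint2.mono_set (Ioi_subset_Ioi hz)) measurableSet_Ioi hpt
    _ ≤ I := setIntegral_mono_set hint2 (Eventually.of_forall fun t => by positivity)
        (Ioi_subset_Ioi hz).eventuallyLE

lemma PP_zero {ρ : ℂ} (hρ : 0 < ρ.re) (hρ1 : ρ.re < 1) (g : 𝓢(ℝ, ℂ)) : PP ρ g 0 = ρ * mellin g ρ := by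
  have hρ0 : ρ ≠ 0 := by rintro rfl; simp at hρ
  obtain ⟨C, hC0, hC⟩ := sch_decay g 2
  have hb1 : ∀ t, ‖g t‖ ≤ C := by
    intro t
    have h1 := hC t
    have h2 : 1 ≤ (1 + |t|) ^ 2 := one_le_pow₀ (by linarith [abs_nonneg t])
    nlinarith [norm_nonneg (g t)]
  have hb2 : ∀ t, |t| * ‖g t‖ ≤ C := by
    intro t
    have h1 := hC t
    have h2 : |t| ≤ (1 + |t|) ^ 2 := by nlinarith [abs_nonneg t]
    nlinarith [norm_nonneg (g t)]
  have hM := mellinConv g.continuous hb1 hb2 hρ hρ1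
  unfold MellinConvergent at hM
  have hW := Wt_int hρ hρ1 g
  set f : ℝ → ℂ := fun t => (t : ℂ) ^ ρ * g t with hf
  have hfc : Continuous f := (Complex.continuous_ofReal_cpow_const hρ).mul g.continuous
  have hder : ∀ t ∈ Ioi (0:ℝ), HasDerivAt f (ρ * ((t : ℂ) ^ (ρ - 1) • g t) + Wt ρ g t) t := by
    intro t ht
    have ht0 : (0:ℝ) < t := ht
    have h1 := hasDerivAt_ofReal_cpow_const ht0.ne' hρ0
    have h2 := h1.mul (wd_hasDeriv g t)
    have e : ρ * ((t : ℂ) ^ (ρ - 1) • g t) + Wt ρ g t = ρ * (t : ℂ) ^ (ρ - 1) * g t + (t : ℂ) ^ ρ * wd g t := by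
      unfold Wt
      rw [smul_eq_mul]
      ring
    rw [e]
    exact h2
  have hlim : Tendsto f atTop (𝓝 0) := by
    have h1 : Tendsto (fun t : ℝ => C * (1 + t)⁻¹) atTop (𝓝 0) := by
      have h2 : Tendsto (fun t : ℝ => 1 + t) atTop atTop := tendsto_atTop_add_const_left _ _ tendsto_id
      have := (tendsto_inv_atTop_zero.comp h2).const_mul C
      rwa [mul_zero] at this
    refine squeeze_zero_norm' ?_ h1
    filter_upwards [eventually_gt_atTop 0] with t ht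
    simp only [hf]
    rw [norm_mul, Complex.norm_cpow_eq_rpow_re_of_pos ht]
    have h2 : t ^ ρ.re ≤ 1 + t := by
      calc t ^ ρ.re ≤ (1 + t) ^ ρ.re := Real.rpow_le_rpow ht.le (by linarith) hρ.le
        _ ≤ (1 + t) ^ (1:ℝ) := Real.rpow_le_rpow_of_exponent_le (by linarith) hρ1.le
        _ = 1 + t := Real.rpow_one _
    have h3 := hC t
    rw [abs_of_pos ht] at h3
    rw [← div_eq_mul_inv, le_div_iff₀ (by linarith)]
    calc t ^ ρ.re * ‖g t‖ * (1 + t) ≤ (1 + t) * ‖g t‖ * (1 + t) := by gcongr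
      _ = (1 + t) ^ 2 * ‖g t‖ := by ring
      _ ≤ C := h3
  have hI := integral_Ioi_of_hasDerivAt_of_tendsto hfc.continuousWithinAt hder
    ((hM.const_mul ρ).add hW) hlim
  have hf0 : f 0 = 0 := by
    simp only [hf]
    rw [Complex.ofReal_zero, Complex.zero_cpow hρ0, zero_mul]
  rw [hf0, sub_zero, integral_add (hM.const_mul ρ) hW, integral_const_mul] at hI
  unfold PP mellin
  rw [intervalIntegral.integral_same, add_zero]
  linear_combination -hI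

lemma PP_sub {ρ : ℂ} (_hρ : 0 < ρ.re) (g : 𝓢(ℝ, ℂ)) {N y : ℝ} (hN : 0 < N) (hy : 0 < y) :
    (y : ℂ) ^ (-(ρ + 1)) * (PP ρ g (y / N) - PP ρ g 0) =
      ∫ l in Ioc (0:ℝ) (1 / N), (l : ℂ) ^ ρ * wd g (l * y) := by
  have hyc : (y:ℂ) ≠ 0 := by exact_mod_cast hy.ne'
  have e0 : PP ρ g (y / N) - PP ρ g 0 = ∫ t in (0:ℝ)..(y / N), Wt ρ g t := by
    unfold PP
    rw [intervalIntegral.integral_same]
    ring
  have h1 := intervalIntegral.integral_comp_mul_left (a := 0) (b := 1 / N) (fun t => Wt ρ g t) hy.ne'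
  rw [mul_zero, mul_one_div, Complex.real_smul] at h1
  have e1 : ∫ l in (0:ℝ)..(1 / N), Wt ρ g (y * l) = (y:ℂ) ^ ρ * ∫ l in (0:ℝ)..(1 / N), (l : ℂ) ^ ρ * wd g (l * y) := by
    rw [← intervalIntegral.integral_const_mul]
    refine intervalIntegral.integral_congr fun l hl => ?_
    rw [uIcc_of_le (by positivity)] at hl
    unfold Wt
    rw [Complex.ofReal_mul, Complex.mul_cpow_ofReal_nonneg hy.le hl.1, mul_comm y l]
    ring
  rw [e0, ← intervalIntegral.integral_of_le (by positivity)]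
  rw [e1] at h1
  have e2 : ∫ t in (0:ℝ)..(y / N), Wt ρ g t = (y:ℂ) * ((y:ℂ) ^ ρ * ∫ l in (0:ℝ)..(1 / N), (l : ℂ) ^ ρ * wd g (l * y)) := by
    rw [h1]
    push_cast
    field_simp
  rw [e2]
  have e3 : (y:ℂ) ^ (-(ρ + 1)) * ((y:ℂ) * (y:ℂ) ^ ρ) = 1 := by
    have : (y:ℂ) * (y:ℂ) ^ ρ = (y:ℂ) ^ (ρ + 1) := by
      rw [Complex.cpow_add _ _ hyc, Complex.cpow_one]; ring
    rw [this, ← Complex.cpow_add _ _ hyc]
    simp
  linear_combination (∫ l in (0:ℝ)..(1 / N), (l : ℂ) ^ ρ * wd g (l * y)) * e3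

/-- **the exact annihilator** -/
theorem annih {ρ : ℂ} (hρ : 0 < ρ.re) (hρ1 : ρ.re < 1) (hz : riemannZeta ρ = 0) {g : 𝓢(ℝ, ℂ)} (hg : Gd ρ g)
    {N θ : ℝ} (hN : 0 < N) (h1 : 1 / N ≤ θ) (h2 : θ ≤ 1) :
    ∫ y in Ioi (1:ℝ), ((kth θ y : ℝ) : ℂ) * ((y : ℂ) ^ (-(ρ + 1)) * PP ρ g (y / N)) = 0 := by
  have hN' : 0 < 1 / N := by positivity
  have hθ : 0 < θ := lt_of_lt_of_le hN' h1
  have hk1 : ∀ y, |kth θ y| ≤ 1 := fun y => kth_abs hθ.le h2
  -- the function of two variables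
  set F : ℝ → ℝ → ℂ := fun l y => ((kth θ y : ℝ) : ℂ) * ((l : ℂ) ^ ρ * wd g (l * y)) with hF
  have hmeas : AEStronglyMeasurable (Function.uncurry F)
      ((volume.restrict (Ioc (0:ℝ) (1 / N))).prod (volume.restrict (Ioi (1:ℝ)))) := by
    refine Measurable.aestronglyMeasurable ?_
    refine Measurable.mul ?_ ?_
    · exact Complex.measurable_ofReal.comp ((kth_meas θ).comp measurable_snd)
    · have c1 : Continuous (fun p : ℝ × ℝ => (p.1 : ℂ) ^ ρ) :=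
        (Complex.continuous_ofReal_cpow_const hρ).comp continuous_fst
      have c2 : Continuous (fun p : ℝ × ℝ => wd g (p.1 * p.2)) :=
        (wd g).continuous.comp (continuous_fst.mul continuous_snd)
      exact (c1.mul c2).measurable
  have hwint : Integrable (wd g) := (wd g).integrable
  have hwn : Integrable (fun t => ‖wd g t‖) := hwint.norm
  set W1 := ∫ t, ‖wd g t‖ with hW1
  have hW10 : 0 ≤ W1 := integral_nonneg fun t => norm_nonneg _
  have hl_int : ∀ l : ℝ, 0 < l → Integrable (fun y : ℝ => wd g (l * y)) := fun l hl => hwint.comp_mul_left' hl.ne'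
  have hl_norm : ∀ l : ℝ, 0 < l → ∫ y, ‖wd g (l * y)‖ = l⁻¹ * W1 := by
    intro l hl
    have := Measure.integral_comp_mul_left (fun t => ‖wd g t‖) l
    rw [this, abs_of_pos (inv_pos.mpr hl), smul_eq_mul]
  have hFbound : ∀ l : ℝ, 0 < l → ∀ y, ‖F l y‖ ≤ l ^ ρ.re * ‖wd g (l * y)‖ := by
    intro l hl y
    simp only [hF]
    rw [norm_mul, norm_mul, Complex.norm_real, Real.norm_eq_abs, Complex.norm_cpow_eq_rpow_re_of_pos hl]
    have := hk1 y
    have h3 : 0 ≤ l ^ ρ.re * ‖wd g (l * y)‖ := by positivity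
    nlinarith [abs_nonneg (kth θ y)]
  have hFl : ∀ l : ℝ, 0 < l → IntegrableOn (F l) (Ioi 1) := by
    intro l hl
    have h3 : Integrable (fun y => l ^ ρ.re * ‖wd g (l * y)‖) := (hl_int l hl).norm.const_mul _
    refine h3.integrableOn.mono' ?_ (Eventually.of_forall fun y => hFbound l hl y)
    refine AEStronglyMeasurable.mul ?_ ?_
    · exact (Complex.measurable_ofReal.comp (kth_meas θ)).aestronglyMeasurable
    · exact (continuous_const.mul ((wd g).continuous.comp (continuous_const.mul continuous_id))).aestronglyMeasurable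
  have hint : Integrable (Function.uncurry F)
      ((volume.restrict (Ioc (0:ℝ) (1 / N))).prod (volume.restrict (Ioi (1:ℝ)))) := by
    rw [integrable_prod_iff hmeas]
    constructor
    · refine (ae_restrict_iff' measurableSet_Ioc).mpr (Eventually.of_forall fun l hl => ?_)
      exact hFl l hl.1
    · have hmaj : IntegrableOn (fun l : ℝ => l ^ (ρ.re - 1) * W1) (Ioc 0 (1 / N)) := by
        have := (intervalIntegral.intervalIntegrable_rpow' (a := 0) (b := 1 / N) (r := ρ.re - 1) (by linarith))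
        rw [intervalIntegrable_iff_integrableOn_Ioc_of_le hN'.le] at this
        exact this.mul_const W1
      refine hmaj.mono' hmeas.norm.integral_prod_right' ?_
      refine (ae_restrict_iff' measurableSet_Ioc).mpr (Eventually.of_forall fun l hl => ?_)
      have hl0 : 0 < l := hl.1
      rw [Real.norm_of_nonneg (integral_nonneg fun y => norm_nonneg _)]
      simp only [Function.uncurry_apply_pair]
      have h3 : Integrable (fun y => l ^ ρ.re * ‖wd g (l * y)‖) := (hl_int l hl0).norm.const_mul _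
      calc ∫ y in Ioi (1:ℝ), ‖F l y‖ ≤ ∫ y in Ioi (1:ℝ), l ^ ρ.re * ‖wd g (l * y)‖ :=
            setIntegral_mono_on (hFl l hl0).norm h3.integrableOn measurableSet_Ioi (fun y _ => hFbound l hl0 y)
        _ ≤ ∫ y, l ^ ρ.re * ‖wd g (l * y)‖ :=
            setIntegral_le_integral h3 (Eventually.of_forall fun y => by positivity)
        _ = l ^ (ρ.re - 1) * W1 := by
            rw [integral_const_mul, hl_norm l hl0, Real.rpow_sub_one hl0.ne']
            ring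
  have hswap := integral_integral_swap hint
  have hin : ∀ l ∈ Ioc (0:ℝ) (1 / N), ∫ y in Ioi (1:ℝ), F l y = 0 := by
    intro l hl
    have h3 := inner_zero hg hl.1 (hl.2.trans h1) h2
    have e : ∀ y, F l y = (l : ℂ) ^ ρ * (((kth θ y : ℝ) : ℂ) * wd g (l * y)) := by
      intro y; simp only [hF]; ring
    simp_rw [e]
    rw [integral_const_mul, h3, mul_zero]
  have hzero : ∫ l in Ioc (0:ℝ) (1 / N), ∫ y in Ioi (1:ℝ), F l y = 0 := by
    rw [setIntegral_congr_fun measurableSet_Ioc hin]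
    simp
  rw [hzero] at hswap
  -- decomposition of the annihilator
  have hdec : ∀ y ∈ Ioi (1:ℝ), ((kth θ y : ℝ) : ℂ) * ((y : ℂ) ^ (-(ρ + 1)) * PP ρ g (y / N)) =
      (PP ρ g 0) * (((kth θ y : ℝ) : ℂ) * (y : ℂ) ^ (-(ρ + 1))) + ∫ l in Ioc (0:ℝ) (1 / N), F l y := by
    intro y hy
    have hy0 : (0:ℝ) < y := lt_trans one_pos hy
    have h3 := PP_sub hρ g hN hy0
    simp only [hF]
    rw [integral_const_mul, ← h3]
    ring
  rw [setIntegral_congr_fun measurableSet_Ioi hdec]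
  have i1 : IntegrableOn (fun y : ℝ => (PP ρ g 0) * (((kth θ y : ℝ) : ℂ) * (y : ℂ) ^ (-(ρ + 1)))) (Ioi 1) :=
    (bdd_cpow_integrableOn hρ (kth_meas θ) hk1 one_pos).const_mul _
  have i2 : IntegrableOn (fun y : ℝ => ∫ l in Ioc (0:ℝ) (1 / N), F l y) (Ioi 1) :=
    hint.swap.integral_prod_left
  rw [integral_add i1 i2, integral_const_mul, kth_vanish hρ hρ1 hz hθ h2, ← hswap]
  simp

end

end Pool.Agent.K3h56.BN
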