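import Pool.Agent.K3h56.BN.R5

/-! The lower bound for all finite combinations of real dilations. -/

set_option autoImplicit false

open MeasureTheory Filter Topology Set
open scoped ContDiff FourierTransform SchwartzMap

namespace Pool.Agent.K3h56.BN

noncomputable section

/-- the annihilator -/
def an (ρ : ℂ) (g : 𝓢(ℝ, ℂ)) (N y : ℝ) : ℂ := (y : ℂ) ^ (-(ρ + 1)) * PP ρ g (y / N)

lemma an_meas {ρ : ℂ} (hρ : 0 < ρ.re) (g : 𝓢(ℝ, ℂ)) (N : ℝ) :
    AEStronglyMeasurable (an ρ g N) (volume.restrict (Ioi 1)) := by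
  unfold an
  refine AEStronglyMeasurable.mul ?_ ?_
  · refine ContinuousOn.aestronglyMeasurable (fun t ht => ?_) measurableSet_Ioi
    have ht0 : (0:ℝ) < t := lt_trans one_pos ht
    exact (Complex.continuousAt_ofReal_cpow_const t _ (Or.inr ht0.ne')).continuousWithinAt
  · exact ((PP_cont hρ g).comp (continuous_id.div_const N)).aestronglyMeasurable

lemma an_norm {ρ : ℂ} {g : 𝓢(ℝ, ℂ)} {C : ℝ} (hC : ∀ z : ℝ, 0 ≤ z → ‖PP ρ g z‖ ≤ C / (1 + z) ^ 2)
    {N y : ℝ} (hN : 0 < N) (hy : 0 < y) :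
    ‖an ρ g N y‖ ≤ y ^ (-(ρ.re + 1)) * (C / (1 + y / N) ^ 2) := by
  unfold an
  rw [norm_mul, Complex.norm_cpow_eq_rpow_re_of_pos hy]
  have : (-(ρ + 1)).re = -(ρ.re + 1) := by simp
  rw [this]
  exact mul_le_mul_of_nonneg_left (hC _ (by positivity)) (by positivity)

lemma rpow_int {β : ℝ} (hβ : 0 < β) (C : ℝ) : IntegrableOn (fun y : ℝ => C * y ^ (-(β + 1))) (Ioi 1) :=
  (integrableOn_Ioi_rpow_of_lt (by linarith) one_pos).const_mul C

lemma an_norm' {ρ : ℂ} {g : 𝓢(ℝ, ℂ)} {C : ℝ} (hC0 : 0 ≤ C) (hC : ∀ z : ℝ, 0 ≤ z → ‖PP ρ g z‖ ≤ C / (1 + z) ^ 2)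
    {N y : ℝ} (hN : 0 < N) (hy : 0 < y) :
    ‖an ρ g N y‖ ≤ C * y ^ (-(ρ.re + 1)) := by
  refine (an_norm hC hN hy).trans ?_
  have h1 : C / (1 + y / N) ^ 2 ≤ C := by
    apply div_le_self hC0
    apply one_le_pow₀
    have : 0 ≤ y / N := by positivity
    linarith
  have h2 : 0 ≤ y ^ (-(ρ.re + 1)) := by positivity
  nlinarith

lemma an_int {ρ : ℂ} (hρ : 0 < ρ.re) (hρ1 : ρ.re < 1) (g : 𝓢(ℝ, ℂ)) {N : ℝ} (hN : 0 < N) {f : ℝ → ℝ}
    (hf : Measurable f) {B : ℝ} (hB : ∀ y, |f y| ≤ B) :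
    IntegrableOn (fun y => ((f y : ℝ) : ℂ) * an ρ g N y) (Ioi 1) := by
  obtain ⟨C, hC0, hC⟩ := PP_bound hρ hρ1 g
  have hB0 : 0 ≤ B := (abs_nonneg _).trans (hB 0)
  refine (rpow_int hρ (B * C)).mono' ?_ ?_
  · exact (Complex.measurable_ofReal.comp hf).aestronglyMeasurable.mul (an_meas hρ g N)
  · refine (ae_restrict_iff' measurableSet_Ioi).mpr (Eventually.of_forall fun y hy => ?_)
    have hy0 : (0:ℝ) < y := lt_trans one_pos hy
    rw [norm_mul, Complex.norm_real, Real.norm_eq_abs]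
    calc |f y| * ‖an ρ g N y‖ ≤ B * (C * y ^ (-(ρ.re + 1))) :=
          mul_le_mul (hB y) (an_norm' hC0 hC hN hy0) (norm_nonneg _) hB0
      _ = _ := by ring

lemma an_lim {ρ : ℂ} (hρ : 0 < ρ.re) (hρ1 : ρ.re < 1) (g : 𝓢(ℝ, ℂ)) :
    Tendsto (fun N : ℝ => ∫ y in Ioi (1:ℝ), an ρ g N y) atTop (𝓝 (mellin g ρ)) := by
  obtain ⟨C, hC0, hC⟩ := PP_bound hρ hρ1 g
  have hρ0 : ρ ≠ 0 := by rintro rfl; simp at hρ
  have hval : mellin g ρ = ∫ y in Ioi (1:ℝ), (y : ℂ) ^ (-(ρ + 1)) * PP ρ g 0 := by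
    rw [integral_mul_const, integral_Ioi_cpow_of_lt (by simp; exact hρ) one_pos, PP_zero hρ hρ1]
    have e : -(ρ + 1) + 1 = -ρ := by ring
    rw [e, Complex.ofReal_one, Complex.one_cpow]
    field_simp
  rw [hval]
  refine tendsto_integral_filter_of_dominated_convergence (fun y => C * y ^ (-(ρ.re + 1))) ?_ ?_
    (rpow_int hρ C) ?_
  · exact Eventually.of_forall fun N => an_meas hρ g N
  · filter_upwards [eventually_gt_atTop 0] with N hN
    refine (ae_restrict_iff' measurableSet_Ioi).mpr (Eventually.of_forall fun y hy => ?_)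
    exact an_norm' hC0 hC hN (lt_trans one_pos hy)
  · refine (ae_restrict_iff' measurableSet_Ioi).mpr (Eventually.of_forall fun y hy => ?_)
    unfold an
    refine Tendsto.const_mul _ ?_
    have h1 : Tendsto (fun N : ℝ => y / N) atTop (𝓝 0) := tendsto_const_nhds.div_atTop tendsto_id
    exact ((PP_cont hρ g).tendsto 0).comp h1

lemma W_int {N : ℝ} (hN : 0 < N) :
    IntegrableOn (fun y : ℝ => N / (y * (y + N))) (Ioi 1) ∧
    ∫ y in Ioi (1:ℝ), N / (y * (y + N)) = Real.log (1 + N) := by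
  have hder : ∀ y ∈ Ici (1:ℝ), HasDerivAt (fun y : ℝ => -Real.log (1 + N / y)) (N / (y * (y + N))) y := by
    intro y hy
    have hy0 : (0:ℝ) < y := lt_of_lt_of_le one_pos hy
    have h1 : HasDerivAt (fun y : ℝ => 1 + N / y) (-(N / y ^ 2)) y := by
      have h2 : HasDerivAt (fun y : ℝ => 1 + N * y⁻¹) (N * (-(y ^ 2)⁻¹)) y :=
        ((hasDerivAt_inv hy0.ne').const_mul N).const_add 1
      have e1 : (fun y : ℝ => 1 + N / y) = fun y : ℝ => 1 + N * y⁻¹ := by ext; rw [div_eq_mul_inv]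
      rw [e1]
      have e2 : -(N / y ^ 2) = N * (-(y ^ 2)⁻¹) := by rw [div_eq_mul_inv]; ring
      rw [e2]
      exact h2
    have h3 := (h1.log (by positivity)).neg
    have e : N / (y * (y + N)) = -(-(N / y ^ 2) / (1 + N / y)) := by
      field_simp
    rw [e]
    exact h3
  have hlim : Tendsto (fun y : ℝ => -Real.log (1 + N / y)) atTop (𝓝 0) := by
    have h1 : Tendsto (fun y : ℝ => 1 + N / y) atTop (𝓝 (1 + 0)) :=
      tendsto_const_nhds.add (tendsto_const_nhds.div_atTop tendsto_id)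
    rw [add_zero] at h1
    have h2 := ((Real.continuousAt_log (by norm_num : (1:ℝ) ≠ 0)).tendsto.comp h1).neg
    rw [Real.log_one, neg_zero] at h2
    exact h2
  have hpos : ∀ y ∈ Ioi (1:ℝ), 0 ≤ N / (y * (y + N)) := by
    intro y hy
    have hy0 : (0:ℝ) < y := lt_trans one_pos hy
    positivity
  refine ⟨integrableOn_Ioi_deriv_of_nonneg' hder hpos hlim, ?_⟩
  rw [integral_Ioi_of_hasDerivAt_of_nonneg' hder hpos hlim]
  simp

/-- the change of variable `x = 1/y` -/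
lemma subst_inv (F : ℝ → ℝ) : ∫ x in (0:ℝ)..1, F x = ∫ y in Ioi (1:ℝ), y ^ (-(2:ℝ)) * F (1 / y) := by
  have h := integral_comp_rpow_Ioi (fun x => (Ioo (0:ℝ) 1).indicator F x) (p := -1) (by norm_num)
  have e1 : ∫ y in Ioi (0:ℝ), (Ioo (0:ℝ) 1).indicator F y = ∫ x in (0:ℝ)..1, F x := by
    rw [intervalIntegral.integral_of_le zero_le_one, integral_Ioc_eq_integral_Ioo,
      setIntegral_indicator measurableSet_Ioo]
    congr 2
    ext x
    simp only [mem_inter_iff, mem_Ioi, mem_Ioo]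
    constructor
    · rintro ⟨_, h⟩; exact h
    · intro h; exact ⟨h.1, h⟩
  rw [e1] at h
  rw [← h]
  have e2 : ∫ y in Ioi (1:ℝ), y ^ (-(2:ℝ)) * F (1 / y) =
      ∫ y in Ioi (0:ℝ), (Ioi (1:ℝ)).indicator (fun y => y ^ (-(2:ℝ)) * F (1 / y)) y := by
    rw [setIntegral_indicator measurableSet_Ioi]
    congr 2
    ext x
    simp only [mem_inter_iff, mem_Ioi]
    constructor
    · intro h; exact ⟨by linarith, h⟩
    · rintro ⟨_, h⟩; exact h
  rw [e2]
  refine setIntegral_congr_fun measurableSet_Ioi fun y hy => ?_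
  have hy0 : (0:ℝ) < y := hy
  simp only [smul_eq_mul]
  have e3 : y ^ (-1:ℝ) = 1 / y := by rw [Real.rpow_neg_one, one_div]
  rw [e3]
  by_cases h1 : 1 < y
  · rw [indicator_of_mem (show 1 / y ∈ Ioo (0:ℝ) 1 from ⟨by positivity, by rw [div_lt_one hy0]; exact h1⟩),
      indicator_of_mem (show y ∈ Ioi (1:ℝ) from h1)]
    norm_num
  · have h2 : 1 / y ∉ Ioo (0:ℝ) 1 := by
      rintro ⟨_, h3⟩
      rw [div_lt_one hy0] at h3
      exact h1 h3
    rw [indicator_of_notMem h2, indicator_of_notMem (show y ∉ Ioi (1:ℝ) from h1)]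
    simp

/-- `1 - ∑ c_θ {θ y}` -/
def Ey (s : Finset ℝ) (c : ℝ → ℝ) (y : ℝ) : ℝ := 1 - ∑ θ ∈ s, c θ * Int.fract (θ * y)

lemma Ey_meas (s : Finset ℝ) (c : ℝ → ℝ) : Measurable (Ey s c) := by
  unfold Ey
  refine measurable_const.sub (Finset.measurable_sum _ fun θ _ => ?_)
  exact (measurable_fract.comp (measurable_const_mul θ)).const_mul (c θ)

lemma Ey_abs (s : Finset ℝ) (c : ℝ → ℝ) (y : ℝ) : |Ey s c y| ≤ 1 + ∑ θ ∈ s, |c θ| := by
  unfold Ey
  refine (abs_sub _ _).trans ?_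
  rw [abs_one]
  gcongr
  refine (Finset.abs_sum_le_sum_abs _ _).trans ?_
  refine Finset.sum_le_sum fun θ _ => ?_
  rw [abs_mul, abs_of_nonneg (Int.fract_nonneg (θ * y))]
  have := (Int.fract_lt_one (θ * y)).le
  nlinarith [abs_nonneg (c θ)]

/-- the pairing with the annihilator -/
lemma pair_an {ρ : ℂ} (hρ : 0 < ρ.re) (hρ1 : ρ.re < 1) (hz : riemannZeta ρ = 0) {g : 𝓢(ℝ, ℂ)} (hg : Gd ρ g)
    {N : ℝ} (hN : 0 < N) {s : Finset ℝ} {c : ℝ → ℝ} (hs : ∀ θ ∈ s, 1 / N ≤ θ ∧ θ ≤ 1)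
    (hc : ∑ θ ∈ s, c θ * θ = 0) :
    ∫ y in Ioi (1:ℝ), ((Ey s c y : ℝ) : ℂ) * an ρ g N y = ∫ y in Ioi (1:ℝ), an ρ g N y := by
  have hk : ∀ θ ∈ s, ∀ y, |kth θ y| ≤ 1 := by
    intro θ hθ y
    exact kth_abs ((by positivity : (0:ℝ) ≤ 1 / N).trans (hs θ hθ).1) (hs θ hθ).2
  have e1 : ∀ y, Ey s c y = 1 - ∑ θ ∈ s, c θ * kth θ y := by
    intro y
    unfold Ey kth
    have : ∑ θ ∈ s, c θ * (Int.fract (θ * y) - θ * Int.fract y) =
        ∑ θ ∈ s, c θ * Int.fract (θ * y) - (∑ θ ∈ s, c θ * θ) * Int.fract y := by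
      rw [Finset.sum_mul, ← Finset.sum_sub_distrib]
      refine Finset.sum_congr rfl fun θ _ => ?_
      ring
    rw [this, hc]
    ring
  have hi0 : IntegrableOn (fun y => an ρ g N y) (Ioi 1) := by
    have := an_int hρ hρ1 g hN (f := fun _ => 1) measurable_const (B := 1) (fun _ => by simp)
    simpa using this
  have hi : ∀ θ ∈ s, IntegrableOn (fun y => ((kth θ y : ℝ) : ℂ) * an ρ g N y) (Ioi 1) := fun θ hθ =>
    an_int hρ hρ1 g hN (kth_meas θ) (hk θ hθ)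
  have e2 : ∀ y, ((Ey s c y : ℝ) : ℂ) * an ρ g N y =
      an ρ g N y - ∑ θ ∈ s, (c θ : ℂ) * (((kth θ y : ℝ) : ℂ) * an ρ g N y) := by
    intro y
    rw [e1]
    push_cast
    rw [sub_mul, one_mul, Finset.sum_mul]
    congr 1
    refine Finset.sum_congr rfl fun θ _ => ?_
    ring
  simp_rw [e2]
  rw [integral_sub hi0 (integrable_finsetSum _ fun θ hθ => (hi θ hθ).const_mul _),
    integral_finsetSum _ fun θ hθ => (hi θ hθ).const_mul _]
  have e3 : ∑ θ ∈ s, ∫ y in Ioi (1:ℝ), (c θ : ℂ) * (((kth θ y : ℝ) : ℂ) * an ρ g N y) = 0 := by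
    refine Finset.sum_eq_zero fun θ hθ => ?_
    rw [integral_const_mul]
    have := annih hρ hρ1 hz hg hN (hs θ hθ).1 (hs θ hθ).2
    unfold an
    rw [this, mul_zero]
  rw [e3, sub_zero]

lemma tau_trick {x τ p : ℝ} (hx : 0 ≤ x) (hτ : 0 < τ) (hp : 1 ≤ p) : x ≤ τ + τ ^ (1 - p) * x ^ p := by
  rcases le_or_gt x τ with h | h
  · have : 0 ≤ τ ^ (1 - p) * x ^ p := by positivity
    linarith
  · have hx0 : 0 < x := by linarith
    have h1 : x ≤ τ ^ (1 - p) * x ^ p := by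
      have e : x ^ p = x * x ^ (p - 1) := by
        rw [mul_comm, ← Real.rpow_add_one hx0.ne']; congr 1; ring
      have h2 : τ ^ (p - 1) ≤ x ^ (p - 1) := Real.rpow_le_rpow hτ.le h.le (by linarith)
      have h3 : τ ^ (1 - p) * τ ^ (p - 1) = 1 := by
        rw [← Real.rpow_add hτ]; simp
      rw [e]
      calc x = x * (τ ^ (1 - p) * τ ^ (p - 1)) := by rw [h3, mul_one]
        _ ≤ x * (τ ^ (1 - p) * x ^ (p - 1)) := by gcongr
        _ = _ := by ring
    linarith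

/-- **The lower bound from one zero, for all finite combinations.** -/
theorem real_lower {ρ : ℂ} (hρ : 0 < ρ.re) (hρ1 : ρ.re < 1) (hz : riemannZeta ρ = 0) {p : ℝ} (hp : 1 ≤ p) :
    ∃ K : ℝ, 0 < K ∧ ∃ N0 : ℝ, 1 ≤ N0 ∧ ∀ N : ℝ, N0 ≤ N → ∀ (s : Finset ℝ) (c : ℝ → ℝ),
      (∀ θ ∈ s, 1 / N ≤ θ ∧ θ ≤ 1) → ∑ θ ∈ s, c θ * θ = 0 →
      K * (Real.log (1 + N) ^ (1 - p) * N ^ (-(max 0 (1 - p * ρ.re)))) ≤
        ∫ x in (0:ℝ)..1, |1 - ∑ θ ∈ s, c θ * Int.fract (θ / x)| ^ p := by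
  obtain ⟨g, hg⟩ := exists_Gd hρ hρ1
  obtain ⟨C', hC0', hC'⟩ := PP_bound hρ hρ1 g
  set C := C' + 1 with hCdef
  have hC0 : 0 < C := by positivity
  have hC : ∀ z : ℝ, 0 ≤ z → ‖PP ρ g z‖ ≤ C / (1 + z) ^ 2 := by
    intro z hz
    refine (hC' z hz).trans ?_
    gcongr
    linarith
  set m0 := ‖mellin g ρ‖ with hm0
  have hm0' : 0 < m0 := norm_pos_iff.mpr hg.mell
  have hlim := (an_lim hρ hρ1 g).norm
  have hev := hlim.eventually_const_le (show m0 / 2 < m0 by linarith)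
  obtain ⟨N1, hN1⟩ := eventually_atTop.mp hev
  set d : ℝ := m0 / (4 * C) with hd
  have hd0 : 0 < d := by positivity
  refine ⟨d * d ^ (p - 1), by positivity, max N1 1, le_max_right _ _, fun N hN s c hs hc => ?_⟩
  have hN1' : N1 ≤ N := (le_max_left _ _).trans hN
  have hN1r : 1 ≤ N := (le_max_right _ _).trans hN
  have hN0 : 0 < N := by linarith
  set β := ρ.re with hβ
  set M := max 0 (1 - p * β) with hM
  have hM0 : 0 ≤ M := le_max_left _ _
  have hM1 : M ≤ 1 := max_le (by norm_num) (by nlinarith)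
  set B := 1 + ∑ θ ∈ s, |c θ| with hB
  have hB0 : 0 ≤ B := by positivity
  -- the norm as an integral over `(1, ∞)`
  have hDeq : ∫ x in (0:ℝ)..1, |1 - ∑ θ ∈ s, c θ * Int.fract (θ / x)| ^ p =
      ∫ y in Ioi (1:ℝ), y ^ (-(2:ℝ)) * |Ey s c y| ^ p := by
    rw [subst_inv]
    refine setIntegral_congr_fun measurableSet_Ioi fun y hy => ?_
    have hy0 : (0:ℝ) < y := lt_trans one_pos hy
    unfold Ey
    simp only [div_div_eq_mul_div, div_one]
  set D := ∫ y in Ioi (1:ℝ), y ^ (-(2:ℝ)) * |Ey s c y| ^ p with hD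
  have hDint : IntegrableOn (fun y : ℝ => y ^ (-(2:ℝ)) * |Ey s c y| ^ p) (Ioi 1) := by
    have h1 : IntegrableOn (fun y : ℝ => y ^ (-(2:ℝ)) * B ^ p) (Ioi 1) :=
      (integrableOn_Ioi_rpow_of_lt (by norm_num) one_pos).mul_const _
    refine h1.mono' ?_ ?_
    · have m1 : Measurable (fun y : ℝ => y ^ (-(2:ℝ)) * |Ey s c y| ^ p) :=
        (measurable_id.pow_const _).mul ((Ey_meas s c).abs.pow_const p)
      exact m1.aestronglyMeasurable
    · refine (ae_restrict_iff' measurableSet_Ioi).mpr (Eventually.of_forall fun y hy => ?_)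
      have hy0 : (0:ℝ) < y := lt_trans one_pos hy
      rw [Real.norm_of_nonneg (by positivity)]
      exact mul_le_mul_of_nonneg_left (Real.rpow_le_rpow (abs_nonneg _) (Ey_abs s c y) (by linarith)) (by positivity)
  have hD0 : 0 ≤ D := setIntegral_nonneg measurableSet_Ioi fun y hy => by
    have hy0 : (0:ℝ) < y := lt_trans one_pos hy
    positivity
  rw [hDeq]
  obtain ⟨hWint, hWval⟩ := W_int hN0
  set W := Real.log (1 + N) with hW
  have hW0 : 0 < W := Real.log_pos (by linarith)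
  set τ : ℝ := d / W with hτ
  have hτ0 : 0 < τ := by positivity
  -- pointwise bound
  have hpt : ∀ y ∈ Ioi (1:ℝ), ‖((Ey s c y : ℝ) : ℂ) * an ρ g N y‖ ≤
      C * (τ * (N / (y * (y + N))) + τ ^ (1 - p) * N ^ M * (y ^ (-(2:ℝ)) * |Ey s c y| ^ p)) := by
    intro y hy
    have hy1 : (1:ℝ) < y := hy
    have hy0 : (0:ℝ) < y := lt_trans one_pos hy
    set q := 1 + y / N with hq
    have hq1 : 1 ≤ q := by
      have : 0 ≤ y / N := by positivity
      linarith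
    have hq0 : 0 < q := by linarith
    have hw : N / (y * (y + N)) = y⁻¹ * q⁻¹ := by
      rw [hq]; field_simp
      ring
    rw [norm_mul, Complex.norm_real, Real.norm_eq_abs]
    have h1 := an_norm (ρ := ρ) hC hN0 hy0
    rw [← hβ, ← hq] at h1
    set X := |Ey s c y| * y ^ (-β) * q⁻¹ with hX
    have hX0 : 0 ≤ X := by positivity
    have h2 := tau_trick hX0 hτ0 hp
    have e1 : |Ey s c y| * (y ^ (-(β + 1)) * (C / q ^ 2)) = C * (X * (y⁻¹ * q⁻¹)) := by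
      rw [hX, show -(β + 1) = -β - 1 by ring, Real.rpow_sub_one hy0.ne']
      field_simp
    have e2 : X ^ p * (y⁻¹ * q⁻¹) ≤ N ^ M * (y ^ (-(2:ℝ)) * |Ey s c y| ^ p) := by
      have e3 : X ^ p = |Ey s c y| ^ p * y ^ (-β * p) * q ^ (-p) := by
        rw [hX, Real.mul_rpow (by positivity) (by positivity), Real.mul_rpow (by positivity) (by positivity),
          ← Real.rpow_mul hy0.le, Real.inv_rpow hq0.le, Real.rpow_neg hq0.le]
      have e4 : y ^ (-β * p) * y⁻¹ = y ^ (-(2:ℝ)) * y ^ (1 - p * β) := by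
        rw [← Real.rpow_neg_one, ← Real.rpow_add hy0, ← Real.rpow_add hy0]
        congr 1; ring
      have e5 : y ^ (1 - p * β) * (q ^ (-p) * q⁻¹) ≤ N ^ M := by
        have a1 : q ^ (-p) * q⁻¹ = q ^ (-(p + 1)) := by
          rw [← Real.rpow_neg_one, ← Real.rpow_add hq0]; congr 1; ring
        rw [a1]
        have a2 : y ^ (1 - p * β) ≤ N ^ M * q ^ M := by
          rw [← Real.mul_rpow hN0.le hq0.le]
          have a3 : y ≤ N * q := by
            rw [hq]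
            have : N * (1 + y / N) = N + y := by field_simp
            linarith
          calc y ^ (1 - p * β) ≤ y ^ M := Real.rpow_le_rpow_of_exponent_le hy1.le (le_max_right _ _)
            _ ≤ (N * q) ^ M := Real.rpow_le_rpow hy0.le a3 hM0
        have a4 : q ^ M * q ^ (-(p + 1)) ≤ 1 := by
          rw [← Real.rpow_add hq0]
          exact Real.rpow_le_one_of_one_le_of_nonpos hq1 (by linarith)
        calc y ^ (1 - p * β) * q ^ (-(p + 1)) ≤ (N ^ M * q ^ M) * q ^ (-(p + 1)) := by gcongr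
          _ = N ^ M * (q ^ M * q ^ (-(p + 1))) := by ring
          _ ≤ N ^ M * 1 := by gcongr
          _ = N ^ M := mul_one _
      calc X ^ p * (y⁻¹ * q⁻¹) = |Ey s c y| ^ p * (y ^ (-β * p) * y⁻¹) * (q ^ (-p) * q⁻¹) := by rw [e3]; ring
        _ = |Ey s c y| ^ p * y ^ (-(2:ℝ)) * (y ^ (1 - p * β) * (q ^ (-p) * q⁻¹)) := by rw [e4]; ring
        _ ≤ |Ey s c y| ^ p * y ^ (-(2:ℝ)) * N ^ M := by gcongr
        _ = _ := by ring
    calc |Ey s c y| * ‖an ρ g N y‖ ≤ |Ey s c y| * (y ^ (-(β + 1)) * (C / q ^ 2)) := by gcongr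
      _ = C * (X * (y⁻¹ * q⁻¹)) := e1
      _ ≤ C * ((τ + τ ^ (1 - p) * X ^ p) * (y⁻¹ * q⁻¹)) := by gcongr
      _ = C * (τ * (y⁻¹ * q⁻¹) + τ ^ (1 - p) * (X ^ p * (y⁻¹ * q⁻¹))) := by ring
      _ ≤ C * (τ * (y⁻¹ * q⁻¹) + τ ^ (1 - p) * (N ^ M * (y ^ (-(2:ℝ)) * |Ey s c y| ^ p))) := by gcongr
      _ = _ := by rw [hw]; ring
  have hmajint : IntegrableOn (fun y : ℝ => C * (τ * (N / (y * (y + N))) +
      τ ^ (1 - p) * N ^ M * (y ^ (-(2:ℝ)) * |Ey s c y| ^ p))) (Ioi 1) :=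
    ((hWint.const_mul τ).add (hDint.const_mul _)).const_mul C
  have hEint := an_int hρ hρ1 g hN0 (Ey_meas s c) (Ey_abs s c)
  have hmain : m0 / 2 ≤ C * (τ * W + τ ^ (1 - p) * N ^ M * D) := by
    calc m0 / 2 ≤ ‖∫ y in Ioi (1:ℝ), an ρ g N y‖ := hN1 N hN1'
      _ = ‖∫ y in Ioi (1:ℝ), ((Ey s c y : ℝ) : ℂ) * an ρ g N y‖ := by rw [pair_an hρ hρ1 hz hg hN0 hs hc]
      _ ≤ ∫ y in Ioi (1:ℝ), ‖((Ey s c y : ℝ) : ℂ) * an ρ g N y‖ := norm_integral_le_integral_norm _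
      _ ≤ ∫ y in Ioi (1:ℝ), C * (τ * (N / (y * (y + N))) +
          τ ^ (1 - p) * N ^ M * (y ^ (-(2:ℝ)) * |Ey s c y| ^ p)) :=
          setIntegral_mono_on hEint.norm hmajint measurableSet_Ioi hpt
      _ = C * (τ * W + τ ^ (1 - p) * N ^ M * D) := by
          rw [integral_const_mul, integral_add (hWint.const_mul τ) (hDint.const_mul _), integral_const_mul,
            integral_const_mul, hWval]
  have hτW : τ * W = d := by rw [hτ]; field_simp
  have h4 : C * d = m0 / 4 := by rw [hd]; field_simp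
  have h5 : d ≤ τ ^ (1 - p) * N ^ M * D := by
    have h6 : C * d + C * d ≤ C * (τ * W + τ ^ (1 - p) * N ^ M * D) := by linarith
    rw [hτW] at h6
    have h7 : C * (d + d) ≤ C * (d + τ ^ (1 - p) * N ^ M * D) := by linarith
    have h8 := le_of_mul_le_mul_left h7 hC0
    linarith
  -- solve for `D`
  have hτp : τ ^ (p - 1) * τ ^ (1 - p) = 1 := by rw [← Real.rpow_add hτ0]; simp
  have hNM : N ^ (-M) * N ^ M = 1 := by rw [← Real.rpow_add hN0]; simp
  calc d * d ^ (p - 1) * (W ^ (1 - p) * N ^ (-M)) = d * (τ ^ (p - 1) * N ^ (-M)) := by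
        have : τ ^ (p - 1) = d ^ (p - 1) * W ^ (1 - p) := by
          rw [hτ, Real.div_rpow hd0.le hW0.le, show 1 - p = -(p - 1) by ring, Real.rpow_neg hW0.le]
          rfl
        rw [this]; ring
    _ ≤ (τ ^ (1 - p) * N ^ M * D) * (τ ^ (p - 1) * N ^ (-M)) := by gcongr
    _ = (τ ^ (p - 1) * τ ^ (1 - p)) * (N ^ (-M) * N ^ M) * D := by ring
    _ = D := by rw [hτp, hNM]; ring

end

end Pool.Agent.K3h56.BN
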