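import Pool.Agent.K3h56.BN.R6
import Pool.Agent.K3h56.BN.Fin

/-! The distance of Beurling and Nyman: exact exponent. -/

set_option autoImplicit false

open MeasureTheory Filter Topology Set

namespace Pool.Agent.K3h56.BN

noncomputable section

/-- the errors of the approximants with parameters in `[l, 1]` -/
def BNset (p l : ℝ) : Set ℝ :=
  {e | ∃ (s : Finset ℝ) (c : ℝ → ℝ), (∀ θ ∈ s, l ≤ θ ∧ θ ≤ 1) ∧ ∑ θ ∈ s, c θ * θ = 0 ∧
    e = (∫ x in (0:ℝ)..1, |1 - ∑ θ ∈ s, c θ * Int.fract (θ / x)| ^ p) ^ (1 / p)}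

/-- the distance -/
def BNd (p l : ℝ) : ℝ := sInf (BNset p l)

lemma BNset_nonneg {p l e : ℝ} (he : e ∈ BNset p l) : 0 ≤ e := by
  obtain ⟨s, c, _, _, rfl⟩ := he
  exact Real.rpow_nonneg (intervalIntegral.integral_nonneg zero_le_one fun x _ => by positivity) _

lemma BNset_bdd (p l : ℝ) : BddBelow (BNset p l) := ⟨0, fun _ he => BNset_nonneg he⟩

lemma BNset_one (p l : ℝ) : (1:ℝ) ∈ BNset p l :=
  ⟨∅, fun _ => 0, by simp, by simp, by simp⟩

lemma BNd_antitone {p l l' : ℝ} (h : l' ≤ l) : BNd p l' ≤ BNd p l := by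
  refine csInf_le_csInf (BNset_bdd p l') ⟨1, BNset_one p l⟩ ?_
  rintro e ⟨s, c, h1, h2, h3⟩
  exact ⟨s, c, fun θ hθ => ⟨h.trans (h1 θ hθ).1, (h1 θ hθ).2⟩, h2, h3⟩

/-- integer dilations are admissible -/
lemma BNd_le {p l : ℝ} (hp : 0 ≤ p) {n : ℕ} (hn : 1 ≤ n) (hl : l ≤ 1 / n) (c : ℕ → ℝ) :
    BNd p l ≤ (Dp p n c) ^ (1 / p) := by
  refine csInf_le (BNset_bdd p l) ?_
  set cc : ℕ → ℝ := fun k => if k = 1 then -∑ i ∈ Finset.Icc 2 n, c i / i else c k with hcc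
  have hinj : Set.InjOn (fun k : ℕ => 1 / (k:ℝ)) (Finset.Icc 1 n : Finset ℕ) := by
    intro a ha b hb hab
    simp only [one_div, inv_inj] at hab
    exact_mod_cast hab
  refine ⟨(Finset.Icc 1 n).image (fun k : ℕ => 1 / (k:ℝ)), fun θ => cc ⌊1 / θ⌋₊, ?_, ?_, ?_⟩
  · intro θ hθ
    rw [Finset.mem_image] at hθ
    obtain ⟨k, hk, rfl⟩ := hθ
    rw [Finset.mem_Icc] at hk
    have hk0 : (0:ℝ) < k := by exact_mod_cast hk.1
    have hkn : (k:ℝ) ≤ n := by exact_mod_cast hk.2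
    have hk1 : (1:ℝ) ≤ k := by exact_mod_cast hk.1
    constructor
    · refine hl.trans ?_
      exact one_div_le_one_div_of_le hk0 hkn
    · rw [div_le_one hk0]; exact hk1
  · rw [Finset.sum_image hinj, Icc_split hn]
    have h1 : ∑ k ∈ Finset.Icc 2 n, cc ⌊1 / (1 / (k:ℝ))⌋₊ * (1 / (k:ℝ)) = ∑ i ∈ Finset.Icc 2 n, c i / i := by
      refine Finset.sum_congr rfl fun k hk => ?_
      rw [Finset.mem_Icc] at hk
      rw [one_div_one_div, Nat.floor_natCast]
      simp only [hcc]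
      rw [if_neg (by omega)]
      ring
    rw [h1]
    simp [hcc]
  · rw [← integral_eq hp]
    congr 1
    refine intervalIntegral.integral_congr fun x _ => ?_
    simp only
    congr 3
    rw [Finset.sum_image hinj, Icc_split hn]
    have h1 : ∑ k ∈ Finset.Icc 2 n, cc ⌊1 / (1 / (k:ℝ))⌋₊ * Int.fract (1 / (k:ℝ) / x) =
        ∑ k ∈ Finset.Icc 2 n, c k * Int.fract (1 / (k * x)) := by
      refine Finset.sum_congr rfl fun k hk => ?_
      rw [Finset.mem_Icc] at hk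
      rw [one_div_one_div, Nat.floor_natCast, div_div]
      simp only [hcc]
      rw [if_neg (by omega)]
    rw [h1]
    have h2 : cc ⌊1 / (1 / ((1:ℕ):ℝ))⌋₊ = -∑ i ∈ Finset.Icc 2 n, c i / i := by simp [hcc]
    rw [h2]
    have h3 : (1:ℝ) / ((1:ℕ):ℝ) / x = 1 / x := by simp
    rw [h3, neg_mul, Finset.sum_mul, neg_add_eq_sub, ← Finset.sum_sub_distrib]
    refine Finset.sum_congr rfl fun k _ => ?_
    unfold gen
    ring

lemma BNd_le_dst {p l : ℝ} (hp : 0 ≤ p) {n : ℕ} (hn : 1 ≤ n) (hl : l ≤ 1 / n) : BNd p l ≤ dst p n := by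
  rw [dst_eq hp]
  exact le_ciInf fun c => BNd_le hp hn hl c

/-- **lower bound from each zero** -/
theorem BNd_lower {ρ : ℂ} (hρ : 0 < ρ.re) (hρ1 : ρ.re < 1) (hz : riemannZeta ρ = 0) {p : ℝ} (hp : 1 ≤ p) :
    ∃ K : ℝ, 0 < K ∧ ∃ l0 : ℝ, 0 < l0 ∧ l0 ≤ 1 / 2 ∧ ∀ l : ℝ, 0 < l → l ≤ l0 →
      K * (l ^ (max 0 (1 / p - ρ.re)) * Real.log (1 / l) ^ (-(1 - 1 / p))) ≤ BNd p l := by
  have hp0 : 0 < p := by linarith
  obtain ⟨K, hK, N0, hN0, h⟩ := real_lower hρ hρ1 hz hp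
  refine ⟨K ^ (1 / p) / 2, by positivity, 1 / (N0 + 1), by positivity, ?_, fun l hl0 hl => ?_⟩
  · apply one_div_le_one_div_of_le <;> linarith
  set N : ℝ := 1 / l with hN
  have hlN : l = 1 / N := by rw [hN, one_div_one_div]
  have hNN0 : N0 + 1 ≤ N := by
    rw [hN, le_div_iff₀ hl0]
    rw [le_div_iff₀ (by linarith)] at hl
    linarith
  have hN2 : 2 ≤ N := by linarith
  have hNpos : 0 < N := by linarith
  have hlog1 : 0 < Real.log (1 + N) := Real.log_pos (by linarith)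
  have hlog : 0 < Real.log N := Real.log_pos (by linarith)
  have hlog2 : Real.log (1 + N) ≤ 2 * Real.log N := by
    have h1 : 2 * Real.log N = Real.log (N ^ 2) := by rw [Real.log_pow]; norm_num
    rw [h1]
    exact Real.log_le_log (by linarith) (by nlinarith)
  have hexp1 : 0 ≤ 1 - 1 / p := by
    have : 1 / p ≤ 1 := by rw [div_le_one hp0]; exact hp
    linarith
  have hexp2 : 1 - 1 / p ≤ 1 := by
    have : 0 < 1 / p := by positivity
    linarith
  refine le_csInf ⟨1, BNset_one p l⟩ ?_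
  rintro e ⟨s, c, h1, h2, rfl⟩
  have h3 := h N (by linarith) s c (fun θ hθ => by rw [← hlN]; exact h1 θ hθ) h2
  set M := max 0 (1 - p * ρ.re) with hM
  have hMp : M / p = max 0 (1 / p - ρ.re) := by
    rw [hM]
    rcases le_total 0 (1 - p * ρ.re) with h4 | h4
    · have h5 : 0 ≤ 1 / p - ρ.re := by
        have : 1 / p - ρ.re = (1 - p * ρ.re) / p := by field_simp
        rw [this]; positivity
      rw [max_eq_right h4, max_eq_right h5]
      field_simp
    · have h5 : 1 / p - ρ.re ≤ 0 := by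
        have : 1 / p - ρ.re = (1 - p * ρ.re) / p := by field_simp
        rw [this]
        exact div_nonpos_of_nonpos_of_nonneg h4 hp0.le
      rw [max_eq_left h4, max_eq_left h5]
      simp
  have h4 : (K * (Real.log (1 + N) ^ (1 - p) * N ^ (-M))) ^ (1 / p) ≤
      (∫ x in (0:ℝ)..1, |1 - ∑ θ ∈ s, c θ * Int.fract (θ / x)| ^ p) ^ (1 / p) :=
    Real.rpow_le_rpow (by positivity) h3 (by positivity)
  refine le_trans ?_ h4
  rw [Real.mul_rpow hK.le (by positivity), Real.mul_rpow (by positivity) (by positivity),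
    ← Real.rpow_mul hlog1.le, ← Real.rpow_mul hNpos.le]
  have e1 : (1 - p) * (1 / p) = -(1 - 1 / p) := by field_simp; ring
  have e2 : N ^ (-M * (1 / p)) = l ^ (max 0 (1 / p - ρ.re)) := by
    rw [← hMp, hlN, Real.div_rpow zero_le_one hNpos.le, Real.one_rpow, one_div (N ^ (M / p)),
      ← Real.rpow_neg hNpos.le]
    congr 1
    ring
  rw [e1, e2]
  have e3 : 1 / 2 * Real.log N ^ (-(1 - 1 / p)) ≤ Real.log (1 + N) ^ (-(1 - 1 / p)) := by
    calc 1 / 2 * Real.log N ^ (-(1 - 1 / p)) ≤ (2:ℝ) ^ (-(1 - 1 / p)) * Real.log N ^ (-(1 - 1 / p)) := by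
          gcongr
          calc (1:ℝ) / 2 = 2 ^ (-(1:ℝ)) := by rw [Real.rpow_neg_one]; norm_num
            _ ≤ 2 ^ (-(1 - 1 / p)) := Real.rpow_le_rpow_of_exponent_le (by norm_num) (by linarith)
      _ = (2 * Real.log N) ^ (-(1 - 1 / p)) := (Real.mul_rpow (by norm_num) hlog.le).symm
      _ ≤ Real.log (1 + N) ^ (-(1 - 1 / p)) :=
          Real.rpow_le_rpow_of_nonpos hlog1 hlog2 (by linarith)
  have hKp : 0 < K ^ (1 / p) := by positivity
  have hlp : 0 ≤ l ^ (max 0 (1 / p - ρ.re)) := by positivity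
  calc K ^ (1 / p) / 2 * (l ^ (max 0 (1 / p - ρ.re)) * Real.log N ^ (-(1 - 1 / p)))
      = K ^ (1 / p) * ((1 / 2 * Real.log N ^ (-(1 - 1 / p))) * l ^ (max 0 (1 / p - ρ.re))) := by ring
    _ ≤ K ^ (1 / p) * (Real.log (1 + N) ^ (-(1 - 1 / p)) * l ^ (max 0 (1 / p - ρ.re))) := by gcongr

lemma inv_tendsto : Tendsto (fun l : ℝ => 1 / l) (𝓝[>] 0) atTop := by
  simp_rw [one_div]
  exact tendsto_inv_nhdsGT_zero

/-- lower bound with the exponent -/
theorem BNd_ev_lower {p : ℝ} (hp : 1 ≤ p) {δ : ℝ} (hδ : 0 < δ) :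
    ∀ᶠ l : ℝ in 𝓝[>] 0, l ^ (max 0 (1 / p - Th) + δ) ≤ BNd p l := by
  have hp0 : 0 < p := by linarith
  obtain ⟨ρ, hz, hρ, hρ1, hρ2⟩ := Th_zero (κ := δ / 4) (by linarith)
  obtain ⟨K, hK, l0, hl0, hl0', h⟩ := BNd_lower hρ hρ1 hz hp
  have hexp1 : 0 ≤ 1 - 1 / p := by
    have : 1 / p ≤ 1 := by rw [div_le_one hp0]; exact hp
    linarith
  have hexp2 : 1 - 1 / p ≤ 1 := by
    have : 0 < 1 / p := by positivity
    linarith
  set η : ℝ := δ / 4 with hη
  have hη0 : 0 < η := by positivity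
  have h1 : ∀ᶠ l : ℝ in 𝓝[>] 0, 1 / (K * η) ≤ (1 / l) ^ η :=
    ((tendsto_rpow_atTop hη0).comp inv_tendsto).eventually_ge_atTop _
  have h2 : ∀ᶠ l : ℝ in 𝓝[>] 0, Real.exp 1 ≤ 1 / l := inv_tendsto.eventually_ge_atTop _
  filter_upwards [h1, h2, self_mem_nhdsWithin, Ioc_mem_nhdsGT hl0] with l h1 h2 h3 h4
  have hl : 0 < l := h3
  set N := 1 / l with hN
  have hN0 : 0 < N := by positivity
  have hN1 : 1 ≤ N := by
    have := Real.add_one_le_exp (1:ℝ)
    linarith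
  have hlN : l = 1 / N := by rw [hN, one_div_one_div]
  have hlog1 : 1 ≤ Real.log N := by
    rw [Real.le_log_iff_exp_le hN0]; exact h2
  refine le_trans ?_ (h l hl h4.2)
  have hlog2 : Real.log N ^ (1 - 1 / p) ≤ N ^ η / η := by
    calc Real.log N ^ (1 - 1 / p) ≤ Real.log N ^ (1:ℝ) := Real.rpow_le_rpow_of_exponent_le hlog1 hexp2
      _ = Real.log N := Real.rpow_one _
      _ ≤ N ^ η / η := Real.log_le_rpow_div hN0.le hη0
  have hlogpos : 0 < Real.log N ^ (1 - 1 / p) := by positivity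
  have h5 : Real.log N ^ (1 - 1 / p) ≤ K * N ^ (2 * η) := by
    calc Real.log N ^ (1 - 1 / p) ≤ N ^ η / η := hlog2
      _ = K * (N ^ η * (1 / (K * η))) := by field_simp
      _ ≤ K * (N ^ η * N ^ η) := by gcongr
      _ = K * N ^ (2 * η) := by rw [← Real.rpow_add hN0]; ring_nf
  have h6 : l ^ (2 * η) ≤ K * Real.log N ^ (-(1 - 1 / p)) := by
    rw [Real.rpow_neg (by linarith : 0 ≤ Real.log N), hlN, Real.div_rpow zero_le_one hN0.le, Real.one_rpow,
      ← div_eq_mul_inv, div_le_div_iff₀ (by positivity) hlogpos, one_mul]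
    exact h5
  have h7 : l ^ (max 0 (1 / p - Th) + δ) ≤ l ^ (max 0 (1 / p - ρ.re) + 2 * η) := by
    have hl1 : l ≤ 1 := by linarith [h4.2]
    apply Real.rpow_le_rpow_of_exponent_ge hl hl1
    have : max 0 (1 / p - ρ.re) ≤ max 0 (1 / p - Th) + δ / 4 := by
      apply max_le
      · have := le_max_left 0 (1 / p - Th)
        linarith
      · have := le_max_right 0 (1 / p - Th)
        linarith
    linarith
  refine h7.trans ?_
  rw [Real.rpow_add hl]
  calc l ^ (max 0 (1 / p - ρ.re)) * l ^ (2 * η)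
      ≤ l ^ (max 0 (1 / p - ρ.re)) * (K * Real.log N ^ (-(1 - 1 / p))) := by gcongr
    _ = _ := by ring

/-- upper bound with the exponent -/
theorem BNd_ev_upper {p : ℝ} (hp : 1 ≤ p) {δ : ℝ} (hδ : 0 < δ) :
    ∀ᶠ l : ℝ in 𝓝[>] 0, BNd p l ≤ l ^ (max 0 (1 / p - Th) - δ) := by
  have hp0 : 0 < p := by linarith
  set e := max 0 (1 / p - Th) with he
  have he0 : 0 ≤ e := le_max_left _ _
  have he1 : e ≤ 1 := by
    apply max_le (by norm_num)
    have : 1 / p ≤ 1 := by rw [div_le_one hp0]; exact hp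
    linarith [Th_ge]
  have h1 := dst_upper hp (δ := δ / 2) (by linarith)
  have h2 : Tendsto (fun l : ℝ => ⌊1 / l⌋₊) (𝓝[>] 0) atTop := tendsto_nat_floor_atTop.comp inv_tendsto
  have h3 : ∀ᶠ l : ℝ in 𝓝[>] 0, (2:ℝ) ≤ (1 / l) ^ (δ / 2) :=
    ((tendsto_rpow_atTop (by linarith : 0 < δ / 2)).comp inv_tendsto).eventually_ge_atTop _
  filter_upwards [h2.eventually h1, h2.eventually_ge_atTop 1, h3, self_mem_nhdsWithin,
    inv_tendsto.eventually_ge_atTop 2] with l h1 h2 h3 h4 h5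
  have hl : 0 < l := h4
  set n := ⌊1 / l⌋₊ with hn
  have hn1 : (1:ℝ) ≤ n := by exact_mod_cast h2
  have hn0 : (0:ℝ) < n := by linarith
  have hnle : (n:ℝ) ≤ 1 / l := Nat.floor_le (by positivity)
  have hnge : 1 / (2 * l) ≤ n := by
    have h6 := Nat.lt_floor_add_one (1 / l)
    have h7 : 1 / (2 * l) = (1 / l) / 2 := by field_simp
    rw [h7]
    linarith
  have hln : l ≤ 1 / n := by
    rw [le_div_iff₀ hn0]
    rw [le_div_iff₀ hl] at hnle
    linarith
  refine (BNd_le_dst hp0.le h2 hln).trans (h1.trans ?_)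
  rw [Real.rpow_add hn0, Real.rpow_sub hl]
  have a1 : (n:ℝ) ^ (-e) ≤ 2 * l ^ e := by
    calc (n:ℝ) ^ (-e) ≤ (1 / (2 * l)) ^ (-e) :=
          Real.rpow_le_rpow_of_nonpos (by positivity) hnge (by linarith)
      _ = 2 ^ e * l ^ e := by
          rw [one_div, Real.inv_rpow (by positivity), ← Real.rpow_neg (by positivity), neg_neg,
            Real.mul_rpow (by norm_num) hl.le]
      _ ≤ 2 * l ^ e := by
          gcongr
          calc (2:ℝ) ^ e ≤ 2 ^ (1:ℝ) := Real.rpow_le_rpow_of_exponent_le (by norm_num) he1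
            _ = 2 := by norm_num
  have a2 : (n:ℝ) ^ (δ / 2) ≤ (1 / l) ^ (δ / 2) := Real.rpow_le_rpow hn0.le hnle (by linarith)
  have a3 : l ^ e / l ^ δ = l ^ e * ((1 / l) ^ (δ / 2) * (1 / l) ^ (δ / 2)) := by
    rw [← Real.rpow_add (by positivity), show δ / 2 + δ / 2 = δ by ring, Real.div_rpow zero_le_one hl.le,
      Real.one_rpow]
    ring
  rw [a3]
  calc (n:ℝ) ^ (-e) * (n:ℝ) ^ (δ / 2) ≤ (2 * l ^ e) * (1 / l) ^ (δ / 2) := by gcongr
    _ = l ^ e * (2 * (1 / l) ^ (δ / 2)) := by ring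
    _ ≤ l ^ e * ((1 / l) ^ (δ / 2) * (1 / l) ^ (δ / 2)) := by gcongr

/-- **The exact exponent of Beurling's distance.** -/
theorem BNd_limit {p : ℝ} (hp : 1 ≤ p) :
    Tendsto (fun l : ℝ => Real.log (BNd p l) / Real.log l) (𝓝[>] 0) (𝓝 (max 0 (1 / p - Th))) := by
  rw [Metric.tendsto_nhds]
  intro δ hδ
  filter_upwards [BNd_ev_lower hp (δ := δ / 2) (by linarith), BNd_ev_upper hp (δ := δ / 2) (by linarith),
    self_mem_nhdsWithin, Ioo_mem_nhdsGT (zero_lt_one' ℝ)] with l h1 h2 h3 h4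
  have hl : 0 < l := h3
  have hl1 : l < 1 := h4.2
  have hlog : Real.log l < 0 := Real.log_neg hl hl1
  have hd : 0 < BNd p l := lt_of_lt_of_le (by positivity) h1
  have l1 := Real.log_le_log (by positivity) h1
  have l2 := Real.log_le_log hd h2
  rw [Real.log_rpow hl] at l1 l2
  rw [Real.dist_eq, abs_lt]
  constructor
  · have : max 0 (1 / p - Th) - δ / 2 ≤ Real.log (BNd p l) / Real.log l := by
      rw [le_div_iff_of_neg hlog]; exact l2
    linarith
  · have : Real.log (BNd p l) / Real.log l ≤ max 0 (1 / p - Th) + δ / 2 := by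
      rw [div_le_iff_of_neg hlog]; exact l1
    linarith

/-- polynomial decay along a sequence is equivalent to a zero-free half-plane -/
theorem BNd_iff {p : ℝ} (hp : 1 ≤ p) :
    (∃ σ₀ : ℝ, 1 / 2 < σ₀ ∧ σ₀ < 1 / p ∧ ∀ s : ℂ, σ₀ ≤ s.re → riemannZeta s ≠ 0) ↔
      ∃ δ : ℝ, 0 < δ ∧ ∃ᶠ l : ℝ in 𝓝[>] 0, BNd p l ≤ l ^ δ := by
  have hp0 : 0 < p := by linarith
  constructor
  · rintro ⟨σ₀, h1, h2, h3⟩
    have hle : Th ≤ σ₀ := Th_le_of_free fun s hs => h3 s hs.le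
    have hm : 1 / p - σ₀ ≤ max 0 (1 / p - Th) := le_trans (by linarith) (le_max_right _ _)
    refine ⟨(1 / p - σ₀) / 2, by linarith, ?_⟩
    have h4 := BNd_ev_upper hp (δ := (1 / p - σ₀) / 2) (by linarith)
    refine Eventually.frequently ?_
    filter_upwards [h4, self_mem_nhdsWithin, Ioo_mem_nhdsGT (zero_lt_one' ℝ)] with l h5 h6 h7
    refine h5.trans (Real.rpow_le_rpow_of_exponent_ge h6 h7.2.le (by linarith))
  · rintro ⟨δ, hδ, hfr⟩
    have hlt : Th < 1 / p := by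
      by_contra hcon
      have hm : max 0 (1 / p - Th) = 0 := max_eq_left (by linarith)
      have h1 := BNd_ev_lower hp (δ := δ / 2) (by linarith)
      rw [hm, zero_add] at h1
      obtain ⟨l, h2, h3, h4⟩ := (hfr.and_eventually (h1.and (Ioo_mem_nhdsGT (zero_lt_one' ℝ)))).exists
      have h5 := h3.trans h2
      rw [Real.rpow_le_rpow_left_iff_of_base_lt_one h4.1 h4.2] at h5
      linarith
    refine ⟨(Th + 1 / p) / 2 , ?_, by linarith, fun s hs h0 => ?_⟩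
    · have := Th_ge
      linarith
    · have := re_le_Th h0
      linarith

end

end Pool.Agent.K3h56.BN
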